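import Pool.Agent.Lib.MP_bb8441_an.Ch.Basic
import Pool.Agent.Lib.MP_bb8441_an.JCorrectOne

/-! The key property for the identity and for a conjugation. -/

set_option autoImplicit false

namespace Pool.Agent.Lib.MP_bb8441_an.Ch

variable {X : Type*} [NormedAddCommGroup X] [NormedSpace ℂ X]

/-- If `T - c` has dense range and is not surjective, then every subspace of finite codimension
contains almost eigenvectors for `c`. -/
theorem almost_eigen [CompleteSpace X] (T : X →L[ℂ] X) (c : ℂ)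
    (hns : ¬ Function.Surjective fun x => T x - c • x) (hd : DenseRange fun x => T x - c • x)
    (Z : Type*) [NormedAddCommGroup Z] [NormedSpace ℂ Z] [FiniteDimensional ℂ Z]
    (Φ : X →L[ℂ] Z) (η : ℝ) (hη : 0 < η) :
    ∃ v : X, ‖v‖ = 1 ∧ Φ v = 0 ∧ ‖T v - c • v‖ < η := by
  by_contra hcon
  push Not at hcon
  set S : X →L[ℂ] X := T - c • ContinuousLinearMap.id ℂ X with hS
  have hSx : ∀ x, S x = T x - c • x := by
    intro x; simp [hS]
  -- bounded below on the kernel of `Φ`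
  have hb : ∀ x, Φ x = 0 → η * ‖x‖ ≤ ‖S x‖ := by
    intro x hx
    by_cases h0 : x = 0
    · simp [h0]
    have hn : ‖x‖ ≠ 0 := norm_ne_zero_iff.mpr h0
    have hnpos : 0 < ‖x‖ := norm_pos_iff.mpr h0
    have h1 := hcon (((‖x‖⁻¹ : ℝ) : ℂ) • x) (by
      rw [norm_smul, Complex.norm_real, norm_inv, norm_norm, inv_mul_cancel₀ hn]) (by
      rw [map_smul, hx, smul_zero])
    rw [← hSx, map_smul, norm_smul, Complex.norm_real, norm_inv, norm_norm] at h1
    rw [inv_mul_eq_div, le_div_iff₀ hnpos] at h1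
    exact h1
  have hclosed : IsClosed ((Φ.ker.map (S : X →ₗ[ℂ] X) : Submodule ℂ X) : Set X) := by
    have hK : IsClosed (Φ.ker : Set X) := Φ.isClosed_ker
    have : CompleteSpace Φ.ker := hK.completeSpace_coe
    let S' : Φ.ker →L[ℂ] X := S.comp Φ.ker.subtypeL
    have hanti : AntilipschitzWith (Real.toNNReal η⁻¹) S' := by
      apply ContinuousLinearMap.antilipschitz_of_bound
      intro x
      have h2 := hb x.1 x.2
      have h3 : S' x = S x.1 := rfl
      rw [h3, Real.coe_toNNReal _ (inv_nonneg.mpr hη.le), inv_mul_eq_div, le_div_iff₀ hη, mul_comm]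
      exact h2
    have h4 := hanti.isClosed_range S'.uniformContinuous
    convert h4 using 1
    ext y
    constructor
    · rintro ⟨x, hx, rfl⟩
      exact ⟨⟨x, hx⟩, rfl⟩
    · rintro ⟨x, rfl⟩
      exact ⟨x.1, x.2, rfl⟩
  have : (Φ.ker : Submodule ℂ X).CoFG :=
    Module.Finite.equiv (Φ : X →ₗ[ℂ] Z).quotKerEquivRange.symm
  have hr : IsClosed ((S : X →ₗ[ℂ] X).range : Set X) :=
    LinearMap.isClosed_range_of_isClosed_map_of_finiteDimensional_quotient (s := Φ.ker) hclosed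
  apply hns
  intro y
  have hy : y ∈ closure (Set.range fun x => T x - c • x) := hd y
  have h5 : (Set.range fun x => T x - c • x) = ((S : X →ₗ[ℂ] X).range : Set X) := by
    ext z
    constructor
    · rintro ⟨x, rfl⟩
      exact ⟨x, hSx x⟩
    · rintro ⟨x, rfl⟩
      exact ⟨x, (hSx x).symm⟩
  rw [h5, hr.closure_eq] at hy
  obtain ⟨x, hx⟩ := hy
  exact ⟨x, (hSx x).symm.trans hx⟩

theorem isSym_id : IsSym (X := X) id id where
  dich := Or.inl fun _ => rfl
  add _ _ := rfl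
  smul _ _ := rfl
  invol _ := rfl
  norm _ := rfl
  σσ _ := rfl
  σ_norm _ := rfl
  σ_real _ := rfl

theorem isSym_conj (J : X ≃ₗᵢ⋆[ℂ] X) (hJ : ∀ x, J (J x) = x) :
    IsSym (X := X) J (starRingEnd ℂ) where
  dich := Or.inr fun x => by
    rw [map_smulₛₗ, Complex.conj_I, neg_smul]
  add x y := map_add J x y
  smul c x := map_smulₛₗ J c x
  invol := hJ
  norm x := J.norm_map x
  σσ c := Complex.conj_conj c
  σ_norm c := Complex.norm_conj c
  σ_real r := Complex.conj_ofReal r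

/-- The key property without symmetry. -/
theorem key_id [CompleteSpace X] (T : X →L[ℂ] X) (Λ : Set ℂ)
    (H1 : ∀ c : ℂ, DenseRange fun x => T x - c • x)
    (hns : ∀ c ∈ Λ, ¬ Function.Surjective fun x => T x - c • x) :
    HasKey (id : X → X) T Λ (fun _ => 3) := by
  intro S V W hVf hWf hST _ _ _ c hc y hy η hη
  obtain ⟨n, Ψ, hΨ⟩ := exists_functional W
  set D : X →L[ℂ] V := (S - T).codRestrict V (fun x => by
    have := hST x
    simpa using this) with hD
  set Φ : X →L[ℂ] (Fin n → ℂ) × V := Ψ.prod D with hΦ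
  obtain ⟨v, hv1, hv2, hv3⟩ := almost_eigen T c (hns c hc) (H1 c) ((Fin n → ℂ) × V) Φ η hη
  have hv4 : Ψ v = 0 := by
    have := congrArg Prod.fst hv2
    simpa [hΦ] using this
  have hv5 : S v = T v := by
    have h1 : D v = 0 := by
      have := congrArg Prod.snd hv2
      simpa [hΦ] using this
    have h2 : ((D v : V) : X) = 0 := by rw [h1]; rfl
    have h3 : ((D v : V) : X) = S v - T v := rfl
    rw [h3] at h2
    exact sub_eq_zero.mp h2
  obtain ⟨φ, hφ1, hφ2, hφ3⟩ := hΨ v hv1 hv4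
  have hKx : ∀ x, (φ.smulRight y) x = φ x • y := fun x => by
    rw [ContinuousLinearMap.smulRight_apply]
  refine ⟨v, φ.smulRight y, hv1, by rw [hv5]; exact hv3, ?_, ?_, ?_, ?_, ?_⟩
  · intro x hx
    rw [hKx, hφ2 x hx, zero_smul]
  · rw [hKx, hφ1, one_smul]
  · intro x
    rw [hKx]
    exact V.smul_mem _ hy
  · rw [ContinuousLinearMap.norm_smulRight_apply]
    exact mul_le_mul_of_nonneg_right hφ3 (norm_nonneg y)
  · intro x
    rfl

/-- The key property with a conjugation. -/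
theorem key_conj [CompleteSpace X] (J : X ≃ₗᵢ⋆[ℂ] X) (hJ : ∀ x, J (J x) = x)
    (T : X →L[ℂ] X) (hT : ∀ x, T (J x) = J (T x)) (Λ : Set ℂ)
    (H1 : ∀ c : ℂ, DenseRange fun x => T x - c • x)
    (hΛ : ∀ c ∈ Λ, ‖c‖ = 1 ∧ (starRingEnd ℂ) c ≠ c)
    (hns : ∀ c ∈ Λ, ¬ Function.Surjective fun x => T x - c • x) :
    HasKey (J : X → X) T Λ (fun c => 24 * (‖T‖ + 1) / ‖c - (starRingEnd ℂ) c‖) := by
  classical
  intro S V W hV hW hST _ hVJ hWJ c hc y hy η hη
  have hT1 : 0 < ‖T‖ + 1 := by positivity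
  have hcc : (starRingEnd ℂ) c ≠ c := (hΛ c hc).2
  have hd0 : 0 < ‖c - (starRingEnd ℂ) c‖ := norm_pos_iff.mpr (sub_ne_zero.mpr (Ne.symm hcc))
  obtain ⟨n, Ψ, hΨ⟩ := exists_functional_pair J hJ T hT W
  obtain ⟨Ψ', hΨ'⟩ := exists_conj_functional J n Ψ
  set D : X →L[ℂ] V := (S - T).codRestrict V (fun x => by
    have := hST x
    simpa using this) with hD
  set Φ : X →L[ℂ] ((Fin n → ℂ) × (Fin n → ℂ)) × V := (Ψ.prod Ψ').prod D with hΦ
  set M : ℝ := 12 * (‖T‖ + 1) / ‖c - (starRingEnd ℂ) c‖ with hM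
  have hM0 : 0 < M := by positivity
  obtain ⟨v, hv1, hv2, hv3'⟩ := almost_eigen T c (hns c hc) (H1 c)
    (((Fin n → ℂ) × (Fin n → ℂ)) × V) Φ (min η (‖c - (starRingEnd ℂ) c‖ / 6))
    (lt_min hη (by positivity))
  have hv3 : ‖T v - c • v‖ < η := lt_of_lt_of_le hv3' (min_le_left _ _)
  have hv6 : ‖T v - c • v‖ ≤ ‖c - (starRingEnd ℂ) c‖ / 6 :=
    (lt_of_lt_of_le hv3' (min_le_right _ _)).le
  have hv4 : Ψ v = 0 := by
    have := congrArg (fun z => z.1.1) hv2
    simpa [hΦ] using this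
  have hv4' : Ψ (J v) = 0 := by
    apply hΨ'
    have := congrArg (fun z => z.1.2) hv2
    simpa [hΦ] using this
  have hv5 : S v = T v := by
    have h1 : D v = 0 := by
      have := congrArg Prod.snd hv2
      simpa [hΦ] using this
    have h2 : ((D v : V) : X) = 0 := by rw [h1]; rfl
    have h3 : ((D v : V) : X) = S v - T v := rfl
    rw [h3] at h2
    exact sub_eq_zero.mp h2
  obtain ⟨φ, hφ1, hφJ, hφ2, hφ3⟩ := hΨ v c hv1 hv4 hv4' (hΛ c hc).1 hcc hv6
  set K₀ : X →L[ℂ] X := φ.smulRight y with hK₀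
  have hK₀x : ∀ x, K₀ x = φ x • y := fun x => by
    rw [hK₀, ContinuousLinearMap.smulRight_apply]
  have hK₀n : ‖K₀‖ ≤ M * ‖y‖ := by
    rw [hK₀, ContinuousLinearMap.norm_smulRight_apply]
    exact mul_le_mul_of_nonneg_right hφ3 (norm_nonneg _)
  have hKx : ∀ x, (K₀ + conjOp J K₀) x = K₀ x + J (K₀ (J x)) := fun x => rfl
  refine ⟨v, K₀ + conjOp J K₀, hv1, ?_, ?_, ?_, ?_, ?_, ?_⟩
  · rw [hv5]
    exact hv3
  · intro x hx
    rw [hKx, hK₀x, hφ2 _ hx, hK₀x, hφ2 _ (hWJ x hx)]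
    simp
  · rw [hKx, hK₀x, hK₀x, hφ1, hφJ, one_smul, zero_smul, map_zero, add_zero]
  · intro x
    rw [hKx]
    refine V.add_mem ?_ ?_
    · rw [hK₀x]
      exact V.smul_mem _ hy
    · apply hVJ
      rw [hK₀x]
      exact V.smul_mem _ hy
  · have h1 : ‖K₀ + conjOp J K₀‖ ≤ 2 * (M * ‖y‖) := by
      refine (norm_add_le _ _).trans ?_
      have := norm_conjOp_le J K₀
      linarith
    refine h1.trans (le_of_eq ?_)
    rw [hM]
    ring
  · intro x
    rw [hKx, hKx, hJ, map_add, hJ, add_comm (K₀ (J x))]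

/-- If `T - c` is surjective and not injective, then the spectrum is a neighbourhood of `c`. -/
theorem interior_of_surjective [CompleteSpace X] (T : X →L[ℂ] X) (c : ℂ)
    (hs : Function.Surjective fun x => T x - c • x) (x : X) (hx : x ≠ 0) (hTx : T x = c • x) :
    (interior (spectrum ℂ T)).Nonempty := by
  set A : X →L[ℂ] X := T - c • ContinuousLinearMap.id ℂ X with hA
  have hAx : ∀ z, A z = T z - c • z := fun z => by simp [hA]
  have hAs : Function.Surjective A := by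
    intro z
    obtain ⟨y, hy⟩ := hs z
    exact ⟨y, by rw [hAx]; exact hy⟩
  have hr : A.range = ⊤ := LinearMap.range_eq_top.2 hAs
  set R := A.nonlinearRightInverseOfSurjective hr with hR
  have hN : 0 < R.nnnorm := A.nonlinearRightInverseOfSurjective_nnnorm_pos hr
  have hN' : (0 : ℝ) < (R.nnnorm : ℝ)⁻¹ := inv_pos.2 hN
  have hx0 : 0 < ‖x‖ := norm_pos_iff.2 hx
  refine ⟨c, mem_interior.2 ⟨Metric.ball c ((R.nnnorm : ℝ)⁻¹ / 3), ?_, Metric.isOpen_ball,
    Metric.mem_ball_self (by positivity)⟩⟩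
  intro b hb
  rw [Metric.mem_ball, dist_eq_norm] at hb
  by_contra hbs
  have hu : IsUnit (algebraMap ℂ (X →L[ℂ] X) b - T) := by
    by_contra h
    exact hbs (spectrum.mem_iff.2 h)
  -- `b - T` is injective
  have hinj : ∀ z w : X, T z - b • z = T w - b • w → z = w := by
    intro z w hzw
    obtain ⟨u, hu⟩ := hu
    have h1 : ∀ z : X, (algebraMap ℂ (X →L[ℂ] X) b - T) z = b • z - T z := fun z => by
      simp [Algebra.algebraMap_eq_smul_one]
    have h2 : (u : X →L[ℂ] X) z = (u : X →L[ℂ] X) w := by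
      rw [hu, h1, h1, ← neg_sub, hzw, neg_sub]
    have h3 : ∀ z : X, ((↑u⁻¹ : X →L[ℂ] X) * (u : X →L[ℂ] X)) z = z := fun z => by
      rw [Units.inv_mul]
      rfl
    have h4 := congrArg (fun t => (↑u⁻¹ : X →L[ℂ] X) t) h2
    have h5 := h3 z
    have h6 := h3 w
    rw [ContinuousLinearMap.mul_apply] at h5 h6
    rw [← h5, ← h6]
    exact h4
  have happ : ApproximatesLinearOn (fun z : X => T z - b • z) A Set.univ ‖b - c‖₊ := by
    intro z _ w _
    have h1 : (T z - b • z) - (T w - b • w) - A (z - w) = (c - b) • (z - w) := by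
      rw [hAx, map_sub, sub_smul, smul_sub b, smul_sub c]
      abel
    show ‖(T z - b • z) - (T w - b • w) - A (z - w)‖ ≤ (‖b - c‖₊ : ℝ) * ‖z - w‖
    rw [h1, norm_smul, coe_nnnorm, norm_sub_rev c b]
  have hsurj := happ.surjOn_closedBall_of_nonlinearRightInverse R (b := 0) (ε := ‖x‖ / 2)
    (by positivity) (Set.subset_univ _)
  have hmem : (c - b) • x ∈ Metric.closedBall ((fun z : X => T z - b • z) 0)
      (((R.nnnorm : ℝ)⁻¹ - (‖b - c‖₊ : ℝ)) * (‖x‖ / 2)) := by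
    rw [Metric.mem_closedBall, dist_eq_norm]
    simp only [map_zero, smul_zero, sub_zero]
    rw [norm_smul, coe_nnnorm, norm_sub_rev c b]
    nlinarith [norm_nonneg (b - c)]
  obtain ⟨z, hz, hz2⟩ := hsurj hmem
  have hzx : z = x := by
    apply hinj
    rw [hTx, ← sub_smul]
    exact hz2
  rw [hzx, Metric.mem_closedBall, dist_zero_right] at hz
  linarith

/-- Summable weights. -/
theorem exists_weight (Λ : Set ℂ) (hΛ : Λ.Countable) (σ : ℂ → ℂ) (hσ : ∀ c, σ (σ c) = c)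
    (hσΛ : ∀ c ∈ Λ, σ c ∈ Λ) (w₀ : ℝ) (hw₀ : 0 < w₀) :
    ∃ w : ℂ → ℝ, (∀ c ∈ Λ, 0 < w c) ∧ (∀ c ∈ Λ, w (σ c) = w c) ∧
      ∀ F : Finset ℂ, (∀ c ∈ F, c ∈ Λ) → ∑ c ∈ F, w c ≤ w₀ := by
  classical
  obtain ⟨e, he⟩ := Set.countable_iff_exists_injOn.1 hΛ
  have key : ∀ (F : Finset ℂ) (g : ℂ → ℕ), Set.InjOn g (F : Set ℂ) →
      ∑ c ∈ F, ((1 : ℝ) / 2) ^ g c ≤ 2 := by
    intro F g hg
    rw [← Finset.sum_image (f := fun n : ℕ => ((1 : ℝ) / 2) ^ n) hg]
    refine (Summable.sum_le_tsum _ (fun n _ => by positivity) summable_geometric_two).trans ?_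
    rw [tsum_geometric_two]
  refine ⟨fun c => w₀ / 4 * (((1 : ℝ) / 2) ^ e c + (1 / 2) ^ e (σ c)), ?_, ?_, ?_⟩
  · intro c _
    positivity
  · intro c _
    change w₀ / 4 * (((1 : ℝ) / 2) ^ e (σ c) + (1 / 2) ^ e (σ (σ c))) = _
    rw [hσ, add_comm]
  · intro F hF
    rw [← Finset.mul_sum, Finset.sum_add_distrib]
    have h1 := key F e (fun a ha b hb h => he (hF a ha) (hF b hb) h)
    have h2 := key F (fun c => e (σ c)) (fun a ha b hb h => by
      have h3 : σ a = σ b := he (hσΛ a (hF a ha)) (hσΛ b (hF b hb)) h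
      rw [← hσ a, h3, hσ b])
    nlinarith

theorem roots_countable : {c : ℂ | ∃ m : ℕ, 1 ≤ m ∧ c ^ m = 1}.Countable := by
  have h : {c : ℂ | ∃ m : ℕ, 1 ≤ m ∧ c ^ m = 1} ⊆
      ⋃ m : ℕ, ((Polynomial.nthRootsFinset m (1 : ℂ) : Finset ℂ) : Set ℂ) := by
    rintro c ⟨m, hm, hc⟩
    refine Set.mem_iUnion.2 ⟨m, ?_⟩
    rw [Finset.mem_coe, Polynomial.mem_nthRootsFinset (by omega)]
    exact hc
  exact (Set.countable_iUnion fun m => (Finset.finite_toSet _).countable).mono h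

end Pool.Agent.Lib.MP_bb8441_an.Ch
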