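import Pool.Agent.Lib.MP_bb8441_an.Ch.Defs

/-! Simple facts on symmetries and stages. -/

set_option autoImplicit false

namespace Pool.Agent.Lib.MP_bb8441_an.Ch

variable {X : Type*} [NormedAddCommGroup X] [NormedSpace ℂ X]

theorem IsSym.zero {J : X → X} {σ : ℂ → ℂ} (h : IsSym J σ) : J 0 = 0 := by
  have h1 := h.add 0 0
  rw [add_zero] at h1
  exact left_eq_add.mp h1

theorem IsSym.neg {J : X → X} {σ : ℂ → ℂ} (h : IsSym J σ) (x : X) : J (-x) = -J x := by
  have h1 := h.add x (-x)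
  rw [add_neg_cancel, h.zero] at h1
  exact (neg_eq_of_add_eq_zero_right h1.symm).symm

theorem IsSym.sub {J : X → X} {σ : ℂ → ℂ} (h : IsSym J σ) (x y : X) : J (x - y) = J x - J y := by
  rw [sub_eq_add_neg, h.add, h.neg, sub_eq_add_neg]

theorem IsSym.smul_real {J : X → X} {σ : ℂ → ℂ} (h : IsSym J σ) (r : ℝ) (x : X) :
    J ((r : ℂ) • x) = (r : ℂ) • J x := by
  rw [h.smul, h.σ_real]

theorem IsSym.continuous {J : X → X} {σ : ℂ → ℂ} (h : IsSym J σ) : Continuous J := by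
  have : LipschitzWith 1 J := by
    refine LipschitzWith.of_dist_le_mul fun x y => ?_
    rw [dist_eq_norm, dist_eq_norm, ← h.sub, h.norm, NNReal.coe_one, one_mul]
  exact this.continuous

/-- `J` maps the span of a set invariant under `J` into itself. -/
theorem IsSym.span {J : X → X} {σ : ℂ → ℂ} (h : IsSym J σ) (E : Set X) (hE : ∀ x ∈ E, J x ∈ E)
    (x : X) (hx : x ∈ Submodule.span ℂ E) : J x ∈ Submodule.span ℂ E := by
  induction hx using Submodule.span_induction with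
  | mem x hx => exact Submodule.subset_span (hE x hx)
  | zero => rw [h.zero]; exact Submodule.zero_mem _
  | add x y _ _ hx hy => rw [h.add]; exact Submodule.add_mem _ hx hy
  | smul a x _ hx => rw [h.smul]; exact Submodule.smul_mem _ _ hx

theorem V_J {J : X → X} {σ : ℂ → ℂ} (hJ : IsSym J σ) (T : X →L[ℂ] X) (Λ : Set ℂ) (s : CState X)
    (hs : s.Inv J σ T Λ) (x : X) (hx : x ∈ s.V) : J x ∈ s.V := by
  refine hJ.span _ ?_ x hx
  rintro _ ⟨c, hc, rfl⟩
  refine ⟨σ c, hs.A_σ c hc, ?_⟩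
  exact hs.u_σ c hc 0 (Nat.zero_le _)

theorem W_J {J : X → X} {σ : ℂ → ℂ} (hJ : IsSym J σ) (T : X →L[ℂ] X) (Λ : Set ℂ) (s : CState X)
    (hs : s.Inv J σ T Λ) (x : X) (hx : x ∈ s.W) : J x ∈ s.W := by
  refine hJ.span _ ?_ x hx
  rintro _ ⟨c, hc, l, hl, rfl⟩
  exact ⟨σ c, hs.A_σ c hc, l, by rw [hs.L_σ c hc]; exact hl, (hs.u_σ c hc l hl).symm⟩

theorem V_fin (s : CState X) : FiniteDimensional ℂ s.V := by
  exact FiniteDimensional.span_of_finite ℂ (Set.Finite.image _ (Finset.finite_toSet _))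

theorem W_fin (s : CState X) : FiniteDimensional ℂ s.W := by
  apply FiniteDimensional.span_of_finite ℂ
  have : {x : X | ∃ c ∈ s.A, ∃ l : ℕ, l ≤ s.L c ∧ x = s.u c l} =
      ⋃ c ∈ (s.A : Set ℂ), (s.u c) '' (Set.Iic (s.L c)) := by
    ext x
    simp only [Set.mem_iUnion, Set.mem_image, Set.mem_Iic, Finset.mem_coe]
    constructor
    · rintro ⟨c, hc, l, hl, rfl⟩
      exact ⟨c, hc, l, hl, rfl⟩
    · rintro ⟨c, hc, l, hl, rfl⟩
      exact ⟨c, hc, l, hl, rfl⟩
  rw [this]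
  exact (Finset.finite_toSet s.A).biUnion fun c _ => (Set.finite_Iic _).image _

theorem mem_V (s : CState X) (c : ℂ) (hc : c ∈ s.A) : s.u c 0 ∈ s.V := by
  exact Submodule.subset_span ⟨c, hc, rfl⟩

theorem mem_W (s : CState X) (c : ℂ) (hc : c ∈ s.A) (l : ℕ) (hl : l ≤ s.L c) : s.u c l ∈ s.W := by
  exact Submodule.subset_span ⟨c, hc, l, hl, rfl⟩

/-- The node vectors of an extension with the same old node vectors span more. -/
theorem V_mono (s s' : CState X) (hA : s.A ⊆ s'.A) (hu : ∀ c ∈ s.A, s'.u c 0 = s.u c 0) :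
    s.V ≤ s'.V := by
  apply Submodule.span_mono
  rintro _ ⟨c, hc, rfl⟩
  exact ⟨c, hA hc, hu c hc⟩

theorem Sub.refl' (s : CState X) : s.Sub s := by
  exact ⟨Finset.Subset.refl _, fun _ _ => rfl, fun c hc hc' => absurd hc hc'⟩

theorem Sub.trans' (s s' s'' : CState X) (h : s.Sub s') (h' : s'.Sub s'') : s.Sub s'' := by
  refine ⟨h.A_sub.trans h'.A_sub, fun c hc => ?_, fun c hc hc' => ?_⟩
  · rw [h'.L_eq c (h.A_sub hc), h.L_eq c hc]
  · by_cases h1 : c ∈ s'.A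
    · rw [h'.L_eq c h1, h.L_new c h1 hc']
    · exact h'.L_new c hc h1

/-- The error of the partner vector is the conjugate of the error. -/
theorem res_σ {J : X → X} {σ : ℂ → ℂ} (hJ : IsSym J σ) (T : X →L[ℂ] X) (Λ : Set ℂ) (s : CState X)
    (hs : s.Inv J σ T Λ) (c : ℂ) (hc : c ∈ s.A) (l : ℕ) (hl : l < s.L c) :
    s.res (σ c) l = J (s.res c l) := by
  unfold CState.res
  rw [hs.u_σ c hc (l + 1) hl, hs.u_σ c hc l hl.le, hs.SJ, hJ.sub, hJ.sub, hJ.smul, hJ.smul]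

end Pool.Agent.Lib.MP_bb8441_an.Ch
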