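import Pool.Agent.Lib.MP_bb8441_an.Ch.CorrectUpto

/-! Correction of all chains. -/

set_option autoImplicit false

namespace Pool.Agent.Lib.MP_bb8441_an.Ch

variable {X : Type*} [NormedAddCommGroup X] [NormedSpace ℂ X]

/-- Correction of the chains over a set `B` of nodes (and over their conjugates). -/
theorem correct_set {J : X → X} {σ : ℂ → ℂ} {T : X →L[ℂ] X} {Λ : Set ℂ} {κ w : ℂ → ℝ} {w₀ : ℝ}
    (h : Ctx J σ T Λ κ w w₀) (L₀ : ℂ → ℕ) (B : Finset ℂ) (hB : ∀ c ∈ B, c ∈ Λ) (δ : ℝ)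
    (hδ : 0 < δ) :
    ∃ η : ℝ, 0 < η ∧ ∀ s : CState X, s.Inv J σ T Λ → B ⊆ s.A → (∀ c ∈ B, s.L c = L₀ c) →
      s.Err η → ∀ η' : ℝ, 0 < η' →
      ∃ s' : CState X, s'.Inv J σ T Λ ∧ s.Sub s' ∧ ‖s'.S - s.S‖ ≤ δ ∧
        (∀ b ∈ s.A, s'.u b 0 = s.u b 0) ∧
        (∀ b ∈ s.A, ∀ i, i ≤ s.L b → ‖s'.u b i - s.u b i‖ ≤ δ) ∧
        (∀ b ∈ s.A, b ∉ B → σ b ∉ B → ∀ i, i ≤ s.L b →
          s'.u b i = s.u b i ∧ s'.S (s'.u b i) = s.S (s.u b i)) ∧
        (∀ b ∈ s.A, b ∈ B ∨ σ b ∈ B → ∀ l < s.L b, ‖s'.res b l‖ < η') := by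
  classical
  revert δ
  induction B using Finset.induction_on with
  | empty =>
    intro δ hδ
    refine ⟨1, one_pos, fun s hs _ _ _ η' _ => ⟨s, hs, Sub.refl' s, ?_, fun _ _ => rfl, ?_,
      fun _ _ _ _ _ _ => ⟨rfl, rfl⟩, ?_⟩⟩
    · simpa using hδ.le
    · intro b _ i _
      simpa using hδ.le
    · intro b _ hb
      simp at hb
  | insert c B hcB ih =>
    intro δ hδ
    have ih' := ih (fun d hd => hB d (Finset.mem_insert_of_mem hd))
    by_cases hσc : σ c ∈ B
    · obtain ⟨η, hη, H⟩ := ih' δ hδ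
      refine ⟨η, hη, fun s hs hBs hL he η' hη' => ?_⟩
      obtain ⟨s', h1, h2, h3, h4, h5, h6, h7⟩ := H s hs
        (fun d hd => hBs (Finset.mem_insert_of_mem hd))
        (fun d hd => hL d (Finset.mem_insert_of_mem hd)) he η' hη'
      refine ⟨s', h1, h2, h3, h4, h5, ?_, ?_⟩
      · intro b hb hb1 hb2
        exact h6 b hb (fun hh => hb1 (Finset.mem_insert_of_mem hh))
          (fun hh => hb2 (Finset.mem_insert_of_mem hh))
      · intro b hb hb1
        apply h7 b hb
        rcases hb1 with hb1 | hb1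
        · rcases Finset.mem_insert.mp hb1 with hb1 | hb1
          · right
            rw [hb1]
            exact hσc
          · exact Or.inl hb1
        · rcases Finset.mem_insert.mp hb1 with hb1 | hb1
          · left
            have : b = σ c := by rw [← hb1, h.sym.σσ]
            rw [this]
            exact hσc
          · exact Or.inr hb1
    · have hcΛ : c ∈ Λ := hB c (Finset.mem_insert_self _ _)
      obtain ⟨η₁, hη₁, H₁⟩ := ih' (δ / 2) (by positivity)
      obtain ⟨η₂, hη₂, H₂⟩ := correct_upto h c hcΛ (L₀ c) (δ / 2) (by positivity) δ hδ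
      refine ⟨min η₁ η₂, lt_min hη₁ hη₂, fun s hs hBs hL he η' hη' => ?_⟩
      have hcA : c ∈ s.A := hBs (Finset.mem_insert_self _ _)
      have hLc : s.L c = L₀ c := hL c (Finset.mem_insert_self _ _)
      have hLσ : s.L (σ c) = L₀ c := by rw [hs.L_σ c hcA, hLc]
      have hσcA : σ c ∈ s.A := hs.A_σ c hcA
      obtain ⟨s₁, a1, a2, a3, a4, a5, a6, a7⟩ := H₁ s hs
        (fun d hd => hBs (Finset.mem_insert_of_mem hd))
        (fun d hd => hL d (Finset.mem_insert_of_mem hd))
        (fun d hd l hl => lt_of_lt_of_le (he d hd l hl) (min_le_left _ _)) η' hη'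
      have hfix : ∀ b, b = c ∨ b = σ c → ∀ i, i ≤ s.L b →
          s₁.u b i = s.u b i ∧ s₁.S (s₁.u b i) = s.S (s.u b i) := by
        intro b hb
        rcases hb with rfl | rfl
        · exact a6 b hcA hcB hσc
        · exact a6 (σ c) hσcA hσc (by rw [h.sym.σσ]; exact hcB)
      have hres : ∀ l < L₀ c, s₁.res c l = s.res c l := by
        intro l hl
        have e1 := hfix c (Or.inl rfl) (l + 1) (by omega)
        have e2 := hfix c (Or.inl rfl) l (by omega)
        unfold CState.res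
        rw [e1.2, e1.1, e2.1]
      obtain ⟨s₂, b1, b2, b3, b4, b5⟩ := H₂ s₁ a1 (a2.A_sub hcA)
        (by rw [a2.L_eq c hcA, hLc]) (fun l hl => by
          rw [hres l hl]
          exact lt_of_lt_of_le (he c hcA l (by omega)) (min_le_right _ _)) η' hη'
      refine ⟨s₂, b1, Sub.trans' s s₁ s₂ a2 b2, ?_, ?_, ?_, ?_, ?_⟩
      · calc ‖s₂.S - s.S‖ = ‖(s₂.S - s₁.S) + (s₁.S - s.S)‖ := by rw [sub_add_sub_cancel]
          _ ≤ δ / 2 + δ / 2 := (norm_add_le _ _).trans (add_le_add b3 a3)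
          _ = δ := by ring
      · intro b hb
        rw [(b4 b (a2.A_sub hb) 0 (Nat.zero_le _) (fun hh => by omega)).1, a4 b hb]
      · intro b hb i hi
        by_cases hbc : b = c ∨ b = σ c
        · rw [← (hfix b hbc i hi).1]
          refine (b5 b hbc).1 i ?_
          rcases hbc with rfl | rfl
          · omega
          · omega
        · rw [(b4 b (a2.A_sub hb) i (by rw [a2.L_eq b hb]; exact hi) (fun hh => hbc hh.1)).1]
          exact (a5 b hb i hi).trans (by linarith)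
      · intro b hb hb1 hb2 i hi
        have hb3 : b ≠ c := fun hh => hb1 (by rw [hh]; exact Finset.mem_insert_self _ _)
        have hb4 : b ≠ σ c := fun hh => hb2 (by
          rw [hh, h.sym.σσ]; exact Finset.mem_insert_self _ _)
        have e1 := b4 b (a2.A_sub hb) i (by rw [a2.L_eq b hb]; exact hi)
          (fun hh => hh.1.elim hb3 hb4)
        have e2 := a6 b hb (fun hh => hb1 (Finset.mem_insert_of_mem hh))
          (fun hh => hb2 (Finset.mem_insert_of_mem hh)) i hi
        exact ⟨e1.1.trans e2.1, e1.2.trans e2.2⟩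
      · intro b hb hb1 l hl
        by_cases hbc : b = c ∨ b = σ c
        · refine (b5 b hbc).2 l ?_
          rcases hbc with rfl | rfl
          · omega
          · omega
        · have hb2 : b ∈ B ∨ σ b ∈ B := by
            rcases hb1 with hb1 | hb1
            · rcases Finset.mem_insert.mp hb1 with hb1 | hb1
              · exact absurd (Or.inl hb1) hbc
              · exact Or.inl hb1
            · rcases Finset.mem_insert.mp hb1 with hb1 | hb1
              · exact absurd (Or.inr (by rw [← hb1, h.sym.σσ])) hbc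
              · exact Or.inr hb1
          have e1 := b4 b (a2.A_sub hb) (l + 1) (by rw [a2.L_eq b hb]; omega)
            (fun hh => hbc hh.1)
          have e2 := b4 b (a2.A_sub hb) l (by rw [a2.L_eq b hb]; omega)
            (fun hh => hbc hh.1)
          have e3 : s₂.res b l = s₁.res b l := by
            unfold CState.res
            rw [e1.2, e1.1, e2.1]
          rw [e3]
          exact a7 b hb hb2 l hl

theorem ready_of_small {J : X → X} {σ : ℂ → ℂ} {T : X →L[ℂ] X} {Λ : Set ℂ} {κ w : ℂ → ℝ} {w₀ : ℝ}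
    (h : Ctx J σ T Λ κ w w₀) (L₀ : ℂ → ℕ) (B : Finset ℂ) (hB : ∀ c ∈ B, c ∈ Λ) (ε : ℝ)
    (hε : 0 < ε) :
    ∃ η : ℝ, 0 < η ∧ ∀ s : CState X, s.Inv J σ T Λ → B ⊆ s.A → (∀ c ∈ B, s.L c = L₀ c) →
      (∀ c ∈ s.A, c ∉ B → s.L c = 0) → s.Err η → s.Ready J σ T Λ ε := by
  obtain ⟨η, hη, H⟩ := correct_set h L₀ B hB ε hε
  refine ⟨η, hη, fun s hs hBs hL h0 he η' hη' => ?_⟩
  obtain ⟨s', h1, h2, h3, h4, h5, _, h7⟩ := H s hs hBs hL he η' hη'
  refine ⟨s', h1, h2, h3, h4, h5, ?_⟩
  intro c hc l hl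
  by_cases hcA : c ∈ s.A
  · rw [h2.L_eq c hcA] at hl
    by_cases hcB : c ∈ B
    · exact h7 c hcA (Or.inl hcB) l hl
    · rw [h0 c hcA hcB] at hl
      omega
  · rw [h2.L_new c hc hcA] at hl
    omega

end Pool.Agent.Lib.MP_bb8441_an.Ch
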