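import Pool.Agent.Lib.MP_bb8441_an.Ch.Nodes

/-! Correction of one chain vector (and of its conjugate). -/

set_option autoImplicit false

namespace Pool.Agent.Lib.MP_bb8441_an.Ch

variable {X : Type*} [NormedAddCommGroup X] [NormedSpace ℂ X]

/-- Correction of the vectors number `l + 1` over `c` and over `σ c`. -/
theorem correct_one {J : X → X} {σ : ℂ → ℂ} {T : X →L[ℂ] X} {Λ : Set ℂ} {κ w : ℂ → ℝ} {w₀ : ℝ}
    (h : Ctx J σ T Λ κ w w₀) (s : CState X) (hs : s.Inv J σ T Λ) (c : ℂ) (hc : c ∈ s.A) (l : ℕ)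
    (hl : l < s.L c) (δ : ℝ) (hδ : 0 < δ) (η' : ℝ) (hη' : 0 < η') :
    ∃ s' : CState X, s'.Inv J σ T Λ ∧ s.Sub s' ∧ ‖s'.S - s.S‖ ≤ δ ∧
      (∀ b ∈ s.A, ∀ i, i ≤ s.L b → ¬ ((b = c ∨ b = σ c) ∧ i = l + 1) →
        s'.u b i = s.u b i ∧ s'.S (s'.u b i) = s.S (s.u b i)) ∧
      (∀ b, (b = c ∨ b = σ c) →
        ‖s'.u b (l + 1) - s.u b (l + 1)‖ ≤ 2 * κ c * ‖s.res c l‖ / δ ∧ ‖s'.res b l‖ < η') := by
  classical
  have hJ := h.sym
  have hcΛ : c ∈ Λ := hs.A_mem c hc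
  have hκ : 0 < κ c := h.κ_pos c hcΛ
  by_cases hr : s.res c l = 0
  · refine ⟨s, hs, Sub.refl' s, ?_, fun _ _ _ _ _ => ⟨rfl, rfl⟩, ?_⟩
    · simpa using hδ.le
    · rintro b (rfl | rfl)
      · rw [sub_self, norm_zero, hr, norm_zero]
        exact ⟨by simp, hη'⟩
      · rw [sub_self, norm_zero, res_σ hJ T Λ s hs c hc l hl, hr, hJ.zero, norm_zero]
        exact ⟨by simp, hη'⟩
  set r : X := s.res c l with hrdef
  have hr0 : 0 < ‖r‖ := norm_pos_iff.mpr hr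
  obtain ⟨s₁, hs₁, hSub, hS, hu, y, hy, hry⟩ := add_nodes h s hs r
    (min (η' / 2) (‖r‖ / 2)) (lt_min (by linarith) (by linarith))
  have hry1 : ‖r - y‖ < η' / 2 := lt_of_lt_of_le hry (min_le_left _ _)
  have hry2 : ‖r - y‖ < ‖r‖ / 2 := lt_of_lt_of_le hry (min_le_right _ _)
  have hy0 : y ≠ 0 := by
    rintro rfl
    rw [sub_zero] at hry2
    linarith
  have hyn : 0 < ‖y‖ := norm_pos_iff.mpr hy0
  have hy2 : ‖y‖ ≤ 2 * ‖r‖ := by
    have h1 : ‖y‖ ≤ ‖r‖ + ‖r - y‖ := by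
      have : y = r - (r - y) := by abel
      calc ‖y‖ = ‖r - (r - y)‖ := by rw [← this]
        _ ≤ ‖r‖ + ‖r - y‖ := norm_sub_le _ _
    linarith
  have hc₁ : c ∈ s₁.A := hSub.A_sub hc
  have hL₁ : s₁.L c = s.L c := hSub.L_eq c hc
  set q : ℝ := κ c * ‖y‖ / δ with hq
  have hq0 : 0 < q := by positivity
  have hqc : (q : ℂ) ≠ 0 := by exact_mod_cast hq0.ne'
  obtain ⟨v, K, hv1, hv2, hKW, hKv, hKV, hKn, hKJ⟩ := h.key s₁.S s₁.V s₁.W (V_fin s₁) (W_fin s₁)
    hs₁.range hs₁.SJ (V_J hJ T Λ s₁ hs₁) (W_J hJ T Λ s₁ hs₁) c hcΛ y hy (η' / (2 * q))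
    (by positivity)
  -- the new operator
  set S' : X →L[ℂ] X := s₁.S - ((q⁻¹ : ℝ) : ℂ) • K with hS'
  have hS'x : ∀ x, S' x = s₁.S x - ((q⁻¹ : ℝ) : ℂ) • K x := fun x => rfl
  have hS'W : ∀ x ∈ s₁.W, S' x = s₁.S x := fun x hx => by
    rw [hS'x, hKW x hx, smul_zero, sub_zero]
  have hS'n : ‖S' - s₁.S‖ ≤ δ := by
    have h1 : S' - s₁.S = -(((q⁻¹ : ℝ) : ℂ) • K) := by rw [hS']; abel
    rw [h1, norm_neg, norm_smul, Complex.norm_real, Real.norm_eq_abs,
      abs_of_pos (inv_pos.mpr hq0)]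
    calc q⁻¹ * ‖K‖ ≤ q⁻¹ * (κ c * ‖y‖) := mul_le_mul_of_nonneg_left hKn (by positivity)
      _ = δ := by rw [hq]; field_simp
      _ ≤ δ := le_refl _
  -- the new vectors
  set v' : X := s₁.u c (l + 1) + (q : ℂ) • v with hv'
  have hfix : σ c = c → J v' = v' := fun h1 => h.fix c hcΛ h1 v'
  set u' : ℂ → ℕ → X := fun b i =>
    if i = l + 1 then (if b = c then v' else if b = σ c then J v' else s₁.u b i) else s₁.u b i
    with hu'
  have hu1 : u' c (l + 1) = v' := by simp [hu']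
  have hu1' : u' (σ c) (l + 1) = J v' := by
    by_cases h1 : σ c = c
    · rw [hfix h1, h1, hu1]
    · simp [hu', h1]
  have hu2 : ∀ b i, i ≠ l + 1 → u' b i = s₁.u b i := fun b i hi => by simp [hu', hi]
  have hu3 : ∀ b i, b ≠ c → b ≠ σ c → u' b i = s₁.u b i := fun b i hb hb' => by
    simp only [hu', if_neg hb, if_neg hb', ite_self]
  set s' : CState X := ⟨S', u', s₁.A, s₁.L⟩ with hs'
  have hV : s'.V = s₁.V := by
    have : (fun c => s'.u c 0) = fun c => s₁.u c 0 := by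
      funext b
      exact hu2 b 0 (Nat.succ_ne_zero l).symm
    show Submodule.span ℂ ((fun c => s'.u c 0) '' (s₁.A : Set ℂ)) = _
    rw [this]
    rfl
  have hInv : s'.Inv J σ T Λ := by
    refine ⟨hs₁.A_mem, ?_, ?_, ?_, hs₁.A_σ, hs₁.L_σ, ?_⟩
    · intro b hb
      show S' (u' b 0) = b • u' b 0
      rw [hu2 b 0 (Nat.succ_ne_zero l).symm, hS'W _ (mem_W s₁ b hb 0 (Nat.zero_le _)),
        hs₁.eig b hb]
    · intro x
      rw [hV]
      show S' x - T x ∈ s₁.V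
      rw [hS'x]
      have : s₁.S x - ((q⁻¹ : ℝ) : ℂ) • K x - T x
          = (s₁.S x - T x) - ((q⁻¹ : ℝ) : ℂ) • K x := by abel
      rw [this]
      exact Submodule.sub_mem _ (hs₁.range x) (Submodule.smul_mem _ _ (hKV x))
    · intro x
      show S' (J x) = J (S' x)
      rw [hS'x, hS'x, hJ.sub, hJ.smul_real, hs₁.SJ, hKJ]
    · intro b hb i hi
      show u' (σ b) i = J (u' b i)
      have hold : s₁.u (σ b) i = J (s₁.u b i) := hs₁.u_σ b hb i hi
      by_cases hi1 : i = l + 1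
      · subst hi1
        by_cases hbc : b = c
        · rw [hbc, hu1, hu1']
        · by_cases hbc' : b = σ c
          · rw [hbc', hJ.σσ, hu1, hu1', hJ.invol]
          · have h1 : σ b ≠ c := by
              intro h2
              apply hbc'
              rw [← h2, hJ.σσ]
            have h2 : σ b ≠ σ c := by
              intro h3
              apply hbc
              have := congrArg σ h3
              rwa [hJ.σσ, hJ.σσ] at this
            rw [hu3 _ _ h1 h2, hu3 _ _ hbc hbc', hold]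
      · rw [hu2 _ _ hi1, hu2 _ _ hi1, hold]
  have hresc : s'.res c l = (r - y) + (q : ℂ) • (s₁.S v - c • v) := by
    have h1 : s₁.S (s₁.u c (l + 1)) - c • s₁.u c (l + 1) - c • s₁.u c l = r := by
      rw [hrdef, hS, hu c hc]
      rfl
    have h2 : S' (s₁.u c (l + 1)) = s₁.S (s₁.u c (l + 1)) :=
      hS'W _ (mem_W s₁ c hc₁ (l + 1) (by omega))
    show S' (u' c (l + 1)) - c • u' c (l + 1) - c • u' c l = _
    rw [hu1, hu2 c l (by omega), hv', map_add, h2, map_smul, hS'x, hKv, smul_sub (q : ℂ),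
      smul_smul (q : ℂ), ← Complex.ofReal_mul, mul_inv_cancel₀ hq0.ne', Complex.ofReal_one,
      one_smul, ← h1, smul_add, smul_sub, smul_comm c (q : ℂ) v]
    abel
  have hresn : ‖s'.res c l‖ < η' := by
    rw [hresc]
    calc ‖(r - y) + (q : ℂ) • (s₁.S v - c • v)‖ ≤ ‖r - y‖ + ‖(q : ℂ) • (s₁.S v - c • v)‖ :=
          norm_add_le _ _
      _ = ‖r - y‖ + q * ‖s₁.S v - c • v‖ := by
          rw [norm_smul, Complex.norm_real, Real.norm_eq_abs, abs_of_pos hq0]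
      _ < η' / 2 + q * (η' / (2 * q)) := by
          have := mul_lt_mul_of_pos_left hv2 hq0
          linarith
      _ = η' := by field_simp; ring
  have hdiff : ‖v' - s.u c (l + 1)‖ ≤ 2 * κ c * ‖r‖ / δ := by
    rw [hv', hu c hc, add_sub_cancel_left, norm_smul, hv1, mul_one, Complex.norm_real,
      Real.norm_eq_abs, abs_of_pos hq0, hq]
    apply div_le_div_of_nonneg_right _ hδ.le
    nlinarith
  refine ⟨s', hInv, ⟨hSub.A_sub, hSub.L_eq, hSub.L_new⟩, ?_, ?_, ?_⟩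
  · show ‖S' - s.S‖ ≤ δ
    rw [← hS]
    exact hS'n
  · intro b hb i hi hne
    have hui : u' b i = s₁.u b i := by
      by_cases hi1 : i = l + 1
      · have h1 : b ≠ c := fun h2 => hne ⟨Or.inl h2, hi1⟩
        have h2 : b ≠ σ c := fun h2 => hne ⟨Or.inr h2, hi1⟩
        exact hu3 b i h1 h2
      · exact hu2 b i hi1
    have hW : s₁.u b i ∈ s₁.W :=
      mem_W s₁ b (hSub.A_sub hb) i (by rw [hSub.L_eq b hb]; exact hi)
    refine ⟨?_, ?_⟩
    · show u' b i = s.u b i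
      rw [hui, hu b hb]
    · show S' (u' b i) = s.S (s.u b i)
      rw [hui, hS'W _ hW, hS, hu b hb]
  · rintro b (rfl | rfl)
    · exact ⟨by show ‖u' b (l + 1) - s.u b (l + 1)‖ ≤ _; rw [hu1]; exact hdiff, hresn⟩
    · refine ⟨?_, ?_⟩
      · show ‖u' (σ c) (l + 1) - s.u (σ c) (l + 1)‖ ≤ _
        rw [hu1', hs.u_σ c hc (l + 1) (by omega), ← hJ.sub, hJ.norm]
        exact hdiff
      · rw [res_σ hJ T Λ s' hInv c hc₁ l (by show l < s₁.L c; omega), hJ.norm]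
        exact hresn

end Pool.Agent.Lib.MP_bb8441_an.Ch
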