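import Pool.Agent.Lib.MP_bb8441_an.Ch.CorrectOne

/-! Correction of the first vectors of one chain. -/

set_option autoImplicit false

namespace Pool.Agent.Lib.MP_bb8441_an.Ch

variable {X : Type*} [NormedAddCommGroup X] [NormedSpace ℂ X]

/-- Correction of the vectors number `1, ..., j` over `c` (and over `σ c`). -/
theorem correct_upto {J : X → X} {σ : ℂ → ℂ} {T : X →L[ℂ] X} {Λ : Set ℂ} {κ w : ℂ → ℝ} {w₀ : ℝ}
    (h : Ctx J σ T Λ κ w w₀) (c : ℂ) (hc : c ∈ Λ) (j : ℕ) (δ : ℝ) (hδ : 0 < δ) (ρ : ℝ)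
    (hρ : 0 < ρ) :
    ∃ η : ℝ, 0 < η ∧ ∀ s : CState X, s.Inv J σ T Λ → c ∈ s.A → j ≤ s.L c →
      (∀ l < j, ‖s.res c l‖ < η) → ∀ η' : ℝ, 0 < η' →
      ∃ s' : CState X, s'.Inv J σ T Λ ∧ s.Sub s' ∧ ‖s'.S - s.S‖ ≤ δ ∧
        (∀ b ∈ s.A, ∀ i, i ≤ s.L b → ¬ ((b = c ∨ b = σ c) ∧ 1 ≤ i ∧ i ≤ j) →
          s'.u b i = s.u b i ∧ s'.S (s'.u b i) = s.S (s.u b i)) ∧
        (∀ b, (b = c ∨ b = σ c) → (∀ i, i ≤ j → ‖s'.u b i - s.u b i‖ ≤ ρ) ∧
          ∀ l < j, ‖s'.res b l‖ < η') := by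
  induction j generalizing δ ρ with
  | zero =>
    refine ⟨1, one_pos, fun s hs hcA _ _ η' hη' => ?_⟩
    refine ⟨s, hs, Sub.refl' s, by simpa using hδ.le, fun _ _ _ _ _ => ⟨rfl, rfl⟩, fun b _ => ?_⟩
    refine ⟨fun i hi => ?_, fun l hl => absurd hl (Nat.not_lt_zero l)⟩
    simpa using hρ.le
  | succ j ih =>
    have hκ := h.κ_pos c hc
    have hcn : ‖c‖ = 1 := h.Λ_norm c hc
    set ρ₁ : ℝ := min ρ (ρ * δ / (8 * κ c)) with hρ₁
    have hρ₁0 : 0 < ρ₁ := lt_min hρ (by positivity)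
    obtain ⟨η, hη, hih⟩ := ih (δ / 2) (by positivity) ρ₁ hρ₁0
    set η₀ : ℝ := min η (ρ * δ / (8 * κ c)) with hη₀
    have hη₀0 : 0 < η₀ := lt_min hη (by positivity)
    refine ⟨η₀, hη₀0, fun s hs hcA hjL hres η' hη' => ?_⟩
    obtain ⟨s₁, hs₁, hsub₁, hS₁, hun₁, hch₁⟩ := hih s hs hcA (by omega)
      (fun l hl => (hres l (by omega)).trans_le (min_le_left _ _)) η' hη'
    have hcA₁ : c ∈ s₁.A := hsub₁.A_sub hcA
    have hL₁ : s₁.L c = s.L c := hsub₁.L_eq c hcA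
    obtain ⟨s₂, hs₂, hsub₂, hS₂, hun₂, hch₂⟩ := correct_one h s₁ hs₁ c hcA₁ j (by omega) (δ / 2)
      (by positivity) η' hη'
    have hσA : σ c ∈ s.A := hs.A_σ c hcA
    have hbA : ∀ b, (b = c ∨ b = σ c) → b ∈ s.A := by
      rintro b (rfl | rfl)
      · exact hcA
      · exact hσA
    have hbL : ∀ b, (b = c ∨ b = σ c) → s.L b = s.L c := by
      rintro b (rfl | rfl)
      · rfl
      · exact hs.L_σ c hcA
    -- the residual number `j` over `c` in `s₁`
    have hr1 : ‖s₁.res c j‖ ≤ η₀ + ρ₁ := by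
      have h1 := hun₁ c hcA (j + 1) hjL (by omega)
      have h2 : ‖s₁.u c j - s.u c j‖ ≤ ρ₁ := (hch₁ c (Or.inl rfl)).1 j le_rfl
      have h3 : s₁.res c j = s.res c j - c • (s₁.u c j - s.u c j) := by
        unfold CState.res
        rw [h1.2, h1.1, smul_sub]
        abel
      rw [h3]
      calc ‖s.res c j - c • (s₁.u c j - s.u c j)‖ ≤ ‖s.res c j‖ + ‖c • (s₁.u c j - s.u c j)‖ :=
            norm_sub_le _ _
        _ ≤ η₀ + ρ₁ := by
            rw [norm_smul, hcn, one_mul]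
            exact add_le_add (hres j (by omega)).le h2
    have hmove : 2 * κ c * ‖s₁.res c j‖ / (δ / 2) ≤ ρ := by
      have h1 : η₀ ≤ ρ * δ / (8 * κ c) := min_le_right _ _
      have h2 : ρ₁ ≤ ρ * δ / (8 * κ c) := min_le_right _ _
      have h3 : ‖s₁.res c j‖ ≤ ρ * δ / (4 * κ c) := by
        have : ρ * δ / (8 * κ c) + ρ * δ / (8 * κ c) = ρ * δ / (4 * κ c) := by
          field_simp; ring
        linarith
      rw [div_le_iff₀ (by positivity)]
      calc 2 * κ c * ‖s₁.res c j‖ ≤ 2 * κ c * (ρ * δ / (4 * κ c)) := by gcongr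
        _ = ρ * (δ / 2) := by field_simp; ring
    refine ⟨s₂, hs₂, Sub.trans' _ _ _ hsub₁ hsub₂, ?_, ?_, ?_⟩
    · calc ‖s₂.S - s.S‖ = ‖(s₂.S - s₁.S) + (s₁.S - s.S)‖ := by rw [sub_add_sub_cancel]
        _ ≤ ‖s₂.S - s₁.S‖ + ‖s₁.S - s.S‖ := norm_add_le _ _
        _ ≤ δ / 2 + δ / 2 := add_le_add hS₂ hS₁
        _ = δ := by ring
    · intro b hb i hi hnot
      have h1 := hun₁ b hb i hi (fun hh => hnot ⟨hh.1, hh.2.1, by omega⟩)
      have h2 := hun₂ b (hsub₁.A_sub hb) i (by rw [hsub₁.L_eq b hb]; exact hi)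
        (fun hh => hnot ⟨hh.1, by omega, by omega⟩)
      exact ⟨h2.1.trans h1.1, h2.2.trans h1.2⟩
    · intro b hb
      have hbA' := hbA b hb
      have hbL' := hbL b hb
      have hb₁ : b ∈ s₁.A := hsub₁.A_sub hbA'
      have hLb : s₁.L b = s.L c := by rw [hsub₁.L_eq b hbA', hbL']
      refine ⟨fun i hi => ?_, fun l hl => ?_⟩
      · rcases Nat.lt_or_ge i (j + 1) with hij | hij
        · have h2 := hun₂ b hb₁ i (by omega) (fun hh => by omega)
          rw [h2.1]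
          exact ((hch₁ b hb).1 i (by omega)).trans (min_le_left _ _)
        · have hij' : i = j + 1 := by omega
          subst hij'
          have h1 := hun₁ b hbA' (j + 1) (by omega) (by omega)
          rw [← h1.1]
          exact ((hch₂ b hb).1).trans hmove
      · rcases Nat.lt_or_ge l j with hlj | hlj
        · have h2 := hun₂ b hb₁ (l + 1) (by omega) (fun hh => by omega)
          have h3 := hun₂ b hb₁ l (by omega) (fun hh => by omega)
          have h4 : s₂.res b l = s₁.res b l := by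
            unfold CState.res
            rw [h2.2, h2.1, h3.1]
          rw [h4]
          exact (hch₁ b hb).2 l hlj
        · have hlj' : l = j := by omega
          subst hlj'
          exact (hch₂ b hb).2

end Pool.Agent.Lib.MP_bb8441_an.Ch
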