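import Pool.Agent.Lib.MP_bb8441_an.Defs

/-!
Definitions for the chain construction: a chaotic operator `T` is perturbed in such a way that
every node `u c 0` (an eigenvector for a root of unity `c`) is the beginning of an infinite chain
`(S - c) (u c (l + 1)) = c • u c l` of generalised eigenvectors.

Everything is done for a space with a symmetry `J` (the identity, or a conjugation).
-/

set_option autoImplicit false

namespace Pool.Agent.Lib.MP_bb8441_an.Ch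

variable {X : Type*} [NormedAddCommGroup X] [NormedSpace ℂ X]

/-- A symmetry: the identity (`σ = id`) or a conjugation (`σ` the complex conjugation). -/
structure IsSym (J : X → X) (σ : ℂ → ℂ) : Prop where
  dich : (∀ x, J x = x) ∨ ∀ x, J (Complex.I • x) = -(Complex.I • J x)
  add : ∀ x y, J (x + y) = J x + J y
  smul : ∀ (c : ℂ) (x : X), J (c • x) = σ c • J x
  invol : ∀ x, J (J x) = x
  norm : ∀ x, ‖J x‖ = ‖x‖
  σσ : ∀ c, σ (σ c) = c
  σ_norm : ∀ c, ‖σ c‖ = ‖c‖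
  σ_real : ∀ r : ℝ, σ (r : ℂ) = r

/-- The data of one stage of the construction. `A`: nodes. `u c 0` is the node vector, `u c 1`, ...,
`u c (L c)` is the chain over it (approximate generalised eigenvectors). -/
structure CState (X : Type*) [NormedAddCommGroup X] [NormedSpace ℂ X] where
  S : X →L[ℂ] X
  u : ℂ → ℕ → X
  A : Finset ℂ
  L : ℂ → ℕ

/-- The span of the node vectors. -/
def CState.V (s : CState X) : Submodule ℂ X :=
  Submodule.span ℂ ((fun c => s.u c 0) '' (s.A : Set ℂ))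

/-- The span of all vectors of the stage. -/
def CState.W (s : CState X) : Submodule ℂ X :=
  Submodule.span ℂ {x : X | ∃ c ∈ s.A, ∃ l : ℕ, l ≤ s.L c ∧ x = s.u c l}

/-- The error of the vector number `l + 1` of the chain over `c`. -/
def CState.res (s : CState X) (c : ℂ) (l : ℕ) : X :=
  s.S (s.u c (l + 1)) - c • s.u c (l + 1) - c • s.u c l

/-- All errors are less than `η`. -/
def CState.Err (s : CState X) (η : ℝ) : Prop :=
  ∀ c ∈ s.A, ∀ l < s.L c, ‖s.res c l‖ < η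

/-- The invariants of a stage. -/
structure CState.Inv (J : X → X) (σ : ℂ → ℂ) (T : X →L[ℂ] X) (Λ : Set ℂ) (s : CState X) :
    Prop where
  A_mem : ∀ c ∈ s.A, c ∈ Λ
  eig : ∀ c ∈ s.A, s.S (s.u c 0) = c • s.u c 0
  range : ∀ x, s.S x - T x ∈ s.V
  SJ : ∀ x, s.S (J x) = J (s.S x)
  A_σ : ∀ c ∈ s.A, σ c ∈ s.A
  L_σ : ∀ c ∈ s.A, s.L (σ c) = s.L c
  u_σ : ∀ c ∈ s.A, ∀ l, l ≤ s.L c → s.u (σ c) l = J (s.u c l)

/-- The nodes of `s` are nodes of `s'` with the same chain lengths; the new nodes have empty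
chains. -/
structure CState.Sub (s s' : CState X) : Prop where
  A_sub : s.A ⊆ s'.A
  L_eq : ∀ c ∈ s.A, s'.L c = s.L c
  L_new : ∀ c ∈ s'.A, c ∉ s.A → s'.L c = 0

/-- The key property: for `c ∈ Λ`, a target `y` in the span `V` of the nodes and a finite
dimensional space `W` there are an almost eigenvector `v` for `c` and an operator `K` of norm at
most `κ c * ‖y‖`, which vanishes on `W`, has range in `V`, and with `K v = y`. -/
def HasKey (J : X → X) (T : X →L[ℂ] X) (Λ : Set ℂ) (κ : ℂ → ℝ) : Prop :=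
  ∀ (S : X →L[ℂ] X) (V W : Submodule ℂ X), FiniteDimensional ℂ V → FiniteDimensional ℂ W →
    (∀ x, S x - T x ∈ V) → (∀ x, S (J x) = J (S x)) → (∀ x ∈ V, J x ∈ V) → (∀ x ∈ W, J x ∈ W) →
    ∀ c ∈ Λ, ∀ y ∈ V, ∀ η : ℝ, 0 < η →
      ∃ (v : X) (K : X →L[ℂ] X), ‖v‖ = 1 ∧ ‖S v - c • v‖ < η ∧ (∀ x ∈ W, K x = 0) ∧ K v = y ∧
        (∀ x, K x ∈ V) ∧ ‖K‖ ≤ κ c * ‖y‖ ∧ ∀ x, K (J x) = J (K x)

/-- The hypotheses of the construction. -/
structure Ctx (J : X → X) (σ : ℂ → ℂ) (T : X →L[ℂ] X) (Λ : Set ℂ) (κ w : ℂ → ℝ) (w₀ : ℝ) :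
    Prop where
  sym : IsSym J σ
  TJ : ∀ x, T (J x) = J (T x)
  H1 : ∀ c : ℂ, DenseRange fun x => T x - c • x
  H2 : Dense (Submodule.span ℂ {x : X | ∃ c ∈ Λ, T x = c • x} : Set X)
  Λ_norm : ∀ c ∈ Λ, ‖c‖ = 1
  Λ_σ : ∀ c ∈ Λ, σ c ∈ Λ
  fix : ∀ c ∈ Λ, σ c = c → ∀ x, J x = x
  κ_pos : ∀ c ∈ Λ, 0 < κ c
  κ_σ : ∀ c ∈ Λ, κ (σ c) = κ c
  w_pos : ∀ c ∈ Λ, 0 < w c
  w_σ : ∀ c ∈ Λ, w (σ c) = w c
  w_sum : ∀ F : Finset ℂ, (∀ c ∈ F, c ∈ Λ) → ∑ c ∈ F, w c ≤ w₀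
  key : HasKey J T Λ κ

/-- The errors of `s` are so small that they can be made arbitrarily small by a perturbation of size
`ε` which moves no vector by more than `ε` (and no node vector at all). -/
def CState.Ready (J : X → X) (σ : ℂ → ℂ) (T : X →L[ℂ] X) (Λ : Set ℂ) (s : CState X) (ε : ℝ) :
    Prop :=
  ∀ η : ℝ, 0 < η → ∃ s' : CState X, s'.Inv J σ T Λ ∧ s.Sub s' ∧ ‖s'.S - s.S‖ ≤ ε ∧
    (∀ c ∈ s.A, s'.u c 0 = s.u c 0) ∧ (∀ c ∈ s.A, ∀ l, l ≤ s.L c → ‖s'.u c l - s.u c l‖ ≤ ε) ∧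
    s'.Err η

end Pool.Agent.Lib.MP_bb8441_an.Ch
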