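import Pool.Agent.Lib.MP_bb8441_an.Ch.ExtendOne

/-! One more vector in the chains over a set of nodes. -/

set_option autoImplicit false

namespace Pool.Agent.Lib.MP_bb8441_an.Ch

variable {X : Type*} [NormedAddCommGroup X] [NormedSpace ℂ X]

theorem c27_aux {J : X → X} {σ : ℂ → ℂ} {T : X →L[ℂ] X} {Λ : Set ℂ} {κ w : ℂ → ℝ} {w₀ : ℝ}
    (h : Ctx J σ T Λ κ w w₀) (s : CState X) (hs : s.Inv J σ T Λ) (η' : ℝ) (hη' : 0 < η') (n : ℕ) :
    ∀ B : Finset ℂ, B.card ≤ n → B ⊆ s.A → (∀ c ∈ B, σ c ∈ B) →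
    ∃ s' : CState X, s'.Inv J σ T Λ ∧ s.A ⊆ s'.A ∧
      (∀ b ∈ s.A, b ∉ B → s'.L b = s.L b) ∧ (∀ b ∈ B, s'.L b = s.L b + 1) ∧
      (∀ b ∈ s'.A, b ∉ s.A → s'.L b = 0) ∧
      (∀ b ∈ s.A, ∀ i, i ≤ s.L b → s'.u b i = s.u b i ∧ s'.S (s'.u b i) = s.S (s.u b i)) ∧
      ‖s'.S - s.S‖ ≤ ∑ c ∈ B, w c / ((s.L c : ℝ) + 1) ^ 2 ∧
      (∀ b ∈ B,
        ‖s'.u b (s.L b + 1)‖ ≤ κ b * (‖s.u b (s.L b)‖ + 1) * ((s.L b : ℝ) + 1) ^ 2 / w b ∧
        ‖s'.res b (s.L b)‖ < η') := by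
  classical
  induction n with
  | zero =>
    intro B hcard _ _
    have hB : B = ∅ := Finset.card_eq_zero.mp (Nat.le_zero.mp hcard)
    subst hB
    refine ⟨s, hs, Finset.Subset.refl _, fun b _ _ => rfl, fun b hb => absurd hb (by simp),
      fun b hb hb' => absurd hb hb', fun b _ i _ => ⟨rfl, rfl⟩, ?_, fun b hb => absurd hb (by simp)⟩
    simp
  | succ n ih =>
    intro B hcard hB hBσ
    rcases B.eq_empty_or_nonempty with hB0 | ⟨c, hc⟩
    · subst hB0
      exact ih ∅ (by simp) (by simp) (by simp)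
    · set B₁ : Finset ℂ := (B.erase c).erase (σ c) with hB₁
      have hsub : B₁ ⊆ B := (Finset.erase_subset _ _).trans (Finset.erase_subset _ _)
      have hcB₁ : c ∉ B₁ := by
        intro hc1
        exact (Finset.notMem_erase c B) (Finset.mem_of_mem_erase hc1)
      have hσcB₁ : σ c ∉ B₁ := Finset.notMem_erase _ _
      have hcard₁ : B₁.card ≤ n := by
        have h1 : B₁.card ≤ (B.erase c).card := Finset.card_le_card (Finset.erase_subset _ _)
        have h2 : (B.erase c).card = B.card - 1 := Finset.card_erase_of_mem hc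
        omega
      have hmem₁ : ∀ b ∈ B, b ≠ c → b ≠ σ c → b ∈ B₁ := by
        intro b hb h1 h2
        exact Finset.mem_erase.mpr ⟨h2, Finset.mem_erase.mpr ⟨h1, hb⟩⟩
      have hB₁σ : ∀ b ∈ B₁, σ b ∈ B₁ := by
        intro b hb
        have hbσ : b ≠ σ c := (Finset.mem_erase.mp hb).1
        have hbc : b ≠ c := (Finset.mem_erase.mp (Finset.mem_erase.mp hb).2).1
        refine hmem₁ _ (hBσ b (hsub hb)) ?_ ?_
        · intro h1
          exact hbσ (by rw [← h1, h.sym.σσ])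
        · intro h1
          apply hbc
          have := congrArg σ h1
          rwa [h.sym.σσ, h.sym.σσ] at this
      obtain ⟨s₁, hs₁, hA₁, hL₁, hLB₁, hLn₁, hu₁, hS₁, hb₁⟩ :=
        ih B₁ hcard₁ (hsub.trans hB) hB₁σ
      have hcA : c ∈ s.A := hB hc
      have hcΛ : c ∈ Λ := hs.A_mem c hcA
      have hLc : s₁.L c = s.L c := hL₁ c hcA hcB₁
      obtain ⟨s', hs', hA', hL', hLB', hLn', hu', hS', hb'⟩ :=
        extend_one h s₁ hs₁ c (hA₁ hcA) η' hη'
      have hσA : σ c ∈ s.A := hs.A_σ c hcA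
      have hLσ : s.L (σ c) = s.L c := hs.L_σ c hcA
      have hLle : ∀ b ∈ s.A, s.L b ≤ s₁.L b := by
        intro b hb
        by_cases hb1 : b ∈ B₁
        · rw [hLB₁ b hb1]; omega
        · rw [hL₁ b hb hb1]
      refine ⟨s', hs', hA₁.trans hA', ?_, ?_, ?_, ?_, ?_, ?_⟩
      · intro b hb hbB
        have h1 : b ≠ c := fun h => hbB (h ▸ hc)
        have h2 : b ≠ σ c := fun h => hbB (h ▸ hBσ c hc)
        rw [hL' b (hA₁ hb) h1 h2, hL₁ b hb (fun h => hbB (hsub h))]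
      · intro b hb
        by_cases h1 : b = c ∨ b = σ c
        · rw [hLB' b h1, hLc]
          rcases h1 with h1 | h1
          · rw [h1]
          · rw [h1, hLσ]
        · push Not at h1
          rw [hL' b (hA₁ (hB hb)) h1.1 h1.2, hLB₁ b (hmem₁ b hb h1.1 h1.2)]
      · intro b hb hbs
        by_cases hb1 : b ∈ s₁.A
        · have h1 : b ≠ c := fun h => hbs (h ▸ hcA)
          have h2 : b ≠ σ c := fun h => hbs (h ▸ hσA)
          rw [hL' b hb1 h1 h2, hLn₁ b hb1 hbs]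
        · exact hLn' b hb hb1
      · intro b hb i hi
        obtain ⟨h1, h2⟩ := hu₁ b hb i hi
        obtain ⟨h3, h4⟩ := hu' b (hA₁ hb) i (hi.trans (hLle b hb))
        exact ⟨h3.trans h1, h4.trans h2⟩
      · have h1 : ‖s'.S - s.S‖ ≤ ‖s'.S - s₁.S‖ + ‖s₁.S - s.S‖ := by
          have : s'.S - s.S = (s'.S - s₁.S) + (s₁.S - s.S) := by abel
          rw [this]
          exact norm_add_le _ _
        have h2 : ∑ b ∈ insert c B₁, w b / ((s.L b : ℝ) + 1) ^ 2
            ≤ ∑ b ∈ B, w b / ((s.L b : ℝ) + 1) ^ 2 := by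
          apply Finset.sum_le_sum_of_subset_of_nonneg
          · intro b hb
            rcases Finset.mem_insert.mp hb with h | h
            · exact h ▸ hc
            · exact hsub h
          · intro b hb _
            have := h.w_pos b (hs.A_mem b (hB hb))
            positivity
        rw [Finset.sum_insert hcB₁] at h2
        rw [hLc] at hS'
        linarith
      · intro b hb
        by_cases h1 : b = c ∨ b = σ c
        · obtain ⟨h2, h3⟩ := hb' b h1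
          rw [hLc] at h2 h3
          rw [(hu₁ c hcA (s.L c) le_rfl).1] at h2
          rcases h1 with h1 | h1
          · subst h1
            exact ⟨h2, h3⟩
          · subst h1
            rw [hLσ, h.κ_σ c hcΛ, h.w_σ c hcΛ, hs.u_σ c hcA (s.L c) le_rfl, h.sym.norm]
            exact ⟨h2, h3⟩
        · push Not at h1
          have hb1 := hmem₁ b hb h1.1 h1.2
          obtain ⟨h2, h3⟩ := hb₁ b hb1
          have hbA := hB hb
          have hLb : s₁.L b = s.L b + 1 := hLB₁ b hb1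
          obtain ⟨h4, h5⟩ := hu' b (hA₁ hbA) (s.L b + 1) (by omega)
          obtain ⟨h6, _⟩ := hu' b (hA₁ hbA) (s.L b) (by omega)
          refine ⟨by rw [h4]; exact h2, ?_⟩
          have : s'.res b (s.L b) = s₁.res b (s.L b) := by
            unfold CState.res
            rw [h5, h4, h6]
          rw [this]
          exact h3

theorem extend_all {J : X → X} {σ : ℂ → ℂ} {T : X →L[ℂ] X} {Λ : Set ℂ} {κ w : ℂ → ℝ} {w₀ : ℝ}
    (h : Ctx J σ T Λ κ w w₀) (s : CState X) (hs : s.Inv J σ T Λ) (B : Finset ℂ) (hB : B ⊆ s.A)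
    (hBσ : ∀ c ∈ B, σ c ∈ B) (η' : ℝ) (hη' : 0 < η') :
    ∃ s' : CState X, s'.Inv J σ T Λ ∧ s.A ⊆ s'.A ∧
      (∀ b ∈ s.A, b ∉ B → s'.L b = s.L b) ∧ (∀ b ∈ B, s'.L b = s.L b + 1) ∧
      (∀ b ∈ s'.A, b ∉ s.A → s'.L b = 0) ∧
      (∀ b ∈ s.A, ∀ i, i ≤ s.L b → s'.u b i = s.u b i ∧ s'.S (s'.u b i) = s.S (s.u b i)) ∧
      ‖s'.S - s.S‖ ≤ ∑ c ∈ B, w c / ((s.L c : ℝ) + 1) ^ 2 ∧
      (∀ b ∈ B,
        ‖s'.u b (s.L b + 1)‖ ≤ κ b * (‖s.u b (s.L b)‖ + 1) * ((s.L b : ℝ) + 1) ^ 2 / w b ∧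
        ‖s'.res b (s.L b)‖ < η') :=
  c27_aux h s hs η' hη' B.card B le_rfl hB hBσ

end Pool.Agent.Lib.MP_bb8441_an.Ch
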