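import Pool.Agent.Lib.MP_bb8441_an.Ch.Nodes

/-! One more vector in the chain over `c` (and over `σ c`). -/

set_option autoImplicit false

namespace Pool.Agent.Lib.MP_bb8441_an.Ch

variable {X : Type*} [NormedAddCommGroup X] [NormedSpace ℂ X]

theorem extend_one {J : X → X} {σ : ℂ → ℂ} {T : X →L[ℂ] X} {Λ : Set ℂ} {κ w : ℂ → ℝ} {w₀ : ℝ}
    (h : Ctx J σ T Λ κ w w₀) (s : CState X) (hs : s.Inv J σ T Λ) (c : ℂ) (hc : c ∈ s.A)
    (η' : ℝ) (hη' : 0 < η') :
    ∃ s' : CState X, s'.Inv J σ T Λ ∧ s.A ⊆ s'.A ∧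
      (∀ b ∈ s.A, b ≠ c → b ≠ σ c → s'.L b = s.L b) ∧
      (∀ b, (b = c ∨ b = σ c) → s'.L b = s.L c + 1) ∧
      (∀ b ∈ s'.A, b ∉ s.A → s'.L b = 0) ∧
      (∀ b ∈ s.A, ∀ i, i ≤ s.L b → s'.u b i = s.u b i ∧ s'.S (s'.u b i) = s.S (s.u b i)) ∧
      ‖s'.S - s.S‖ ≤ w c / ((s.L c : ℝ) + 1) ^ 2 ∧
      (∀ b, (b = c ∨ b = σ c) →
        ‖s'.u b (s.L c + 1)‖ ≤ κ c * (‖s.u c (s.L c)‖ + 1) * ((s.L c : ℝ) + 1) ^ 2 / w c ∧
        ‖s'.res b (s.L c)‖ < η') := by
  classical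
  have hcΛ : c ∈ Λ := hs.A_mem c hc
  have hσcA : σ c ∈ s.A := hs.A_σ c hc
  have hc1 : ‖c‖ = 1 := h.Λ_norm c hcΛ
  have hw : 0 < w c := h.w_pos c hcΛ
  have hκ : 0 < κ c := h.κ_pos c hcΛ
  set m : ℕ := s.L c with hm
  obtain ⟨s₁, hs₁, hsub, hS, hu, y, hy, hxy⟩ := add_nodes h s hs (c • s.u c m) (min (η' / 2) 1)
    (lt_min (by positivity) one_pos)
  have hxy1 : ‖c • s.u c m - y‖ < η' / 2 := lt_of_lt_of_le hxy (min_le_left _ _)
  have hxy2 : ‖c • s.u c m - y‖ < 1 := lt_of_lt_of_le hxy (min_le_right _ _)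
  have hyn : ‖y‖ ≤ ‖s.u c m‖ + 1 := by
    have h1 : ‖y‖ ≤ ‖c • s.u c m‖ + ‖c • s.u c m - y‖ := by
      have : y = c • s.u c m - (c • s.u c m - y) := by abel
      calc ‖y‖ = ‖c • s.u c m - (c • s.u c m - y)‖ := by rw [← this]
        _ ≤ ‖c • s.u c m‖ + ‖c • s.u c m - y‖ := norm_sub_le _ _
    rw [norm_smul, hc1, one_mul] at h1
    linarith
  have hm1 : (0 : ℝ) < ((m : ℝ) + 1) ^ 2 := by positivity
  set M : ℝ := κ c * (‖s.u c m‖ + 1) * ((m : ℝ) + 1) ^ 2 / w c with hM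
  have hM0 : 0 < M := by positivity
  have hcA₁ : c ∈ s₁.A := hsub.A_sub hc
  have hσcA₁ : σ c ∈ s₁.A := hsub.A_sub hσcA
  obtain ⟨v, K, hv1, hv2, hKW, hKv, hKV, hKn, hKJ⟩ := h.key s₁.S s₁.V s₁.W (V_fin s₁) (W_fin s₁)
    hs₁.range hs₁.SJ (fun x hx => V_J h.sym T Λ s₁ hs₁ x hx)
    (fun x hx => W_J h.sym T Λ s₁ hs₁ x hx) c hcΛ y hy (η' / (2 * M)) (by positivity)
  have hMc : (M : ℂ) ≠ 0 := by exact_mod_cast hM0.ne'
  -- the new operator
  set S' : X →L[ℂ] X := s₁.S + ((M : ℂ)⁻¹) • K with hS'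
  have hS'x : ∀ x, S' x = s₁.S x + (M : ℂ)⁻¹ • K x := fun x => rfl
  have hS'W : ∀ x ∈ s₁.W, S' x = s₁.S x := fun x hx => by
    rw [hS'x, hKW x hx, smul_zero, add_zero]
  -- the new vectors
  set u' : ℂ → ℕ → X := fun b i =>
    if i = m + 1 ∧ b = c then (M : ℂ) • v
    else if i = m + 1 ∧ b = σ c then (M : ℂ) • J v else s₁.u b i with hu'
  set L' : ℂ → ℕ := fun b => if b = c ∨ b = σ c then m + 1 else s₁.L b with hL'
  have hJr : ∀ (r : ℝ) (x : X), J ((r : ℂ) • x) = (r : ℂ) • J x := h.sym.smul_real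
  have hinv : (M : ℂ)⁻¹ = ((M⁻¹ : ℝ) : ℂ) := by push_cast; rfl
  have hu1 : u' c (m + 1) = (M : ℂ) • v := by simp [hu']
  have hu2 : u' (σ c) (m + 1) = J ((M : ℂ) • v) := by
    by_cases hσ : σ c = c
    · have hJid := h.fix c hcΛ hσ
      rw [hσ, hu1, hJid]
    · simp only [hu']
      rw [if_neg (fun hh => hσ hh.2), if_pos (by simp), hJr]
  have hu3 : ∀ b i, i ≠ m + 1 → u' b i = s₁.u b i := fun b i hi => by
    simp only [hu']
    rw [if_neg (fun hh => hi hh.1), if_neg (fun hh => hi hh.1)]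
  have hu4 : ∀ b i, b ≠ c → b ≠ σ c → u' b i = s₁.u b i := fun b i hb hb' => by
    simp only [hu']
    rw [if_neg (fun hh => hb hh.2), if_neg (fun hh => hb' hh.2)]
  have hL1 : ∀ b, b = c ∨ b = σ c → L' b = m + 1 := fun b hb => by
    simp only [hL']
    rw [if_pos hb]
  have hL2 : ∀ b, ¬ (b = c ∨ b = σ c) → L' b = s₁.L b := fun b hb => by
    simp only [hL']
    rw [if_neg hb]
  have hLc₁ : s₁.L c = m := hsub.L_eq c hc
  have hLσ₁ : s₁.L (σ c) = m := by rw [hs₁.L_σ c hcA₁, hLc₁]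
  have hLb : ∀ b, b = c ∨ b = σ c → s₁.L b = m := by
    rintro b (rfl | rfl)
    · exact hLc₁
    · exact hLσ₁
  have hbA : ∀ b, b = c ∨ b = σ c → b ∈ s₁.A := by
    rintro b (rfl | rfl)
    · exact hcA₁
    · exact hσcA₁
  have hσcase : ∀ b, (σ b = c ∨ σ b = σ c) ↔ (b = c ∨ b = σ c) := by
    intro b
    constructor
    · rintro (hh | hh)
      · right
        rw [← hh, h.sym.σσ]
      · left
        rw [← h.sym.σσ b, hh, h.sym.σσ]
    · rintro (rfl | rfl)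
      · exact Or.inr rfl
      · left
        exact h.sym.σσ c
  -- old vectors are kept
  have hold : ∀ b ∈ s₁.A, ∀ i, i ≤ s₁.L b → u' b i = s₁.u b i := by
    intro b _ i hi
    by_cases hb : b = c ∨ b = σ c
    · rw [hLb b hb] at hi
      exact hu3 b i (by omega)
    · exact hu4 b i (fun hh => hb (Or.inl hh)) (fun hh => hb (Or.inr hh))
  have holdS : ∀ b ∈ s₁.A, ∀ i, i ≤ s₁.L b → S' (u' b i) = s₁.S (s₁.u b i) := by
    intro b hb i hi
    rw [hold b hb i hi]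
    exact hS'W _ (mem_W s₁ b hb i hi)
  set s' : CState X := ⟨S', u', s₁.A, L'⟩ with hs'
  have hV : s'.V = s₁.V := by
    unfold CState.V
    congr 1
  have hInv : s'.Inv J σ T Λ := by
    refine ⟨hs₁.A_mem, ?_, ?_, ?_, hs₁.A_σ, ?_, ?_⟩
    · intro b hb
      change S' (u' b 0) = b • u' b 0
      rw [holdS b hb 0 (Nat.zero_le _), hold b hb 0 (Nat.zero_le _)]
      exact hs₁.eig b hb
    · intro x
      rw [hV]
      change S' x - T x ∈ s₁.V
      rw [hS'x, add_sub_right_comm]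
      exact s₁.V.add_mem (hs₁.range x) (s₁.V.smul_mem _ (hKV x))
    · intro x
      change S' (J x) = J (S' x)
      rw [hS'x, hS'x, h.sym.add, hs₁.SJ, hKJ, hinv, hJr]
    · intro b hb
      change L' (σ b) = L' b
      by_cases hbc : b = c ∨ b = σ c
      · rw [hL1 b hbc, hL1 (σ b) ((hσcase b).mpr hbc)]
      · rw [hL2 b hbc, hL2 (σ b) (fun hh => hbc ((hσcase b).mp hh))]
        exact hs₁.L_σ b hb
    · intro b hb l hl
      change u' (σ b) l = J (u' b l)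
      change l ≤ L' b at hl
      by_cases hbc : b = c ∨ b = σ c
      · rw [hL1 b hbc] at hl
        by_cases hlm : l = m + 1
        · subst hlm
          rcases hbc with rfl | rfl
          · rw [hu2, hu1]
          · rw [h.sym.σσ, hu2, hu1, h.sym.invol]
        · rw [hu3 _ _ hlm, hu3 _ _ hlm]
          exact hs₁.u_σ b hb l (by rw [hLb b hbc]; omega)
      · rw [hL2 b hbc] at hl
        have hbc' : ¬ (σ b = c ∨ σ b = σ c) := fun hh => hbc ((hσcase b).mp hh)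
        rw [hu4 (σ b) l (fun hh => hbc' (Or.inl hh)) (fun hh => hbc' (Or.inr hh)),
          hu4 b l (fun hh => hbc (Or.inl hh)) (fun hh => hbc (Or.inr hh))]
        exact hs₁.u_σ b hb l hl
  -- the new error
  have hres : s'.res c m = (M : ℂ) • (s₁.S v - c • v) + (y - c • s.u c m) := by
    change S' (u' c (m + 1)) - c • u' c (m + 1) - c • u' c m = _
    rw [hu1, hu3 c m (by omega), hu c hc, map_smul, hS'x, hKv, smul_add, smul_smul,
      mul_inv_cancel₀ hMc, one_smul, smul_sub, smul_comm c (M : ℂ) v]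
    abel
  have hresn : ‖s'.res c m‖ < η' := by
    rw [hres]
    refine lt_of_le_of_lt (norm_add_le _ _) ?_
    rw [norm_smul, Complex.norm_real, Real.norm_eq_abs, abs_of_pos hM0]
    have e1 : M * ‖s₁.S v - c • v‖ < M * (η' / (2 * M)) := mul_lt_mul_of_pos_left hv2 hM0
    have e2 : M * (η' / (2 * M)) = η' / 2 := by field_simp
    have e3 : ‖y - c • s.u c m‖ < η' / 2 := by rw [norm_sub_rev]; exact hxy1
    linarith
  refine ⟨s', hInv, hsub.A_sub, ?_, ?_, ?_, ?_, ?_, ?_⟩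
  · intro b hb hb1 hb2
    change L' b = s.L b
    rw [hL2 b (fun hh => hh.elim hb1 hb2), hsub.L_eq b hb]
  · exact hL1
  · intro b hb hb1
    change L' b = 0
    rw [hL2 b, hsub.L_new b hb hb1]
    rintro (rfl | rfl)
    · exact hb1 hc
    · exact hb1 hσcA
  · intro b hb i hi
    have hi' : i ≤ s₁.L b := by rw [hsub.L_eq b hb]; exact hi
    refine ⟨?_, ?_⟩
    · change u' b i = s.u b i
      rw [hold b (hsub.A_sub hb) i hi', hu b hb]
    · change S' (u' b i) = s.S (s.u b i)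
      rw [holdS b (hsub.A_sub hb) i hi', hS, hu b hb]
  · change ‖S' - s.S‖ ≤ _
    have e1 : S' - s.S = (M : ℂ)⁻¹ • K := by
      rw [hS', hS]
      abel
    rw [e1, norm_smul, norm_inv, Complex.norm_real, Real.norm_eq_abs, abs_of_pos hM0]
    calc M⁻¹ * ‖K‖ ≤ M⁻¹ * (κ c * (‖s.u c m‖ + 1)) := by
          refine mul_le_mul_of_nonneg_left (hKn.trans ?_) (by positivity)
          exact mul_le_mul_of_nonneg_left hyn hκ.le
      _ = w c / ((m : ℝ) + 1) ^ 2 := by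
          have hpos : (0 : ℝ) < ‖s.u c m‖ + 1 := by positivity
          rw [hM]
          field_simp
  · have hvn : ‖(M : ℂ) • v‖ = M := by
      rw [norm_smul, Complex.norm_real, Real.norm_eq_abs, abs_of_pos hM0, hv1, mul_one]
    rintro b (rfl | rfl)
    · refine ⟨?_, hresn⟩
      change ‖u' b (m + 1)‖ ≤ M
      rw [hu1, hvn]
    · refine ⟨?_, ?_⟩
      · change ‖u' (σ c) (m + 1)‖ ≤ M
        rw [hu2, h.sym.norm, hvn]
      · rw [res_σ h.sym T Λ s' hInv c hcA₁ m (by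
          change m < L' c
          rw [hL1 c (Or.inl rfl)]
          omega), h.sym.norm]
        exact hresn

end Pool.Agent.Lib.MP_bb8441_an.Ch
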