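import Pool.Agent.Lib.MP_bb8441_an.Density

/-! The windows have positive lower density. -/

set_option autoImplicit false

namespace Pool.Agent.Lib.MP_bb8441_an.Ch

open Filter in
theorem window_density (p : ℕ) (hp : 1 ≤ p) (j k₁ : ℕ) :
    0 < lowerDensity {t : ℕ | ∃ k : ℕ, k₁ ≤ k ∧ k % 2 ^ (j + 1) = 2 ^ j ∧ 2 ^ (28 * k) ≤ t ∧
      128 * t ≤ 129 * 2 ^ (28 * k) ∧ p ∣ t} := by
  obtain ⟨P, hP⟩ : ∃ P : ℕ, P = 2 ^ (j + 1) := ⟨_, rfl⟩
  obtain ⟨r, hr⟩ : ∃ r : ℕ, r = 2 ^ j := ⟨_, rfl⟩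
  have hrP : r < P := by
    rw [hP, hr, pow_succ]
    have := Nat.two_pow_pos j
    omega
  have hP0 : 0 < P := by omega
  obtain ⟨i₂, hi₂⟩ : ∃ i₂ : ℕ, i₂ = k₁ + 256 * p := ⟨_, rfl⟩
  have hmono : ∀ a b : ℕ, a ≤ b → 2 ^ (28 * (a * P + r)) ≤ 2 ^ (28 * (b * P + r)) := by
    intro a b h
    refine Nat.pow_le_pow_right (by norm_num) ?_
    have := Nat.mul_le_mul_right P h
    omega
  have hbig : ∀ a : ℕ, a < 2 ^ (28 * (a * P + r)) := by
    intro a
    refine lt_of_lt_of_le Nat.lt_two_pow_self (Nat.pow_le_pow_right (by norm_num) ?_)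
    have : a * 1 ≤ a * P := Nat.mul_le_mul_left a hP0
    omega
  refine lowerDensity_pos _ (1 / (512 * p * 2 ^ (28 * P))) (by positivity) ?_
  filter_upwards [eventually_ge_atTop (2 * 2 ^ (28 * (i₂ * P + r)))] with N hN
  have hex : ∃ i : ℕ, 128 * N < 129 * 2 ^ (28 * (i * P + r)) := ⟨N, by
    have := hbig N
    omega⟩
  obtain ⟨m, hm1, hm2⟩ : ∃ m : ℕ, 128 * N < 129 * 2 ^ (28 * (m * P + r)) ∧
      ∀ i < m, 129 * 2 ^ (28 * (i * P + r)) ≤ 128 * N := by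
    classical
    exact ⟨Nat.find hex, Nat.find_spec hex, fun i hi => not_lt.1 (Nat.find_min hex hi)⟩
  have him : i₂ < m := by
    by_contra hcon
    have := hmono m i₂ (not_lt.1 hcon)
    omega
  obtain ⟨i, rfl⟩ : ∃ i, m = i + 1 := ⟨m - 1, by omega⟩
  have hi : i₂ ≤ i := by omega
  have hwin := hm2 i (Nat.lt_succ_self i)
  obtain ⟨k, hk⟩ : ∃ k : ℕ, k = i * P + r := ⟨_, rfl⟩
  obtain ⟨M, hM⟩ : ∃ M : ℕ, M = 2 ^ (28 * k) := ⟨_, rfl⟩
  have hMbig : i < M := by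
    rw [hM, hk]
    exact hbig i
  have hnext : 2 ^ (28 * ((i + 1) * P + r)) = 2 ^ (28 * P) * M := by
    rw [hM, hk, ← pow_add]
    congr 1
    ring
  rw [hnext] at hm1
  rw [← hk, ← hM] at hwin
  have hkmod : k % 2 ^ (j + 1) = 2 ^ j := by
    rw [← hP, ← hr, hk, Nat.mul_add_mod', Nat.mod_eq_of_lt hrP]
  have hk1 : k₁ ≤ k := by
    have : i * 1 ≤ i * P := Nat.mul_le_mul_left i hP0
    omega
  obtain ⟨K, hK⟩ : ∃ K : ℕ, K = M / (128 * p) := ⟨_, rfl⟩
  have hKle : 128 * p * K ≤ M := by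
    rw [hK]
    exact Nat.mul_div_le M (128 * p)
  have hKlt : M < 128 * p * (K + 1) := by
    rw [hK]
    exact Nat.lt_mul_div_succ M (by omega)
  -- the count
  have hcount : K ≤ ({t : ℕ | ∃ k : ℕ, k₁ ≤ k ∧ k % 2 ^ (j + 1) = 2 ^ j ∧ 2 ^ (28 * k) ≤ t ∧
      128 * t ≤ 129 * 2 ^ (28 * k) ∧ p ∣ t} ∩ Set.Icc 1 N).ncard := by
    have hinj : Function.Injective (fun q : ℕ => p * (M / p + 1 + q)) := by
      intro a b hab
      have := Nat.eq_of_mul_eq_mul_left (by omega) hab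
      omega
    have hsub : (fun q : ℕ => p * (M / p + 1 + q)) '' (Finset.range K : Set ℕ) ⊆
        {t : ℕ | ∃ k : ℕ, k₁ ≤ k ∧ k % 2 ^ (j + 1) = 2 ^ j ∧ 2 ^ (28 * k) ≤ t ∧
          128 * t ≤ 129 * 2 ^ (28 * k) ∧ p ∣ t} ∩ Set.Icc 1 N := by
      rintro _ ⟨q, hq, rfl⟩
      have hq' : q < K := by simpa using hq
      have h1 : M < p * (M / p + 1) := Nat.lt_mul_div_succ M (by omega)
      have h2 : p * (M / p) ≤ M := Nat.mul_div_le M p
      have h3 : p * (M / p + 1 + q) = p * (M / p + 1) + p * q := by ring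
      have h4 : p * (M / p + 1 + q) = p * (M / p) + p * (q + 1) := by ring
      have h5 : p * (q + 1) ≤ p * K := Nat.mul_le_mul_left p hq'
      have h6 : 128 * (p * K) ≤ M := by
        rw [← mul_assoc]
        exact hKle
      have h7 : 128 * (p * (M / p + 1 + q)) ≤ 129 * M := by
        rw [h4]
        omega
      have h8 : M ≤ p * (M / p + 1 + q) := by
        rw [h3]
        omega
      refine ⟨⟨k, hk1, hkmod, ?_, ?_, dvd_mul_right _ _⟩, ?_, ?_⟩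
      · rw [← hM]
        exact h8
      · rw [← hM]
        exact h7
      · show 1 ≤ p * (M / p + 1 + q)
        omega
      · show p * (M / p + 1 + q) ≤ N
        omega
    calc K = ((fun q : ℕ => p * (M / p + 1 + q)) '' (Finset.range K : Set ℕ)).ncard := by
          rw [Set.ncard_image_of_injective _ hinj, Set.ncard_coe_finset, Finset.card_range]
      _ ≤ _ := Set.ncard_le_ncard hsub ((Set.finite_Icc 1 N).subset Set.inter_subset_right)
  have hcount' : (K : ℝ) ≤ (({t : ℕ | ∃ k : ℕ, k₁ ≤ k ∧ k % 2 ^ (j + 1) = 2 ^ j ∧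
      2 ^ (28 * k) ≤ t ∧ 128 * t ≤ 129 * 2 ^ (28 * k) ∧ p ∣ t} ∩ Set.Icc 1 N).ncard : ℝ) := by
    exact_mod_cast hcount
  refine le_trans ?_ hcount'
  have hp' : (1 : ℝ) ≤ p := by exact_mod_cast hp
  have e1 : (M : ℝ) < 128 * p * (K + 1) := by exact_mod_cast hKlt
  have e2 : (256 : ℝ) * p ≤ M := by
    have : 256 * p ≤ M := by omega
    exact_mod_cast this
  have e3 : (128 : ℝ) * N < 129 * (2 ^ (28 * P) * M) := by exact_mod_cast hm1
  have e4 : (0 : ℝ) < 2 ^ (28 * P) := by positivity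
  rw [div_mul_eq_mul_div, one_mul, div_le_iff₀ (by positivity)]
  have e5 : (M : ℝ) ≤ 256 * p * K := by nlinarith
  calc (N : ℝ) ≤ 2 * (2 ^ (28 * P) * M) := by nlinarith [mul_nonneg e4.le (by positivity : (0:ℝ) ≤ M)]
    _ ≤ 2 * (2 ^ (28 * P) * (256 * p * K)) := by gcongr
    _ = K * (512 * p * 2 ^ (28 * P)) := by ring

open Filter in
theorem lowerDensity_mono (A B : Set ℕ) (hAB : A ⊆ B) (hA : 0 < lowerDensity A) :
    0 < lowerDensity B := by
  have hle : ∀ (C : Set ℕ) (N : ℕ), ((C ∩ Set.Icc 1 N).ncard : ℝ) / N ≤ 1 := by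
    intro C N
    have h1 : (C ∩ Set.Icc 1 N).ncard ≤ N := by
      calc (C ∩ Set.Icc 1 N).ncard ≤ (Set.Icc 1 N).ncard :=
            Set.ncard_le_ncard Set.inter_subset_right (Set.finite_Icc 1 N)
        _ = N := by
            rw [Set.ncard_eq_toFinset_card']
            simp
    exact div_le_one_of_le₀ (by exact_mod_cast h1) (by positivity)
  have hb : ∀ C : Set ℕ, IsBoundedUnder (· ≤ ·) atTop
      (fun N : ℕ => ((C ∩ Set.Icc 1 N).ncard : ℝ) / N) := fun C => isBoundedUnder_of ⟨1, hle C⟩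
  have hb' : IsBoundedUnder (· ≥ ·) atTop
      (fun N : ℕ => ((A ∩ Set.Icc 1 N).ncard : ℝ) / N) :=
    isBoundedUnder_of ⟨0, fun N => by positivity⟩
  refine lt_of_lt_of_le hA ?_
  refine liminf_le_liminf ?_ hb' (hb B).isCoboundedUnder_ge
  refine Eventually.of_forall fun N => ?_
  have : (A ∩ Set.Icc 1 N).ncard ≤ (B ∩ Set.Icc 1 N).ncard :=
    Set.ncard_le_ncard (Set.inter_subset_inter_left _ hAB)
      ((Set.finite_Icc 1 N).subset Set.inter_subset_right)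
  show ((A ∩ Set.Icc 1 N).ncard : ℝ) / N ≤ ((B ∩ Set.Icc 1 N).ncard : ℝ) / N
  gcongr

end Pool.Agent.Lib.MP_bb8441_an.Ch
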