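import Pool.Agent.Lib.MP_bb8441_an.Ch.Target
import Pool.Agent.Lib.MP_bb8441_an.Ch.Windows

/-! Frequent hypercyclicity from targets. -/

set_option autoImplicit false

namespace Pool.Agent.Lib.MP_bb8441_an.Ch

variable {X : Type*} [NormedAddCommGroup X] [NormedSpace ℂ X]

theorem c13_unique (k i j : ℕ) (hi : k % 2 ^ (i + 1) = 2 ^ i) (hj : k % 2 ^ (j + 1) = 2 ^ j) :
    i = j := by
  have aux : ∀ a b : ℕ, a < b → k % 2 ^ (a + 1) = 2 ^ a → k % 2 ^ (b + 1) = 2 ^ b → False := by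
    intro a b hab ha hb
    have h1 : 2 ^ (a + 1) ∣ 2 ^ b := pow_dvd_pow 2 hab
    have h2 : 2 ^ (a + 1) ∣ 2 ^ (b + 1) := pow_dvd_pow 2 (by omega)
    have h3 : k % 2 ^ (b + 1) % 2 ^ (a + 1) = k % 2 ^ (a + 1) := Nat.mod_mod_of_dvd k h2
    rw [hb, ha, Nat.mod_eq_zero_of_dvd h1] at h3
    have : 0 < 2 ^ a := by positivity
    omega
  rcases lt_trichotomy i j with h | h | h
  · exact (aux i j h hi hj).elim
  · exact h
  · exact (aux j i h hj hi).elim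

/-- An operator with a dense set of targets is frequently hypercyclic. -/
theorem fhc_of_targets [CompleteSpace X] (S : X →L[ℂ] X) (q : ℕ → X) (hq : DenseRange q)
    (hT : ∀ j, Target S (q j)) : FrequentlyHypercyclic S := by
  choose p hp hz using hT
  have hz' : ∀ j : ℕ, ∃ k₀ : ℕ, ∀ θ : ℕ → ℂ, (∀ k, θ k = 0 ∨ θ k = 1) →
    (∀ k < k₀, θ k = 0) → ∃ z : X, ‖z‖ ≤ 1 / 2 / 2 ^ j ∧ ∀ k t : ℕ, 2 ^ (28 * k) ≤ t →
      128 * t ≤ 129 * 2 ^ (28 * k) → (θ k = 0 ∨ p j ∣ t) →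
        ‖(S ^ t) z - θ k • q j‖ ≤ (1 / 2 / 2 ^ j) / 2 ^ k :=
    fun j => hz j (1 / 2 / 2 ^ j) (by positivity)
  choose k₀ hk₀ using hz'
  let θ : ℕ → ℕ → ℂ := fun j k => if k₀ j ≤ k ∧ k % 2 ^ (j + 1) = 2 ^ j then 1 else 0
  have hθ01 : ∀ j k, θ j k = 0 ∨ θ j k = 1 := by
    intro j k
    by_cases h : k₀ j ≤ k ∧ k % 2 ^ (j + 1) = 2 ^ j
    · right; simp [θ, h]
    · left; simp only [θ, if_neg h]
  have hθ0 : ∀ j, ∀ k < k₀ j, θ j k = 0 := by
    intro j k hk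
    have h : ¬ (k₀ j ≤ k ∧ k % 2 ^ (j + 1) = 2 ^ j) := fun h => absurd h.1 (not_le.2 hk)
    simp only [θ, if_neg h]
  choose z hz1 hz2 using fun j => hk₀ j (θ j) (hθ01 j) (hθ0 j)
  have hsum : Summable z := by
    refine Summable.of_norm_bounded (g := fun j : ℕ => (1 : ℝ) / 2 / 2 ^ j) ?_ hz1
    exact (hasSum_geometric_two' (1 : ℝ)).summable
  obtain ⟨x, hx⟩ := hsum
  refine ⟨x, fun U hU hne => ?_⟩
  obtain ⟨j, hj⟩ := hq.exists_mem_open hU hne
  obtain ⟨ρ, hρ, hball⟩ := Metric.isOpen_iff.1 hU (q j) hj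
  obtain ⟨k₂, hk₂⟩ := exists_pow_lt_of_lt_one hρ (by norm_num : (1 / 2 : ℝ) < 1)
  refine lowerDensity_mono _ _ ?_ (window_density (p j) (hp j) j (max (k₀ j) k₂))
  rintro t ⟨k, hk, hkj, ht1, ht2, hpt⟩
  apply hball
  rw [mem_ball_iff_norm]
  have hs1 : HasSum (fun i => (S ^ t) (z i)) ((S ^ t) x) := (S ^ t).hasSum hx
  have hθj : θ j k = 1 := by
    have h : k₀ j ≤ k ∧ k % 2 ^ (j + 1) = 2 ^ j := ⟨(le_max_left _ _).trans hk, hkj⟩
    simp only [θ, if_pos h]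
  have hθi : ∀ i, i ≠ j → θ i k = 0 := by
    intro i hi
    have h : ¬ (k₀ i ≤ k ∧ k % 2 ^ (i + 1) = 2 ^ i) := fun h => hi (c13_unique k i j h.2 hkj)
    simp only [θ, if_neg h]
  have hs2 : HasSum (fun i => θ i k • q i) (q j) := by
    have := hasSum_single (f := fun i => θ i k • q i) j (fun i hi => by simp [hθi i hi])
    simpa [hθj] using this
  have hs3 := hs1.sub hs2
  have hb : ∀ i, ‖(S ^ t) (z i) - θ i k • q i‖ ≤ (1 / 2 ^ k : ℝ) / 2 / 2 ^ i := by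
    intro i
    have h1 : θ i k = 0 ∨ p i ∣ t := by
      by_cases hij : i = j
      · subst hij; exact Or.inr hpt
      · exact Or.inl (hθi i hij)
    refine (hz2 i k t ht1 ht2 h1).trans (le_of_eq ?_)
    ring
  have hfin := hs3.norm_le_of_bounded (hasSum_geometric_two' (1 / 2 ^ k : ℝ)) hb
  refine hfin.trans_lt (lt_of_le_of_lt ?_ hk₂)
  rw [one_div_pow]
  exact one_div_le_one_div_of_le (by positivity)
    (pow_le_pow_right₀ (by norm_num) ((le_max_right _ _).trans hk))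

theorem fhc_of_chains [CompleteSpace X] [TopologicalSpace.SeparableSpace X] (S : X →L[ℂ] X)
    (u : ℂ → ℕ → X) (A : Set ℂ) (hA : ∀ c ∈ A, ∃ m : ℕ, 1 ≤ m ∧ c ^ m = 1)
    (h0 : ∀ c ∈ A, S (u c 0) = c • u c 0)
    (h1 : ∀ c ∈ A, ∀ l, S (u c (l + 1)) = c • (u c (l + 1) + u c l))
    (hb : ∀ c ∈ A, ∃ C D : ℝ, 0 ≤ C ∧ 0 ≤ D ∧
      ∀ l, ‖u c l‖ ≤ C * D ^ l * ((l.factorial : ℝ)) ^ 2)
    (hd : Dense (Submodule.span ℂ ((fun c => u c 0) '' A) : Set X)) :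
    FrequentlyHypercyclic S := by
  have : Nonempty (Submodule.span ℂ ((fun c => u c 0) '' A)) := ⟨0⟩

  have : SecondCountableTopology X := UniformSpace.secondCountable_of_separable X
  have : TopologicalSpace.SeparableSpace (Submodule.span ℂ ((fun c => u c 0) '' A)) :=
    inferInstance
  let q : ℕ → X := fun n =>
    (TopologicalSpace.denseSeq (Submodule.span ℂ ((fun c => u c 0) '' A)) n : X)
  refine fhc_of_targets S q ?_ ?_
  · have h2 : DenseRange (Subtype.val : (Submodule.span ℂ ((fun c => u c 0) '' A)) → X) := by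
      rw [DenseRange, Subtype.range_coe_subtype]
      exact hd
    exact h2.comp (TopologicalSpace.denseRange_denseSeq _) continuous_subtype_val
  · intro j
    refine target_span S ((fun c => u c 0) '' A) ?_ (q j) (Subtype.coe_prop _)
    rintro _ ⟨c, hc, rfl⟩
    exact target_chain S c (hA c hc) (u c) (h0 c hc) (h1 c hc) (hb c hc)

end Pool.Agent.Lib.MP_bb8441_an.Ch
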