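import Pool.Agent.Lib.MP_bb8441_an.Ch.Poly

/-! Polynomials and chains of generalised eigenvectors. -/

set_option autoImplicit false

namespace Pool.Agent.Lib.MP_bb8441_an.Ch

open Polynomial

variable {X : Type*} [NormedAddCommGroup X] [NormedSpace ℂ X]

/-- The iterated differences of `x ^ i` at `0`. -/
noncomputable def c8_a (i l : ℕ) : ℂ := (fwdDiff (1 : ℂ))^[l] (fun x : ℂ => x ^ i) 0

theorem c8_eq (i l : ℕ) : c8_a i l
    = ∑ k ∈ Finset.range (l + 1), ((-1 : ℤ) ^ (l - k) * l.choose k) • (k : ℂ) ^ i := by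
  unfold c8_a
  rw [fwdDiff_iter_eq_sum_shift]
  refine Finset.sum_congr rfl fun k _ => ?_
  simp

theorem c8_lt (i l : ℕ) (h : i < l) : c8_a i l = 0 := by
  unfold c8_a
  rw [fwdDiff_iter_pow_eq_zero_of_lt h]
  rfl

theorem c8_zero (l : ℕ) : c8_a 0 l = if l = 0 then 1 else 0 := by
  rcases Nat.eq_zero_or_pos l with h | h
  · subst h
    simp [c8_a]
  · rw [c8_lt 0 l h, if_neg h.ne']

theorem c8_norm (i l : ℕ) : ‖c8_a i l‖ ≤ (2 * (i : ℝ)) ^ i := by
  rcases lt_or_ge i l with h | h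
  · rw [c8_lt i l h, norm_zero]
    positivity
  · rw [c8_eq]
    calc ‖∑ k ∈ Finset.range (l + 1), ((-1 : ℤ) ^ (l - k) * l.choose k) • (k : ℂ) ^ i‖
        ≤ ∑ k ∈ Finset.range (l + 1), (l.choose k : ℝ) * (i : ℝ) ^ i := by
          refine norm_sum_le_of_le _ fun k hk => ?_
          have hk' : k ≤ i := (Nat.lt_succ_iff.1 (Finset.mem_range.1 hk)).trans h
          rw [zsmul_eq_mul, norm_mul, norm_pow, Complex.norm_natCast]
          have e1 : ‖(((-1 : ℤ) ^ (l - k) * (l.choose k : ℤ) : ℤ) : ℂ)‖ = (l.choose k : ℝ) := by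
            push_cast
            rw [norm_mul, norm_pow, norm_neg, norm_one, one_pow, one_mul, Complex.norm_natCast]
          rw [e1]
          refine mul_le_mul_of_nonneg_left ?_ (Nat.cast_nonneg _)
          exact pow_le_pow_left₀ (Nat.cast_nonneg _) (Nat.cast_le.2 hk') i
      _ = (2 : ℝ) ^ l * (i : ℝ) ^ i := by
          rw [← Finset.sum_mul]
          congr 1
          have := Nat.sum_range_choose l
          exact_mod_cast this
      _ ≤ (2 : ℝ) ^ i * (i : ℝ) ^ i :=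
          mul_le_mul_of_nonneg_right (pow_le_pow_right₀ (by norm_num) h) (by positivity)
      _ = (2 * (i : ℝ)) ^ i := by rw [mul_pow]

theorem c8_rec (i l : ℕ) : c8_a i l + c8_a i (l + 1)
    = ∑ j ∈ Finset.range (i + 1), (i.choose j : ℂ) * c8_a j l := by
  have e1 : c8_a i l + c8_a i (l + 1) = (fwdDiff (1 : ℂ))^[l] (fun x : ℂ => (x + 1) ^ i) 0 := by
    have h1 := fwdDiff_iter_comp_add (1 : ℂ) (fun x : ℂ => x ^ i) 1 l 0
    rw [h1]
    unfold c8_a
    rw [Function.iterate_succ_apply']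
    unfold fwdDiff
    ring
  have e2 : (fun x : ℂ => (x + 1) ^ i)
      = ∑ j ∈ Finset.range (i + 1), (i.choose j) • (fun x : ℂ => x ^ j) := by
    funext x
    rw [Finset.sum_apply, add_pow]
    refine Finset.sum_congr rfl fun j _ => ?_
    simp [mul_comm]
  rw [e1, e2, fwdDiff_iter_finsetSum, Finset.sum_apply]
  refine Finset.sum_congr rfl fun j _ => ?_
  rw [fwdDiff_iter_const_smul, Pi.smul_apply, nsmul_eq_mul]
  rfl

/-- The numbers `c i l = (Δ ^ l x ^ i) (0) = l ! S (i, l)`. -/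
theorem exists_surj_numbers :
    ∃ a : ℕ → ℕ → ℂ, (∀ l, a 0 l = if l = 0 then 1 else 0) ∧ (∀ i l, i < l → a i l = 0) ∧
      (∀ i l, ‖a i l‖ ≤ (2 * (i : ℝ)) ^ i) ∧
      ∀ i l, a i l + a i (l + 1) = ∑ j ∈ Finset.range (i + 1), (i.choose j : ℂ) * a j l :=
  ⟨c8_a, c8_zero, c8_lt, c8_norm, c8_rec⟩

/-- The vectors `y i`. -/
noncomputable def c9_y (a : ℕ → ℕ → ℂ) (u : ℕ → X) (i : ℕ) : X :=
  ∑ l ∈ Finset.range (i + 1), a i l • u l

theorem c9_y_ext (a : ℕ → ℕ → ℂ) (h : ∀ i l, i < l → a i l = 0) (u : ℕ → X) (i n : ℕ)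
    (hn : i < n) : c9_y a u i = ∑ l ∈ Finset.range n, a i l • u l := by
  unfold c9_y
  refine Finset.sum_subset (Finset.range_subset_range.2 hn) ?_
  intro l _ hl
  rw [h i l (by simpa [Nat.lt_succ_iff] using hl), zero_smul]

theorem c9_S_y (S : X →L[ℂ] X) (c : ℂ) (u : ℕ → X) (h0 : S (u 0) = c • u 0)
    (h1 : ∀ l, S (u (l + 1)) = c • (u (l + 1) + u l)) (a : ℕ → ℕ → ℂ)
    (ha : ∀ i l, i < l → a i l = 0)
    (hr : ∀ i l, a i l + a i (l + 1) = ∑ j ∈ Finset.range (i + 1), (i.choose j : ℂ) * a j l)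
    (i : ℕ) :
    S (c9_y a u i) = c • ∑ j ∈ Finset.range (i + 1), (i.choose j : ℂ) • c9_y a u j := by
  have e1 : S (c9_y a u i) = c • ∑ l ∈ Finset.range (i + 1), (a i l + a i (l + 1)) • u l := by
    have e2 : ∑ l ∈ Finset.range (i + 1), (a i l + a i (l + 1)) • u l
        = ∑ l ∈ Finset.range (i + 1), a i l • u l
          + ∑ l ∈ Finset.range i, a i (l + 1) • u l := by
      rw [Finset.sum_congr rfl fun l _ => add_smul (a i l) (a i (l + 1)) (u l),
        Finset.sum_add_distrib, Finset.sum_range_succ (fun l => a i (l + 1) • u l),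
        ha i (i + 1) (Nat.lt_succ_self i), zero_smul, add_zero]
    have e3 : S (c9_y a u i) = c • (∑ l ∈ Finset.range (i + 1), a i l • u l
          + ∑ l ∈ Finset.range i, a i (l + 1) • u l) := by
      unfold c9_y
      rw [Finset.sum_range_succ', map_add, map_sum, map_smul, h0,
        Finset.sum_congr rfl fun l _ => map_smul S (a i (l + 1)) (u (l + 1)),
        Finset.sum_congr rfl fun l _ => by rw [h1 l]]
      rw [smul_add, smul_add, Finset.smul_sum, Finset.smul_sum, smul_smul, smul_smul,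
        mul_comm (a i 0) c, add_right_comm, ← Finset.sum_add_distrib]
      congr 1
      refine Finset.sum_congr rfl fun l _ => ?_
      simp only [smul_add, smul_smul, mul_comm]
    rw [e3, e2]
  rw [e1]
  congr 1
  have e4 : ∀ j ∈ Finset.range (i + 1), (i.choose j : ℂ) • c9_y a u j
      = ∑ l ∈ Finset.range (i + 1), ((i.choose j : ℂ) * a j l) • u l := by
    intro j hj
    rw [c9_y_ext a ha u j (i + 1) (Finset.mem_range.1 hj), Finset.smul_sum]
    exact Finset.sum_congr rfl fun l _ => by rw [smul_smul]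
  rw [Finset.sum_congr rfl e4, Finset.sum_comm]
  refine Finset.sum_congr rfl fun l _ => ?_
  rw [hr i l, Finset.sum_smul]

theorem c9_norm_y (u : ℕ → X) (C₁ D : ℝ) (hC : 0 ≤ C₁) (hD : 0 ≤ D)
    (hb : ∀ l, ‖u l‖ ≤ C₁ * D ^ l * ((l.factorial : ℝ)) ^ 2) (a : ℕ → ℕ → ℂ)
    (h00 : a 0 0 = 1) (hn : ∀ i l, ‖a i l‖ ≤ (2 * (i : ℝ)) ^ i) (i d : ℕ) (hid : i ≤ d) (r : ℝ)
    (hr : 8 * (D + 1) * (d : ℝ) ^ 3 ≤ r) : ‖c9_y a u i‖ ≤ C₁ * r ^ i := by
  rcases Nat.eq_zero_or_pos i with rfl | hi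
  · have := hb 0
    simp [c9_y, h00] at this ⊢
    exact this
  · have hi1 : (1 : ℝ) ≤ (i : ℝ) := by exact_mod_cast hi
    have hD1 : (1 : ℝ) ≤ D + 1 := by linarith
    have b1 : ∀ l ∈ Finset.range (i + 1),
        ‖a i l • u l‖ ≤ (2 * (i : ℝ)) ^ i * (C₁ * (D + 1) ^ i * ((i : ℝ) ^ i) ^ 2) := by
      intro l hl
      have hl' : l ≤ i := Nat.lt_succ_iff.1 (Finset.mem_range.1 hl)
      rw [norm_smul]
      refine mul_le_mul (hn i l) ?_ (norm_nonneg _) (by positivity)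
      refine (hb l).trans ?_
      have c1 : D ^ l ≤ (D + 1) ^ i :=
        (pow_le_pow_left₀ hD (by linarith) l).trans (pow_le_pow_right₀ hD1 hl')
      have c2 : ((l.factorial : ℕ) : ℝ) ≤ (i : ℝ) ^ i := by
        have : l.factorial ≤ i ^ i := (Nat.factorial_le hl').trans (Nat.factorial_le_pow i)
        exact_mod_cast this
      have c3 : ((l.factorial : ℕ) : ℝ) ^ 2 ≤ ((i : ℝ) ^ i) ^ 2 :=
        pow_le_pow_left₀ (by positivity) c2 2
      refine mul_le_mul ?_ c3 (by positivity) (by positivity)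
      exact mul_le_mul_of_nonneg_left c1 hC
    have b2 : ‖c9_y a u i‖ ≤ ((i : ℝ) + 1)
        * ((2 * (i : ℝ)) ^ i * (C₁ * (D + 1) ^ i * ((i : ℝ) ^ i) ^ 2)) := by
      refine (norm_sum_le _ _).trans ((Finset.sum_le_sum b1).trans ?_)
      rw [Finset.sum_const, Finset.card_range, nsmul_eq_mul]
      push_cast
      exact le_refl _
    have b3 : (i : ℝ) + 1 ≤ 2 ^ i := by
      have : i + 1 ≤ 2 ^ i := Nat.lt_two_pow_self
      exact_mod_cast this
    have b4 : (2 : ℝ) ^ i * ((2 * (i : ℝ)) ^ i * (C₁ * (D + 1) ^ i * ((i : ℝ) ^ i) ^ 2))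
        = C₁ * (4 * (D + 1) * (i : ℝ) ^ 3) ^ i := by
      rw [mul_pow (2 : ℝ) (i : ℝ) i, mul_pow (4 * (D + 1)) ((i : ℝ) ^ 3) i,
        mul_pow (4 : ℝ) (D + 1) i, ← pow_mul, ← pow_mul,
        show (4 : ℝ) ^ i = 2 ^ i * 2 ^ i by rw [← mul_pow]; norm_num,
        show (i : ℝ) ^ (3 * i) = (i : ℝ) ^ i * (i : ℝ) ^ (i * 2) by rw [← pow_add]; congr 1; ring]
      ring
    have b5 : 4 * (D + 1) * (i : ℝ) ^ 3 ≤ r := by
      have hid' : (i : ℝ) ≤ (d : ℝ) := by exact_mod_cast hid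
      have : (i : ℝ) ^ 3 ≤ (d : ℝ) ^ 3 := pow_le_pow_left₀ (by positivity) hid' 3
      have h4 : 4 * (D + 1) * (i : ℝ) ^ 3 ≤ 8 * (D + 1) * (d : ℝ) ^ 3 := by
        refine mul_le_mul ?_ this (by positivity) (by positivity)
        linarith
      exact h4.trans hr
    calc ‖c9_y a u i‖ ≤ ((i : ℝ) + 1)
        * ((2 * (i : ℝ)) ^ i * (C₁ * (D + 1) ^ i * ((i : ℝ) ^ i) ^ 2)) := b2
      _ ≤ 2 ^ i * ((2 * (i : ℝ)) ^ i * (C₁ * (D + 1) ^ i * ((i : ℝ) ^ i) ^ 2)) :=
          mul_le_mul_of_nonneg_right b3 (by positivity)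
      _ = C₁ * (4 * (D + 1) * (i : ℝ) ^ 3) ^ i := b4
      _ ≤ C₁ * r ^ i := mul_le_mul_of_nonneg_left (pow_le_pow_left₀ (by positivity) b5 i) hC

/-- A chain gives a linear map `J` from polynomials to `X`, with `S (J P) = c • J (P (X + 1))`. -/
theorem exists_map (S : X →L[ℂ] X) (c : ℂ) (u : ℕ → X) (h0 : S (u 0) = c • u 0)
    (h1 : ∀ l, S (u (l + 1)) = c • (u (l + 1) + u l)) (C₁ D : ℝ) (hC : 0 ≤ C₁) (hD : 0 ≤ D)
    (hb : ∀ l, ‖u l‖ ≤ C₁ * D ^ l * ((l.factorial : ℝ)) ^ 2) :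
    ∃ J : ℂ[X] →ₗ[ℂ] X, J 1 = u 0 ∧ (∀ P, S (J P) = c • J (taylor 1 P)) ∧
      ∀ (P : ℂ[X]) (r : ℝ), 0 ≤ r → 8 * (D + 1) * (P.natDegree : ℝ) ^ 3 ≤ r →
        ‖J P‖ ≤ C₁ * nu r P := by
  obtain ⟨a, ha0, ha1, ha2, ha3⟩ := exists_surj_numbers
  have h00 : a 0 0 = 1 := by rw [ha0 0]; simp
  have hmon : ∀ (i : ℕ) (p : ℂ), (Polynomial.lsum fun i =>
      (LinearMap.toSpanSingleton ℂ X (c9_y a u i))) (monomial i p) = p • c9_y a u i := by
    intro i p
    simp [Polynomial.lsum_apply, Polynomial.sum_monomial_index]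
  refine ⟨Polynomial.lsum fun i => (LinearMap.toSpanSingleton ℂ X (c9_y a u i)), ?_, ?_, ?_⟩
  · have := hmon 0 1
    rw [show (monomial 0 (1 : ℂ)) = 1 from rfl] at this
    rw [this]
    simp [c9_y, h00]
  · intro P
    induction P using Polynomial.induction_on' with
    | add p q hp hq => rw [map_add, map_add, hp, hq, map_add, map_add, smul_add]
    | monomial n p =>
      rw [hmon, map_smul, c9_S_y S c u h0 h1 a ha1 ha3 n]
      have e1 : taylor (1 : ℂ) (monomial n p)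
          = ∑ j ∈ Finset.range (n + 1), monomial j (p * (n.choose j : ℂ)) := by
        rw [taylor_monomial, C_1, add_pow, Finset.mul_sum]
        refine Finset.sum_congr rfl fun j _ => ?_
        rw [one_pow, mul_one, ← C_mul_X_pow_eq_monomial, C_mul, C_eq_natCast]
        ring
      rw [e1, map_sum, Finset.sum_congr rfl fun j _ => hmon j _]
      rw [smul_comm]
      congr 1
      rw [Finset.smul_sum]
      exact Finset.sum_congr rfl fun j _ => by rw [smul_smul]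
  · intro P r hr hd
    rw [Polynomial.lsum_apply, Polynomial.sum_def]
    unfold nu
    rw [Polynomial.sum_def, Finset.mul_sum]
    refine (norm_sum_le _ _).trans (Finset.sum_le_sum fun i hi => ?_)
    rw [LinearMap.toSpanSingleton_apply, norm_smul]
    have := c9_norm_y u C₁ D hC hD hb a h00 ha2 i P.natDegree
      (le_natDegree_of_mem_supp i hi) r hd
    calc ‖P.coeff i‖ * ‖c9_y a u i‖ ≤ ‖P.coeff i‖ * (C₁ * r ^ i) :=
          mul_le_mul_of_nonneg_left this (norm_nonneg _)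
      _ = C₁ * (‖P.coeff i‖ * r ^ i) := by ring

/-- The orbit of `J P`. -/
theorem orbit_map (S : X →L[ℂ] X) (c : ℂ) (J : ℂ[X] →ₗ[ℂ] X)
    (hJ : ∀ P, S (J P) = c • J (taylor 1 P)) (P : ℂ[X]) (t : ℕ) :
    (S ^ t) (J P) = c ^ t • J (taylor (t : ℂ) P) := by
  induction t with
  | zero => simp
  | succ t ih =>
    rw [pow_succ', mul_apply_eq_comp, ih, map_smul, hJ, smul_smul, taylor_taylor,
      ← pow_succ, Nat.cast_succ, add_comm (1 : ℂ)]

end Pool.Agent.Lib.MP_bb8441_an.Ch
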