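import Pool.Agent.Lib.MP_bb8441_an.Ch.Stages

/-! The limit of the stages. -/

set_option autoImplicit false

namespace Pool.Agent.Lib.MP_bb8441_an.Ch

open Filter Topology

variable {X : Type*} [NormedAddCommGroup X] [NormedSpace ℂ X]

/-- The total cost of the chains of a stage. -/
noncomputable def cost (w : ℂ → ℝ) (s : CState X) : ℝ :=
  ∑ c ∈ s.A, w c * ∑ i ∈ Finset.range (s.L c), 1 / ((i : ℝ) + 1) ^ 2

theorem cost_nonneg {J : X → X} {σ : ℂ → ℂ} {T : X →L[ℂ] X} {Λ : Set ℂ} {κ w : ℂ → ℝ} {w₀ : ℝ}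
    (h : Ctx J σ T Λ κ w w₀) (s : CState X) (hs : s.Inv J σ T Λ) : 0 ≤ cost w s := by
  refine Finset.sum_nonneg fun c hc => ?_
  exact mul_nonneg (h.w_pos c (hs.A_mem c hc)).le (Finset.sum_nonneg fun i _ => by positivity)

theorem c30_sum (n : ℕ) : ∑ i ∈ Finset.range n, 1 / ((i : ℝ) + 1) ^ 2 ≤ 2 := by
  have key : ∀ n : ℕ, ∑ i ∈ Finset.range (n + 1), 1 / ((i : ℝ) + 1) ^ 2 ≤
      2 - 1 / ((n : ℝ) + 1) := by
    intro n
    induction n with
    | zero => norm_num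
    | succ n ih =>
      rw [Finset.sum_range_succ]
      have hn : (0 : ℝ) ≤ (n : ℝ) := Nat.cast_nonneg n
      have h1 : 1 / (((n + 1 : ℕ) : ℝ) + 1) ^ 2 ≤
          1 / ((n : ℝ) + 1) - 1 / (((n + 1 : ℕ) : ℝ) + 1) := by
        push_cast
        rw [div_sub_div _ _ (by positivity) (by positivity), div_le_div_iff₀ (by positivity)
          (by positivity)]
        nlinarith
      linarith
  rcases n with _ | n
  · simp
  · refine (key n).trans ?_
    have : (0 : ℝ) ≤ 1 / ((n : ℝ) + 1) := by positivity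
    linarith

theorem cost_le {J : X → X} {σ : ℂ → ℂ} {T : X →L[ℂ] X} {Λ : Set ℂ} {κ w : ℂ → ℝ} {w₀ : ℝ}
    (h : Ctx J σ T Λ κ w w₀) (s : CState X) (hs : s.Inv J σ T Λ) : cost w s ≤ 2 * w₀ := by
  calc cost w s ≤ ∑ c ∈ s.A, w c * 2 := by
        refine Finset.sum_le_sum fun c hc => ?_
        exact mul_le_mul_of_nonneg_left (c30_sum _) (h.w_pos c (hs.A_mem c hc)).le
    _ = 2 * ∑ c ∈ s.A, w c := by rw [← Finset.sum_mul, mul_comm]
    _ ≤ 2 * w₀ := by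
        have := h.w_sum s.A hs.A_mem
        linarith

theorem cost_next {κ w : ℂ → ℝ} (ε : ℝ) (x : X) (s s' : CState X) (h : Next κ w ε x s s') :
    cost w s' = cost w s + ∑ c ∈ s.A, w c / ((s.L c : ℝ) + 1) ^ 2 := by
  unfold cost
  rw [← Finset.sum_subset h.A_sub (f := fun c => w c * ∑ i ∈ Finset.range (s'.L c),
    1 / ((i : ℝ) + 1) ^ 2)]
  · rw [← Finset.sum_add_distrib]
    refine Finset.sum_congr rfl fun c hc => ?_
    rw [h.L_eq c hc, Finset.sum_range_succ, mul_add]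
    congr 1
    rw [mul_one_div]
  · intro c hc hc'
    rw [h.L_new c hc hc']
    simp

theorem c30_geom (e : ℝ) (he : 0 < e) (n : ℕ) :
    ∑ k ∈ Finset.range n, e / 2 ^ (k + 1) = e - e / 2 ^ n := by
  induction n with
  | zero => simp
  | succ n ih =>
    rw [Finset.sum_range_succ, ih, pow_succ]
    field_simp
    ring

/-- The operators converge. -/
theorem limit_S [CompleteSpace X] {J : X → X} {σ : ℂ → ℂ} {T : X →L[ℂ] X} {Λ : Set ℂ}
    {κ w : ℂ → ℝ} {w₀ : ℝ} (h : Ctx J σ T Λ κ w w₀) (x : ℕ → X) (e : ℝ) (he : 0 < e)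
    (s : ℕ → CState X) (h0 : (s 0).S = T) (hI : ∀ k, (s k).Inv J σ T Λ)
    (hN : ∀ k, Next κ w (e / 2 ^ (k + 1)) (x k) (s k) (s (k + 1))) :
    ∃ S : X →L[ℂ] X, Tendsto (fun k => (s k).S) atTop (𝓝 S) ∧ ‖S - T‖ ≤ e + 2 * w₀ := by
  set d : ℕ → ℝ := fun k => e / 2 ^ (k + 1) + (cost w (s (k + 1)) - cost w (s k)) with hd
  have hdist : ∀ k, dist ((s k).S) ((s (k + 1)).S) ≤ d k := by
    intro k
    rw [dist_comm, dist_eq_norm, hd]
    have h1 := (hN k).S_near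
    have h2 := cost_next _ _ _ _ (hN k)
    simp only
    linarith
  have hd0 : ∀ k, 0 ≤ d k := fun k => dist_nonneg.trans (hdist k)
  have hsum : ∀ n, ∑ k ∈ Finset.range n, d k ≤ e + 2 * w₀ := by
    intro n
    simp only [hd]
    rw [Finset.sum_add_distrib, c30_geom e he, Finset.sum_range_sub (fun k => cost w (s k))]
    have h1 : 0 ≤ e / 2 ^ n := by positivity
    have h2 := cost_nonneg h (s 0) (hI 0)
    have h3 := cost_le h (s n) (hI n)
    linarith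
  have hS : Summable d := summable_of_sum_range_le hd0 hsum
  obtain ⟨S, hlim⟩ := cauchySeq_tendsto_of_complete (cauchySeq_of_dist_le_of_summable d hdist hS)
  refine ⟨S, hlim, ?_⟩
  have h1 := dist_le_tsum_of_dist_le_of_tendsto₀ d hdist hS hlim
  rw [dist_comm, dist_eq_norm, h0] at h1
  exact h1.trans (Real.tsum_le_of_sum_range_le hd0 hsum)

theorem c31_L {κ w : ℂ → ℝ} (ε : ℕ → ℝ) (x : ℕ → X) (s : ℕ → CState X)
    (hN : ∀ k, Next κ w (ε k) (x k) (s k) (s (k + 1))) (c : ℂ) (k : ℕ) (hc : c ∈ (s k).A) (j : ℕ) :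
    c ∈ (s (k + j)).A ∧ (s (k + j)).L c = (s k).L c + j := by
  induction j with
  | zero => exact ⟨hc, rfl⟩
  | succ j ih =>
    refine ⟨(hN (k + j)).A_sub ih.1, ?_⟩
    have := (hN (k + j)).L_eq c ih.1
    rw [← add_assoc, this, ih.2, add_assoc]

/-- Every node remains, and its chain grows without bound. -/
theorem L_large {κ w : ℂ → ℝ} (ε : ℕ → ℝ) (x : ℕ → X) (s : ℕ → CState X)
    (hN : ∀ k, Next κ w (ε k) (x k) (s k) (s (k + 1))) (c : ℂ) (k : ℕ) (hc : c ∈ (s k).A) (l : ℕ) :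
    ∃ j₀ : ℕ, ∀ j, j₀ ≤ j → c ∈ (s j).A ∧ l ≤ (s j).L c := by
  refine ⟨k + l, fun j hj => ?_⟩
  obtain ⟨i, rfl⟩ := Nat.exists_eq_add_of_le (show k ≤ j by omega)
  obtain ⟨h1, h2⟩ := c31_L ε x s hN c k hc i
  exact ⟨h1, by omega⟩

/-- Every chain length occurs. -/
theorem L_exact {κ w : ℂ → ℝ} (ε : ℕ → ℝ) (x : ℕ → X) (s : ℕ → CState X) (h0 : (s 0).A = ∅)
    (hN : ∀ k, Next κ w (ε k) (x k) (s k) (s (k + 1))) (c : ℂ) (k : ℕ) (hc : c ∈ (s k).A) (l : ℕ) :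
    ∃ j : ℕ, c ∈ (s j).A ∧ (s j).L c = l := by
  have hfirst : ∃ m : ℕ, c ∈ (s m).A ∧ (s m).L c = 0 := by
    induction k with
    | zero => rw [h0] at hc; simp at hc
    | succ k ih =>
      by_cases hk : c ∈ (s k).A
      · exact ih hk
      · exact ⟨k + 1, hc, (hN k).L_new c hc hk⟩
  obtain ⟨m, hm, hm0⟩ := hfirst
  obtain ⟨h1, h2⟩ := c31_L ε x s hN c m hm l
  exact ⟨m + l, h1, by omega⟩

/-- The vectors converge. -/
theorem limit_u [CompleteSpace X] {κ w : ℂ → ℝ} (x : ℕ → X) (e : ℝ) (he : 0 < e)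
    (s : ℕ → CState X) (hN : ∀ k, Next κ w (e / 2 ^ (k + 1)) (x k) (s k) (s (k + 1))) :
    ∃ u : ℂ → ℕ → X, ∀ c, ∀ k, c ∈ (s k).A →
      (∀ l : ℕ, Tendsto (fun j => (s j).u c l) atTop (𝓝 (u c l))) ∧
      (∀ l j : ℕ, c ∈ (s j).A → l ≤ (s j).L c → ‖(s j).u c l - u c l‖ ≤ e) ∧
      (s k).u c 0 = u c 0 := by
  -- persistence
  have hpers : ∀ (c : ℂ) (k : ℕ), c ∈ (s k).A → ∀ l, l ≤ (s k).L c → ∀ n,
      c ∈ (s (n + k)).A ∧ l ≤ (s (n + k)).L c := by
    intro c k hc l hl n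
    obtain ⟨h1, h2⟩ := c31_L (fun k => e / 2 ^ (k + 1)) x s hN c k hc n
    rw [add_comm n k]
    exact ⟨h1, by omega⟩
  have hcau : ∀ (c : ℂ) (k : ℕ), c ∈ (s k).A → ∀ l, l ≤ (s k).L c → ∀ n,
      dist ((s (n + k)).u c l) ((s (n + 1 + k)).u c l) ≤ (e / 2 ^ k) / 2 / 2 ^ n := by
    intro c k hc l hl n
    obtain ⟨h1, h2⟩ := hpers c k hc l hl n
    have h3 := (hN (n + k)).u_near c h1 l h2
    have h4 : n + 1 + k = n + k + 1 := by ring
    rw [dist_comm, dist_eq_norm, h4]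
    refine h3.trans (le_of_eq ?_)
    rw [pow_add, pow_add]; field_simp
  have hlim : ∀ (c : ℂ) (l : ℕ), ∃ y : X, ∀ k, c ∈ (s k).A → l ≤ (s k).L c →
      Tendsto (fun j => (s j).u c l) atTop (𝓝 y) ∧ ‖(s k).u c l - y‖ ≤ e := by
    intro c l
    by_cases hex : ∃ k, c ∈ (s k).A ∧ l ≤ (s k).L c
    · obtain ⟨k₀, hk₀, hl₀⟩ := hex
      obtain ⟨y, hy⟩ := cauchySeq_tendsto_of_complete
        (cauchySeq_of_le_geometric_two (f := fun n => (s (n + k₀)).u c l) (hcau c k₀ hk₀ l hl₀))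
      have hy' : Tendsto (fun j => (s j).u c l) atTop (𝓝 y) :=
        (tendsto_add_atTop_iff_nat (f := fun j => (s j).u c l) k₀).1 hy
      refine ⟨y, fun k hk hl => ⟨hy', ?_⟩⟩
      have h3 : Tendsto (fun n => (s (n + k)).u c l) atTop (𝓝 y) :=
        (tendsto_add_atTop_iff_nat (f := fun j => (s j).u c l) k).2 hy'
      have h4 := dist_le_of_le_geometric_two_of_tendsto₀ (f := fun n => (s (n + k)).u c l)
        (hcau c k hk l hl) h3
      rw [dist_eq_norm] at h4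
      simp only [Nat.zero_add] at h4
      exact h4.trans (div_le_self he.le (one_le_pow₀ (by norm_num)))
    · exact ⟨0, fun k hk hl => absurd ⟨k, hk, hl⟩ hex⟩
  choose u hu using hlim
  refine ⟨u, fun c k hk => ⟨fun l => ?_, fun l j hj hl => (hu c l j hj hl).2, ?_⟩⟩
  · obtain ⟨j₀, hj₀⟩ := L_large (fun k => e / 2 ^ (k + 1)) x s hN c k hk l
    obtain ⟨h1, h2⟩ := hj₀ j₀ le_rfl
    exact (hu c l j₀ h1 h2).1
  · have h1 := (hu c 0 k hk (Nat.zero_le _)).1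
    have h2 : ∀ n, (s (k + n)).u c 0 = (s k).u c 0 := by
      intro n
      induction n with
      | zero => rfl
      | succ n ih =>
        obtain ⟨h3, -⟩ := c31_L (fun k => e / 2 ^ (k + 1)) x s hN c k hk n
        rw [← add_assoc, (hN (k + n)).u_zero c h3, ih]
    have h3 : Tendsto (fun j => (s j).u c 0) atTop (𝓝 ((s k).u c 0)) := by
      apply tendsto_const_nhds.congr'
      filter_upwards [eventually_ge_atTop k] with j hj
      obtain ⟨n, rfl⟩ := Nat.exists_eq_add_of_le hj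
      exact (h2 n).symm
    exact tendsto_nhds_unique h3 h1

/-- The growth of the chains. -/
theorem growth (G : ℕ → ℝ) (hG : ∀ l, 0 ≤ G l) (q : ℝ) (hq : 0 ≤ q)
    (h : ∀ l, G (l + 1) ≤ q * (G l + 3) * ((l : ℝ) + 1) ^ 2 + 1) :
    ∃ C D : ℝ, 0 ≤ C ∧ 0 ≤ D ∧ ∀ l, G l ≤ C * D ^ l * ((l.factorial : ℝ)) ^ 2 := by
  refine ⟨G 0 + 1, 4 * q + 1, by linarith [hG 0], by linarith, fun l => ?_⟩
  induction l with
  | zero => simp
  | succ l ih =>
    set C := G 0 + 1 with hC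
    set D := 4 * q + 1 with hD
    have hC1 : 1 ≤ C := by linarith [hG 0]
    have hD1 : 1 ≤ D ^ l := one_le_pow₀ (by linarith)
    have hf : (1 : ℝ) ≤ (l.factorial : ℝ) := by exact_mod_cast Nat.factorial_pos l
    have hf2 : (1 : ℝ) ≤ (l.factorial : ℝ) ^ 2 := one_le_pow₀ hf
    set F := (l.factorial : ℝ) ^ 2 with hF
    have hl2 : (1 : ℝ) ≤ ((l : ℝ) + 1) ^ 2 := by
      have : (0 : ℝ) ≤ (l : ℝ) := Nat.cast_nonneg l
      nlinarith
    have hCD : 1 ≤ C * D ^ l := by nlinarith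
    have hP : 1 ≤ C * D ^ l * F := by nlinarith
    have hfac : (((l + 1).factorial : ℕ) : ℝ) ^ 2 = F * ((l : ℝ) + 1) ^ 2 := by
      rw [Nat.factorial_succ, hF]; push_cast; ring
    rw [hfac]
    set P := C * D ^ l * F with hPdef
    have h1 : q * (G l + 3) * ((l : ℝ) + 1) ^ 2 ≤ q * (P + 3 * P) * ((l : ℝ) + 1) ^ 2 := by
      gcongr
      · linarith
    have h2 : (1 : ℝ) ≤ P * ((l : ℝ) + 1) ^ 2 := by nlinarith
    calc G (l + 1) ≤ q * (G l + 3) * ((l : ℝ) + 1) ^ 2 + 1 := h l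
      _ ≤ q * (P + 3 * P) * ((l : ℝ) + 1) ^ 2 + P * ((l : ℝ) + 1) ^ 2 := by linarith
      _ = C * D ^ (l + 1) * (F * ((l : ℝ) + 1) ^ 2) := by rw [hPdef, hD]; ring

theorem c33_tendsto (e : ℝ) : Tendsto (fun k : ℕ => e / 2 ^ (k + 1)) atTop (𝓝 0) := by
  have h1 : Tendsto (fun k : ℕ => e * (1 / 2 : ℝ) ^ (k + 1)) atTop (𝓝 (e * 0)) := by
    apply Tendsto.const_mul
    exact (tendsto_add_atTop_iff_nat (f := fun n => (1 / 2 : ℝ) ^ n) 1).2
      (tendsto_pow_atTop_nhds_zero_of_lt_one (by norm_num) (by norm_num))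
  rw [mul_zero] at h1
  refine h1.congr fun k => ?_
  rw [one_div, inv_pow]; rfl

/-- The perturbation theorem. -/
theorem construct [CompleteSpace X] [TopologicalSpace.SeparableSpace X] {J : X → X} {σ : ℂ → ℂ}
    {T : X →L[ℂ] X} {Λ : Set ℂ} {κ w : ℂ → ℝ} {w₀ : ℝ} (h : Ctx J σ T Λ κ w w₀) (e : ℝ)
    (he : 0 < e) (he1 : e ≤ 1) :
    ∃ (S : X →L[ℂ] X) (u : ℂ → ℕ → X) (A : Set ℂ), ‖S - T‖ ≤ e + 2 * w₀ ∧
      (∀ x, S (J x) = J (S x)) ∧ A ⊆ Λ ∧ (∀ c ∈ A, S (u c 0) = c • u c 0) ∧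
      (∀ c ∈ A, ∀ l, S (u c (l + 1)) = c • (u c (l + 1) + u c l)) ∧
      (∀ c ∈ A, ∃ C D : ℝ, 0 ≤ C ∧ 0 ≤ D ∧
        ∀ l, ‖u c l‖ ≤ C * D ^ l * ((l.factorial : ℝ)) ^ 2) ∧
      Dense (Submodule.span ℂ ((fun c => u c 0) '' A) : Set X) := by
  -- a sequence which comes back close to each point infinitely often
  let x : ℕ → X := fun k => TopologicalSpace.denseSeq X (Nat.unpair k).1
  have hx : ∀ y : X, ∀ δ > 0, ∀ n : ℕ, ∃ k, n ≤ k ∧ ‖x k - y‖ < δ := by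
    intro y δ hδ n
    obtain ⟨z, hz, ⟨i, rfl⟩⟩ := Metric.dense_iff.1 (TopologicalSpace.denseRange_denseSeq X) y δ hδ
    refine ⟨Nat.pair i n, Nat.right_le_pair i n, ?_⟩
    simp only [x, Nat.unpair_pair]
    rwa [Metric.mem_ball, dist_eq_norm] at hz
  obtain ⟨s, h0, hA0, hI, hN, hErr⟩ := stages h x (fun k => e / 2 ^ (k + 1))
    (fun k => by positivity)
  obtain ⟨S, hS, hST⟩ := limit_S h x e he s h0 hI hN
  obtain ⟨u, hu⟩ := limit_u x e he s hN
  have hε0 := c33_tendsto e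
  have happ : ∀ (v : ℕ → X) (y : X), Tendsto v atTop (𝓝 y) →
      Tendsto (fun j => (s j).S (v j)) atTop (𝓝 (S y)) := by
    intro v y hv
    exact ((isBoundedBilinearMap_apply (𝕜 := ℂ) (E := X) (F := X)).continuous.tendsto
        (S, y)).comp (hS.prodMk_nhds hv)
  refine ⟨S, u, ⋃ k, ((s k).A : Set ℂ), hST, ?_, ?_, ?_, ?_, ?_, ?_⟩
  · intro y
    have h1 := happ (fun _ => J y) (J y) tendsto_const_nhds
    have h2 : Tendsto (fun j => J ((s j).S y)) atTop (𝓝 (J (S y))) :=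
      (h.sym.continuous.tendsto _).comp (happ (fun _ => y) y tendsto_const_nhds)
    refine tendsto_nhds_unique h1 (h2.congr fun j => ?_)
    rw [(hI j).SJ]
  · intro c hc
    obtain ⟨k, hk⟩ := Set.mem_iUnion.1 hc
    exact (hI k).A_mem c hk
  · intro c hc
    obtain ⟨k, hk⟩ := Set.mem_iUnion.1 hc
    have h1 := (hu c k hk).1 0
    have h2 := happ _ _ h1
    refine tendsto_nhds_unique h2 ((h1.const_smul c).congr' ?_)
    obtain ⟨j₀, hj₀⟩ := L_large (fun k => e / 2 ^ (k + 1)) x s hN c k hk 0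
    filter_upwards [eventually_ge_atTop j₀] with j hj
    exact ((hI j).eig c (hj₀ j hj).1).symm
  · intro c hc l
    obtain ⟨k, hk⟩ := Set.mem_iUnion.1 hc
    have h1 := (hu c k hk).1 l
    have h2 := (hu c k hk).1 (l + 1)
    have h3 := happ _ _ h2
    have h4 : Tendsto (fun j => (s j).res c l) atTop
        (𝓝 (S (u c (l + 1)) - c • u c (l + 1) - c • u c l)) :=
      (h3.sub (h2.const_smul c)).sub (h1.const_smul c)
    have h5 : Tendsto (fun j => (s j).res c l) atTop (𝓝 0) := by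
      rw [tendsto_zero_iff_norm_tendsto_zero]
      refine squeeze_zero' (Eventually.of_forall fun _ => norm_nonneg _) ?_ hε0
      obtain ⟨j₀, hj₀⟩ := L_large (fun k => e / 2 ^ (k + 1)) x s hN c k hk (l + 1)
      filter_upwards [eventually_ge_atTop j₀] with j hj
      exact (hErr j c (hj₀ j hj).1 l (hj₀ j hj).2).le
    have h6 := tendsto_nhds_unique h4 h5
    rw [smul_add]
    rw [sub_sub, sub_eq_zero] at h6
    exact h6
  · intro c hc
    obtain ⟨k, hk⟩ := Set.mem_iUnion.1 hc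
    have hcΛ : c ∈ Λ := (hI k).A_mem c hk
    have hκ := h.κ_pos c hcΛ
    have hw := h.w_pos c hcΛ
    refine growth (fun l => ‖u c l‖) (fun l => norm_nonneg _) (κ c / w c) (by positivity) ?_
    intro l
    obtain ⟨j, hj, hjl⟩ := L_exact (fun k => e / 2 ^ (k + 1)) x s hA0 hN c k hk l
    have h1 := (hu c j hj).2.1 l j hj hjl.ge
    have hj' : c ∈ (s (j + 1)).A := (hN j).A_sub hj
    have hL' : (s (j + 1)).L c = l + 1 := by rw [(hN j).L_eq c hj, hjl]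
    have h2 := (hu c j hj).2.1 (l + 1) (j + 1) hj' hL'.ge
    have h3 := (hN j).u_new c hj
    rw [hjl] at h3
    have h4 : ‖u c (l + 1)‖ ≤ ‖(s (j + 1)).u c (l + 1)‖ + e := by
      have h5 : u c (l + 1) = (s (j + 1)).u c (l + 1) - ((s (j + 1)).u c (l + 1) - u c (l + 1)) := by
        abel
      rw [h5]
      exact (norm_sub_le _ _).trans (by linarith)
    have h6 : ‖(s j).u c l‖ ≤ ‖u c l‖ + e := by
      have h5 : (s j).u c l = u c l + ((s j).u c l - u c l) := by abel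
      rw [h5]
      exact (norm_add_le _ _).trans (by linarith)
    have h7 : e / 2 ^ (j + 1) ≤ 1 :=
      (div_le_self he.le (one_le_pow₀ (by norm_num))).trans he1
    have h8 : κ c * (‖(s j).u c l‖ + e / 2 ^ (j + 1) + 1) * ((l : ℝ) + 1) ^ 2 / w c ≤
        κ c / w c * (‖u c l‖ + 3) * ((l : ℝ) + 1) ^ 2 := by
      have h9 : κ c * (‖(s j).u c l‖ + e / 2 ^ (j + 1) + 1) * ((l : ℝ) + 1) ^ 2 / w c =
          κ c / w c * (‖(s j).u c l‖ + e / 2 ^ (j + 1) + 1) * ((l : ℝ) + 1) ^ 2 := by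
        field_simp
      rw [h9]
      have h10 : ‖(s j).u c l‖ + e / 2 ^ (j + 1) + 1 ≤ ‖u c l‖ + 3 := by linarith
      gcongr
    linarith
  · rw [Metric.dense_iff]
    intro y δ hδ
    obtain ⟨n, hn⟩ := (Metric.tendsto_atTop.1 hε0) (δ / 2) (half_pos hδ)
    obtain ⟨k, hnk, hk⟩ := hx y (δ / 2) (half_pos hδ) n
    obtain ⟨z, hz, hzk⟩ := (hN k).approx
    refine ⟨z, ?_, ?_⟩
    · rw [Metric.mem_ball, dist_eq_norm]
      have h1 := hn k hnk
      rw [dist_zero_right, Real.norm_of_nonneg (by positivity)] at h1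
      have h2 : z - y = (x k - y) - (x k - z) := by abel
      rw [h2]
      refine (norm_sub_le _ _).trans_lt ?_
      linarith
    · have h3 : (fun c => (s (k + 1)).u c 0) '' ((s (k + 1)).A : Set ℂ) ⊆
          (fun c => u c 0) '' (⋃ k, ((s k).A : Set ℂ)) := by
        rintro _ ⟨a, ha, rfl⟩
        exact ⟨a, Set.mem_iUnion.2 ⟨k + 1, ha⟩, ((hu a (k + 1) ha).2.2).symm⟩
      exact Submodule.span_mono h3 hz

end Pool.Agent.Lib.MP_bb8441_an.Ch
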