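import Pool.Agent.Lib.MP_bb8441_an.Ch.Limit
import Pool.Agent.Lib.MP_bb8441_an.Ch.Almost
import Pool.Agent.Lib.MP_bb8441_an.Ch.Fhc
import Pool.Agent.Lib.MP_bb8441_an.Interior
import Pool.Agent.Lib.MP_bb8441_an.RealMain

/-! The main theorem: a space which supports a chaotic operator supports an operator which is
chaotic and frequently hypercyclic. -/

set_option autoImplicit false

namespace Pool.Agent.Lib.MP_bb8441_an.Ch

section Complex

variable {X : Type*} [NormedAddCommGroup X] [NormedSpace ℂ X]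

theorem chaotic_of_construct (S : X →L[ℂ] X) (u : ℂ → ℕ → X) (A : Set ℂ)
    (hA : ∀ c ∈ A, ∃ m : ℕ, 1 ≤ m ∧ c ^ m = 1) (h0 : ∀ c ∈ A, S (u c 0) = c • u c 0)
    (hd : Dense (Submodule.span ℂ ((fun c => u c 0) '' A) : Set X))
    (hF : FrequentlyHypercyclic S) : Chaotic S := by
  refine ⟨hyp_of_fhc S hF, periodic_dense S ?_⟩
  refine hd.mono (SetLike.coe_subset_coe.mpr (Submodule.span_mono ?_))
  rintro _ ⟨c, hc, rfl⟩
  exact ⟨c, hA c hc, h0 c hc⟩

/-- The construction for a symmetry `J`. -/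
theorem main_sym [CompleteSpace X] [TopologicalSpace.SeparableSpace X] (J : X → X) (σ : ℂ → ℂ)
    (hJ : IsSym J σ) (T : X →L[ℂ] X) (hT : ∀ x, T (J x) = J (T x)) (Λ : Set ℂ)
    (hroot : ∀ c ∈ Λ, ∃ m : ℕ, 1 ≤ m ∧ c ^ m = 1)
    (H1 : ∀ c : ℂ, DenseRange fun x => T x - c • x)
    (H2 : Dense (Submodule.span ℂ {x : X | ∃ c ∈ Λ, T x = c • x} : Set X))
    (hΛσ : ∀ c ∈ Λ, σ c ∈ Λ) (hfix : ∀ c ∈ Λ, σ c = c → ∀ x, J x = x)
    (κ : ℂ → ℝ) (hκ : ∀ c ∈ Λ, 0 < κ c) (hκσ : ∀ c ∈ Λ, κ (σ c) = κ c)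
    (hkey : HasKey J T Λ κ) (ε : ℝ) (hε : 0 < ε) :
    ∃ S : X →L[ℂ] X, (∀ x, S (J x) = J (S x)) ∧ ‖S - T‖ < ε ∧ Chaotic S ∧
      FrequentlyHypercyclic S := by
  set e : ℝ := min 1 (ε / 4) with he
  have he0 : 0 < e := lt_min one_pos (by positivity)
  have he1 : e ≤ 1 := min_le_left _ _
  have heε : e ≤ ε / 4 := min_le_right _ _
  obtain ⟨w, hw0, hwσ, hws⟩ := exists_weight Λ (roots_countable.mono hroot) σ hJ.σσ hΛσ e he0
  have ctx : Ctx J σ T Λ κ w e :=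
    { sym := hJ, TJ := hT, H1 := H1, H2 := H2
      Λ_norm := fun c hc => norm_of_root (hroot c hc)
      Λ_σ := hΛσ, fix := hfix, κ_pos := hκ, κ_σ := hκσ, w_pos := hw0, w_σ := hwσ, w_sum := hws
      key := hkey }
  obtain ⟨S, u, A, h1, h2, h3, h4, h5, h6, h7⟩ := construct ctx e he0 he1
  have hF : FrequentlyHypercyclic S :=
    fhc_of_chains S u A (fun c hc => hroot c (h3 hc)) h4 h5 h6 h7
  refine ⟨S, h2, by linarith, chaotic_of_construct S u A (fun c hc => hroot c (h3 hc)) h4 h7 hF, hF⟩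

/-- A chaotic operator whose spectrum has empty interior is a norm limit of operators which are
chaotic and frequently hypercyclic. -/
theorem complex_near [CompleteSpace X] (T : X →L[ℂ] X) (hT : Chaotic T)
    (hint : ¬ (interior (spectrum ℂ T)).Nonempty) (ε : ℝ) (hε : 0 < ε) :
    ∃ S : X →L[ℂ] X, ‖S - T‖ < ε ∧ Chaotic S ∧ FrequentlyHypercyclic S := by
  have := hyp_separable T hT.1
  have H1 := hyp_denseRange T hT.1
  have H2 := chaotic_eig_span T hT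
  set Λ : Set ℂ := {c : ℂ | (∃ m : ℕ, 1 ≤ m ∧ c ^ m = 1) ∧ ∃ x : X, x ≠ 0 ∧ T x = c • x} with hΛ
  have hd : Dense (Submodule.span ℂ {x : X | ∃ c ∈ Λ, T x = c • x} : Set X) := by
    refine H2.mono (SetLike.coe_subset_coe.mpr (Submodule.span_le.mpr ?_))
    rintro x ⟨c, hc, hx⟩
    by_cases h0 : x = 0
    · rw [h0]; exact Submodule.zero_mem _
    · exact Submodule.subset_span ⟨c, ⟨hc, x, h0, hx⟩, hx⟩
  obtain ⟨S, -, hSn, hS, hS'⟩ := main_sym (id : X → X) id isSym_id T (fun x => rfl) Λ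
    (fun c hc => hc.1) H1 hd (fun c hc => hc) (fun c _ _ x => rfl) (fun _ => 3)
    (fun _ _ => by norm_num) (fun _ _ => rfl)
    (key_id T Λ H1 fun c hc hs => by
      obtain ⟨hc1, x, hx, hTx⟩ := hc
      exact hint (interior_of_surjective T c hs x hx hTx)) ε hε
  exact ⟨S, hSn, hS, hS'⟩

theorem complex_main [CompleteSpace X] (T : X →L[ℂ] X) (hT : Chaotic T) :
    ∃ S : X →L[ℂ] X, Chaotic S ∧ FrequentlyHypercyclic S := by
  by_cases hint : (interior (spectrum ℂ T)).Nonempty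
  · refine main_interior T hT.1 ((chaotic_eig_span T hT).mono
      (SetLike.coe_subset_coe.mpr (Submodule.span_mono ?_))) hint
    rintro x ⟨c, hc, hx⟩
    exact ⟨c, norm_of_root hc, hx⟩
  · obtain ⟨S, -, h⟩ := complex_near T hT hint 1 one_pos
    exact ⟨S, h⟩

/-- The same with a conjugation. -/
theorem conj_near [CompleteSpace X] [TopologicalSpace.SeparableSpace X]
    (J : X ≃ₗᵢ⋆[ℂ] X) (hJ : ∀ x, J (J x) = x)
    (T : X →L[ℂ] X) (hT : ∀ x, T (J x) = J (T x))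
    (H1 : ∀ c : ℂ, DenseRange fun x => T x - c • x)
    (H2 : Dense (Submodule.span ℂ {x : X | ∃ c : ℂ, (∃ m : ℕ, 1 ≤ m ∧ c ^ m = 1) ∧
      T x = c • x} : Set X))
    (hint : ¬ (interior (spectrum ℂ T)).Nonempty) (ε : ℝ) (hε : 0 < ε) :
    ∃ S : X →L[ℂ] X, (∀ x, S (J x) = J (S x)) ∧ ‖S - T‖ < ε ∧ Chaotic S ∧
      FrequentlyHypercyclic S := by
  classical
  set Λ : Set ℂ := {c : ℂ | (∃ m : ℕ, 1 ≤ m ∧ c ^ m = 1) ∧ (c ≠ 1 ∧ c ≠ -1) ∧
    ∃ x : X, x ≠ 0 ∧ T x = c • x} with hΛ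
  have H2' : Dense (Submodule.span ℂ {x : X | ∃ c ∈ {c : ℂ | ∃ m : ℕ, 1 ≤ m ∧ c ^ m = 1},
    T x = c • x} : Set X) := H2
  have hrem := dense_remove T {c : ℂ | ∃ m : ℕ, 1 ≤ m ∧ c ^ m = 1} {1, -1}
    (fun c _ => H1 c) H2'
  have hd : Dense (Submodule.span ℂ {x : X | ∃ c ∈ Λ, T x = c • x} : Set X) := by
    refine hrem.mono (SetLike.coe_subset_coe.mpr (Submodule.span_le.mpr ?_))
    rintro x ⟨c, hc, hcF, hx⟩
    rw [Finset.mem_insert, Finset.mem_singleton, not_or] at hcF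
    by_cases h0 : x = 0
    · rw [h0]; exact Submodule.zero_mem _
    · exact Submodule.subset_span ⟨c, ⟨hc, hcF, x, h0, hx⟩, hx⟩
  have hcc : ∀ c ∈ Λ, (starRingEnd ℂ) c ≠ c := by
    rintro c ⟨hc1, ⟨hc2, hc3⟩, -⟩ h
    have hn := norm_of_root hc1
    obtain ⟨r, hr⟩ := Complex.conj_eq_iff_real.1 h
    rw [hr, Complex.norm_real, Real.norm_eq_abs] at hn
    rcases (abs_eq one_pos.le).1 hn with h1 | h1
    · apply hc2
      rw [hr, h1, Complex.ofReal_one]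
    · apply hc3
      rw [hr, h1, Complex.ofReal_neg, Complex.ofReal_one]
  have hΛσ : ∀ c ∈ Λ, (starRingEnd ℂ) c ∈ Λ := by
    rintro c ⟨⟨m, hm, hcm⟩, ⟨hc2, hc3⟩, x, hx, hTx⟩
    refine ⟨⟨m, hm, by rw [← map_pow, hcm, map_one]⟩, ⟨?_, ?_⟩, J x, ?_, ?_⟩
    · intro h
      apply hc2
      have := congrArg (starRingEnd ℂ) h
      rwa [Complex.conj_conj, map_one] at this
    · intro h
      apply hc3
      have := congrArg (starRingEnd ℂ) h
      rwa [Complex.conj_conj, map_neg, map_one] at this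
    · intro h
      apply hx
      rw [← hJ x, h, map_zero]
    · rw [hT, hTx, map_smulₛₗ]
  have hpos : ∀ c ∈ Λ, 0 < ‖c - (starRingEnd ℂ) c‖ := fun c hc =>
    norm_pos_iff.2 (sub_ne_zero.2 (Ne.symm (hcc c hc)))
  exact main_sym (J : X → X) (starRingEnd ℂ) (isSym_conj J hJ) T hT Λ
    (fun c hc => hc.1) H1 hd hΛσ (fun c hc h => absurd h (hcc c hc))
    (fun c => 24 * (‖T‖ + 1) / ‖c - (starRingEnd ℂ) c‖)
    (fun c hc => by
      have := hpos c hc
      positivity)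
    (fun c _ => by
      simp only [Complex.conj_conj]
      rw [norm_sub_rev])
    (key_conj J hJ T hT Λ H1 (fun c hc => ⟨norm_of_root hc.1, hcc c hc⟩) fun c hc hs => by
      obtain ⟨hc1, -, x, hx, hTx⟩ := hc
      exact hint (interior_of_surjective T c hs x hx hTx)) ε hε

end Complex

section Real

variable {X : Type*} [NormedAddCommGroup X] [NormedSpace ℝ X] [CompleteSpace X]

theorem real_near (T : X →L[ℝ] X) (hT : Chaotic T)
    (hint : ¬ (interior (complexSpectrum T)).Nonempty) (ε : ℝ) (hε : 0 < ε) :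
    ∃ S : X →L[ℝ] X, ‖S - T‖ < ε ∧ Chaotic S ∧ FrequentlyHypercyclic S := by
  have := hyp_separable_real T hT.1
  have := Cx.separable (X := X)
  have hspec : spectrum ℂ (Cx.map T) = complexSpectrum T := by
    ext z
    exact Cx.mem_spectrum_map T z
  obtain ⟨S, hSJ, hSn, hSc, hSf⟩ := conj_near (X := Cx X) Cx.conj Cx.conj_conj (Cx.map T)
    (Cx.map_conj T) (Cx.denseRange_map T hT.1) (Cx.eig_span_map T hT) (by rw [hspec]; exact hint)
    ε hε
  obtain ⟨S₀, rfl⟩ := Cx.exists_map S hSJ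
  exact ⟨S₀, (Cx.norm_map_sub S₀ T).trans_lt hSn,
    ⟨Cx.hypercyclic_of_map S₀ hSc.1, Cx.periodic_of_map S₀ hSc.2⟩, Cx.fhc_of_map S₀ hSf⟩

theorem real_main (T : X →L[ℝ] X) (hT : Chaotic T) :
    ∃ S : X →L[ℝ] X, Chaotic S ∧ FrequentlyHypercyclic S := by
  by_cases hint : (interior (complexSpectrum T)).Nonempty
  · exact real_interior T hT hint
  · obtain ⟨S, -, h⟩ := real_near T hT hint 1 one_pos
    exact ⟨S, h⟩

end Real

end Pool.Agent.Lib.MP_bb8441_an.Ch
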