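import Pool.Agent.Lib.MP_bb8441_an.Ch.Basic
import Pool.Agent.Lib.MP_bb8441_an.AddNodes

/-! Adding nodes. -/

set_option autoImplicit false

namespace Pool.Agent.Lib.MP_bb8441_an.Ch

variable {X : Type*} [NormedAddCommGroup X] [NormedSpace ℂ X]

/-- One eigenvector of `T` for a new eigenvalue `c` is brought into the span of the nodes. -/
theorem add_node {J : X → X} {σ : ℂ → ℂ} {T : X →L[ℂ] X} {Λ : Set ℂ} {κ w : ℂ → ℝ} {w₀ : ℝ}
    (h : Ctx J σ T Λ κ w w₀) (s : CState X) (hs : s.Inv J σ T Λ) (c : ℂ) (hcΛ : c ∈ Λ)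
    (hc : c ∉ s.A) (e : X) (he : T e = c • e) :
    ∃ s' : CState X, s'.Inv J σ T Λ ∧ s.Sub s' ∧ s'.S = s.S ∧
      (∀ b ∈ s.A, s'.u b = s.u b) ∧ s'.A ⊆ insert c (insert (σ c) s.A) ∧ e ∈ s'.V := by
  classical
  by_cases hmem : e ∈ s.V
  · exact ⟨s, hs, Sub.refl' s, rfl, fun _ _ => rfl,
      (Finset.subset_insert _ _).trans (Finset.subset_insert _ _), hmem⟩
  · have hJ := h.sym
    set c' : ℂ := σ c with hc'def
    have hcc' : σ c' = c := hJ.σσ c
    have hcΛ' : c' ∈ Λ := h.Λ_σ c hcΛ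
    have hcA' : c' ∉ s.A := fun h0 => hc (by have := hs.A_σ c' h0; rwa [hcc'] at this)
    obtain ⟨g, hgW, hg⟩ := solve_span s.S (fun b => s.u b 0) s.A hs.eig c hc _
      (Submodule.neg_mem _ (hs.range e))
    have hS : s.S (e + g) = c • (e + g) := by
      have h3 : s.S g = c • g - (s.S e - T e) := by
        rw [sub_eq_iff_eq_add] at hg
        rw [hg]; abel
      rw [map_add, h3, he, smul_add]
      abel
    have hSJ : s.S (J (e + g)) = c' • J (e + g) := by
      rw [hs.SJ, hS, hJ.smul]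
    set u' : ℂ → ℕ → X := fun b l =>
      if b = c then e + g else if b = c' then J (e + g) else s.u b l with hu'
    have hu'c : ∀ l, u' c l = e + g := fun l => by simp [hu']
    have hu'c' : ∀ l, u' c' l = J (e + g) := by
      intro l
      by_cases hcc : c' = c
      · rw [hcc, hu'c l, h.fix c hcΛ hcc]
      · simp [hu', hcc]
    have hu'o : ∀ b ∈ s.A, u' b = s.u b := by
      intro b hb
      have h1 : b ≠ c := by rintro rfl; exact hc hb
      have h2 : b ≠ c' := by rintro rfl; exact hcA' hb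
      funext l
      simp [hu', h1, h2]
    set A' : Finset ℂ := insert c (insert c' s.A) with hA'
    have hAcases : ∀ b ∈ A', b = c ∨ b = c' ∨ b ∈ s.A := by
      intro b hb
      rw [hA', Finset.mem_insert, Finset.mem_insert] at hb
      exact hb
    have hAsub : s.A ⊆ A' := (Finset.subset_insert _ _).trans (Finset.subset_insert _ _)
    set L' : ℂ → ℕ := fun b => if b ∈ s.A then s.L b else 0 with hL'
    have hL'o : ∀ b ∈ s.A, L' b = s.L b := fun b hb => by simp [hL', hb]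
    have hL'n : ∀ b, b ∉ s.A → L' b = 0 := fun b hb => by simp [hL', hb]
    set s' : CState X := ⟨s.S, u', A', L'⟩ with hs'
    have hVle : s.V ≤ s'.V := V_mono s s' hAsub (fun b hb => by
      show u' b 0 = s.u b 0
      rw [hu'o b hb])
    refine ⟨s', ?_, ?_, rfl, hu'o, subset_rfl, ?_⟩
    · refine { A_mem := ?_, eig := ?_, range := fun x => hVle (hs.range x), SJ := hs.SJ,
               A_σ := ?_, L_σ := ?_, u_σ := ?_ }
      · intro b hb
        rcases hAcases b hb with rfl | rfl | hb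
        · exact hcΛ
        · exact hcΛ'
        · exact hs.A_mem b hb
      · intro b hb
        show s.S (u' b 0) = b • u' b 0
        rcases hAcases b hb with rfl | rfl | hb
        · rw [hu'c, hS]
        · rw [hu'c', hSJ]
        · rw [hu'o b hb]
          exact hs.eig b hb
      · intro b hb
        show σ b ∈ A'
        rcases hAcases b hb with rfl | rfl | hb
        · simp [hA', hc'def]
        · rw [hcc']
          simp [hA']
        · exact hAsub (hs.A_σ b hb)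
      · intro b hb
        show L' (σ b) = L' b
        rcases hAcases b hb with rfl | rfl | hb
        · rw [hL'n _ hcA', hL'n _ hc]
        · rw [hcc', hL'n _ hcA', hL'n _ hc]
        · rw [hL'o b hb, hL'o _ (hs.A_σ b hb), hs.L_σ b hb]
      · intro b hb l hl
        show u' (σ b) l = J (u' b l)
        rcases hAcases b hb with rfl | rfl | hb
        · rw [← hc'def, hu'c', hu'c]
        · rw [hcc', hu'c', hu'c, hJ.invol]
        · rw [hu'o b hb, hu'o _ (hs.A_σ b hb)]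
          exact hs.u_σ b hb l (by rw [← hL'o b hb]; exact hl)
    · refine ⟨hAsub, hL'o, ?_⟩
      intro b _ hb'
      exact hL'n b hb'
    · have h1 : (e + g) - g ∈ s'.V := by
        refine Submodule.sub_mem _ ?_ (hVle hgW)
        have h2 := mem_V s' c (by simp [hs', hA'])
        have h3 : s'.u c 0 = e + g := hu'c 0
        rwa [h3] at h2
      rwa [add_sub_cancel_right] at h1

/-- Decomposition into fixed vectors of the symmetry. -/
theorem fixed_decomp {J : X → X} {σ : ℂ → ℂ} (hJ : IsSym J σ) (x : X) :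
    ∃ x₁ x₂ : X, J x₁ = x₁ ∧ J x₂ = x₂ ∧ x = x₁ + Complex.I • x₂ := by
  rcases hJ.dich with h | h
  · exact ⟨x, 0, h x, h 0, by simp⟩
  · refine ⟨((1 / 2 : ℝ) : ℂ) • (x + J x), -(Complex.I • (((1 / 2 : ℝ) : ℂ) • (x - J x))), ?_, ?_, ?_⟩
    · rw [hJ.smul_real, hJ.add, hJ.invol, add_comm]
    · rw [hJ.neg, h, hJ.smul_real, hJ.sub, hJ.invol, neg_neg, ← smul_neg, ← smul_neg, neg_sub]
    · rw [smul_neg, smul_smul, Complex.I_mul_I]
      push_cast
      module

/-- A symmetric finite family of eigenvectors of `T` for new eigenvalues is brought into the span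
of the nodes. -/
theorem add_family {J : X → X} {σ : ℂ → ℂ} {T : X →L[ℂ] X} {Λ : Set ℂ} {κ w : ℂ → ℝ} {w₀ : ℝ}
    (h : Ctx J σ T Λ κ w w₀) (s : CState X) (hs : s.Inv J σ T Λ) (G : Finset ℂ) (e : ℂ → X)
    (hG : ∀ c ∈ G, c ∈ Λ ∧ c ∉ s.A ∧ T (e c) = c • e c) (hσ : ∀ c ∈ G, e (σ c) = J (e c)) :
    ∃ s' : CState X, s'.Inv J σ T Λ ∧ s.Sub s' ∧ s'.S = s.S ∧ (∀ b ∈ s.A, s'.u b = s.u b) ∧
      ∀ c ∈ G, e c ∈ s'.V := by
  classical
  have key : ∀ K : Finset ℂ, K ⊆ G → ∃ s' : CState X, s'.Inv J σ T Λ ∧ s.Sub s' ∧ s'.S = s.S ∧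
      (∀ b ∈ s.A, s'.u b = s.u b) ∧ s'.A ⊆ s.A ∪ (K ∪ K.image σ) ∧
      ∀ c ∈ K, e c ∈ s'.V := by
    intro K
    induction K using Finset.induction_on with
    | empty =>
      intro _
      exact ⟨s, hs, Sub.refl' s, rfl, fun _ _ => rfl, by simp, by simp⟩
    | insert c K hc ih =>
      intro hsub
      obtain ⟨s', h1, h2, h3, h4, h5, h6⟩ := ih (fun d hd => hsub (Finset.mem_insert_of_mem hd))
      have hcG : c ∈ G := hsub (Finset.mem_insert_self c K)
      obtain ⟨hcΛ, hcA0, hcT⟩ := hG c hcG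
      have hsubset : s.A ∪ (K ∪ K.image σ) ⊆
          s.A ∪ (insert c K ∪ (insert c K).image σ) := by
        apply Finset.union_subset_union_right
        apply Finset.union_subset_union (Finset.subset_insert _ _)
        exact Finset.image_subset_image (Finset.subset_insert _ _)
      by_cases hcA : c ∈ s'.A
      · refine ⟨s', h1, h2, h3, h4, h5.trans hsubset, ?_⟩
        intro d hd
        rcases Finset.mem_insert.1 hd with rfl | hd
        · have h7 := h5 hcA
          simp only [Finset.mem_union, Finset.mem_image] at h7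
          rcases h7 with h7 | h7 | ⟨b, hb, hbd⟩
          · exact absurd h7 hcA0
          · exact absurd h7 hc
          · rw [← hbd, hσ b (hsub (Finset.mem_insert_of_mem hb))]
            exact V_J h.sym T Λ s' h1 _ (h6 b hb)
        · exact h6 d hd
      · obtain ⟨s'', k1, k2, k3, k4, k5, k6⟩ := add_node h s' h1 c hcΛ hcA (e c) hcT
        refine ⟨s'', k1, Sub.trans' _ _ _ h2 k2, k3.trans h3, ?_, ?_, ?_⟩
        · intro b hb
          rw [k4 b (h2.A_sub hb), h4 b hb]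
        · intro d hd
          have h7 := k5 hd
          rcases Finset.mem_insert.1 h7 with rfl | h7
          · simp
          · rcases Finset.mem_insert.1 h7 with rfl | h7
            · simp
            · exact hsubset (h5 h7)
        · intro d hd
          rcases Finset.mem_insert.1 hd with rfl | hd
          · exact k6
          · exact V_mono s' s'' k2.A_sub (fun b hb => by rw [k4 b hb]) (h6 d hd)
  obtain ⟨s', h1, h2, h3, h4, _, h6⟩ := key G (le_refl _)
  exact ⟨s', h1, h2, h3, h4, h6⟩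

/-- Approximation of fixed vectors of the symmetry. -/
theorem add_nodes_fixed {J : X → X} {σ : ℂ → ℂ} {T : X →L[ℂ] X} {Λ : Set ℂ} {κ w : ℂ → ℝ}
    {w₀ : ℝ} (h : Ctx J σ T Λ κ w w₀) (s : CState X) (hs : s.Inv J σ T Λ) (x : X) (hx : J x = x)
    (ε : ℝ) (hε : 0 < ε) :
    ∃ s' : CState X, s'.Inv J σ T Λ ∧ s.Sub s' ∧ s'.S = s.S ∧ (∀ b ∈ s.A, s'.u b = s.u b) ∧
      ∃ y ∈ s'.V, ‖x - y‖ < ε := by
  classical
  have hJ := h.sym
  have hd := dense_remove T Λ s.A (fun c _ => h.H1 c) h.H2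
  obtain ⟨y, hy, hxy⟩ := Metric.dense_iff.1 hd x ε hε
  rw [Metric.mem_ball, dist_comm, dist_eq_norm] at hy
  set Λ' : Set ℂ := {c | c ∈ Λ ∧ c ∉ s.A} with hΛ'
  have hset : {x : X | ∃ c ∈ Λ, c ∉ s.A ∧ T x = c • x} =
      {x : X | ∃ c ∈ Λ', T x = c • x} := by
    ext z
    constructor
    · rintro ⟨c, h1, h2, h3⟩
      exact ⟨c, ⟨h1, h2⟩, h3⟩
    · rintro ⟨c, ⟨h1, h2⟩, h3⟩
      exact ⟨c, h1, h2, h3⟩
  rw [hset] at hxy
  obtain ⟨G, e, hGe, hsum⟩ := span_eig_sum T Λ' y hxy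
  -- the symmetrised family
  set e₀ : ℂ → X := fun c => if c ∈ G then e c else 0 with he₀
  have he₀T : ∀ c, T (e₀ c) = c • e₀ c := by
    intro c
    simp only [he₀]
    split_ifs with h
    · exact (hGe c h).2
    · simp
  set ê : ℂ → X := fun c => ((1 / 2 : ℝ) : ℂ) • (e₀ c + J (e₀ (σ c))) with hê
  have hêJ : ∀ c, ê (σ c) = J (ê c) := by
    intro c
    simp only [hê]
    rw [hJ.smul_real, hJ.add, hJ.invol, hJ.σσ, add_comm]
  have hêT : ∀ c, T (ê c) = c • ê c := by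
    intro c
    simp only [hê]
    rw [map_smul, map_add, h.TJ, he₀T, he₀T, hJ.smul, hJ.σσ, ← smul_add, smul_comm]
  set G' : Finset ℂ := G ∪ G.image σ with hG'
  have hG'J : ∀ c ∈ G', σ c ∈ G' := by
    intro c hc
    simp only [hG', Finset.mem_union, Finset.mem_image] at hc ⊢
    rcases hc with hc | ⟨b, hb, rfl⟩
    · exact Or.inr ⟨c, hc, rfl⟩
    · rw [hJ.σσ]
      exact Or.inl hb
  have hG'Λ : ∀ c ∈ G', c ∈ Λ' := by
    intro c hc
    simp only [hG', Finset.mem_union, Finset.mem_image] at hc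
    rcases hc with hc | ⟨b, hb, rfl⟩
    · exact (hGe c hc).1
    · obtain ⟨⟨h1, h2⟩, _⟩ := hGe b hb
      refine ⟨h.Λ_σ b h1, fun h3 => h2 ?_⟩
      have := hs.A_σ _ h3
      rwa [hJ.σσ] at this
  have hsum1 : ∑ c ∈ G', e₀ c = y := by
    rw [hsum, hG']
    have h1 : ∑ c ∈ G, e c = ∑ c ∈ G, e₀ c := by
      refine Finset.sum_congr rfl fun c hc => ?_
      simp only [he₀, if_pos hc]
    rw [h1]
    symm
    refine Finset.sum_subset Finset.subset_union_left fun c _ hc => ?_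
    simp only [he₀, if_neg hc]
  have hsum2 : ∑ c ∈ G', e₀ (σ c) = y := by
    rw [← hsum1]
    refine Finset.sum_nbij' σ σ hG'J hG'J ?_ ?_ ?_
    · intro c _
      exact hJ.σσ c
    · intro c _
      exact hJ.σσ c
    · intro c _
      rfl
  have hJsum : ∑ c ∈ G', J (e₀ (σ c)) = J (∑ c ∈ G', e₀ (σ c)) := by
    let Jm : X →+ X := { toFun := J, map_zero' := hJ.zero, map_add' := hJ.add }
    exact (map_sum Jm (fun c => e₀ (σ c)) G').symm
  have hsum3 : ∑ c ∈ G', ê c = ((1 / 2 : ℝ) : ℂ) • (y + J y) := by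
    simp only [hê]
    rw [← Finset.smul_sum, Finset.sum_add_distrib, hsum1, hJsum, hsum2]
  obtain ⟨s', h1, h2, h3, h4, h5⟩ := add_family h s hs G' ê
    (fun c hc => ⟨(hG'Λ c hc).1, (hG'Λ c hc).2, hêT c⟩) (fun c _ => hêJ c)
  refine ⟨s', h1, h2, h3, h4, ((1 / 2 : ℝ) : ℂ) • (y + J y), ?_, ?_⟩
  · rw [← hsum3]
    exact Submodule.sum_mem _ (fun c hc => h5 c hc)
  · have h5 : x - ((1 / 2 : ℝ) : ℂ) • (y + J y) = ((1 / 2 : ℝ) : ℂ) • ((x - y) + J (x - y)) := by
      rw [hJ.sub, hx]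
      push_cast
      module
    have h6 : ‖J (x - y)‖ = ‖x - y‖ := hJ.norm _
    have h7 : ‖(x - y) + J (x - y)‖ ≤ ‖x - y‖ + ‖x - y‖ := by
      calc ‖(x - y) + J (x - y)‖ ≤ ‖x - y‖ + ‖J (x - y)‖ := norm_add_le _ _
        _ = _ := by rw [h6]
    rw [h5, norm_smul]
    have h8 : ‖((1 / 2 : ℝ) : ℂ)‖ = 1 / 2 := by
      rw [Complex.norm_real]
      norm_num
    rw [h8]
    linarith

/-- Every vector is approximated by the span of the nodes of an extension. -/
theorem add_nodes {J : X → X} {σ : ℂ → ℂ} {T : X →L[ℂ] X} {Λ : Set ℂ} {κ w : ℂ → ℝ} {w₀ : ℝ}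
    (h : Ctx J σ T Λ κ w w₀) (s : CState X) (hs : s.Inv J σ T Λ) (x : X) (ε : ℝ) (hε : 0 < ε) :
    ∃ s' : CState X, s'.Inv J σ T Λ ∧ s.Sub s' ∧ s'.S = s.S ∧ (∀ b ∈ s.A, s'.u b = s.u b) ∧
      ∃ y ∈ s'.V, ‖x - y‖ < ε := by
  obtain ⟨x₁, x₂, hJ1, hJ2, hx12⟩ := fixed_decomp h.sym x
  obtain ⟨s₁, h1, h2, h3, h4, y₁, h5, h6⟩ :=
    add_nodes_fixed h s hs x₁ hJ1 (ε / 2) (half_pos hε)
  obtain ⟨s₂, k1, k2, k3, k4, y₂, k5, k6⟩ :=
    add_nodes_fixed h s₁ h1 x₂ hJ2 (ε / 2) (half_pos hε)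
  refine ⟨s₂, k1, Sub.trans' _ _ _ h2 k2, k3.trans h3, ?_, y₁ + Complex.I • y₂, ?_, ?_⟩
  · intro b hb
    rw [k4 b (h2.A_sub hb), h4 b hb]
  · exact Submodule.add_mem _ (V_mono s₁ s₂ k2.A_sub (fun b hb => by rw [k4 b hb]) h5)
      (Submodule.smul_mem _ _ k5)
  · have h7 : x - (y₁ + Complex.I • y₂) = (x₁ - y₁) + Complex.I • (x₂ - y₂) := by
      rw [smul_sub]
      conv_lhs => rw [hx12]
      abel
    rw [h7]
    calc ‖(x₁ - y₁) + Complex.I • (x₂ - y₂)‖ ≤ ‖x₁ - y₁‖ + ‖Complex.I • (x₂ - y₂)‖ :=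
          norm_add_le _ _
      _ = ‖x₁ - y₁‖ + ‖x₂ - y₂‖ := by rw [norm_smul, Complex.norm_I, one_mul]
      _ < ε := by linarith

end Pool.Agent.Lib.MP_bb8441_an.Ch
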