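import Mathlib

/-! Weighted coefficient norms of polynomials. -/

set_option autoImplicit false

namespace Pool.Agent.Lib.MP_bb8441_an.Ch

open Polynomial

/-- The weighted sum `∑ |p_i| r ^ i`. -/
noncomputable def nu (r : ℝ) (P : ℂ[X]) : ℝ := P.sum fun i a => ‖a‖ * r ^ i

theorem nu_eq_sum (r : ℝ) (P : ℂ[X]) (n : ℕ) (hn : P.natDegree < n) :
    nu r P = ∑ i ∈ Finset.range n, ‖P.coeff i‖ * r ^ i := by
  unfold nu
  exact P.sum_over_range' (by intro i; simp) n hn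

theorem nu_nonneg (r : ℝ) (hr : 0 ≤ r) (P : ℂ[X]) : 0 ≤ nu r P := by
  unfold nu
  rw [Polynomial.sum_def]
  exact Finset.sum_nonneg fun i _ => mul_nonneg (norm_nonneg _) (pow_nonneg hr i)

theorem nu_C (r : ℝ) (a : ℂ) : nu r (C a) = ‖a‖ := by
  unfold nu
  rw [Polynomial.sum_C_index (by simp)]
  simp

private theorem c1_zero (r : ℝ) : nu r 0 = 0 := by
  unfold nu
  exact Polynomial.sum_zero_index _

theorem nu_add (r : ℝ) (hr : 0 ≤ r) (P Q : ℂ[X]) : nu r (P + Q) ≤ nu r P + nu r Q := by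
  have h1 : P.natDegree < max P.natDegree Q.natDegree + 1 := by omega
  have h2 : Q.natDegree < max P.natDegree Q.natDegree + 1 := by omega
  have h3 : (P + Q).natDegree < max P.natDegree Q.natDegree + 1 := by
    have := Polynomial.natDegree_add_le P Q
    omega
  rw [nu_eq_sum r P _ h1, nu_eq_sum r Q _ h2, nu_eq_sum r (P + Q) _ h3, ← Finset.sum_add_distrib]
  refine Finset.sum_le_sum fun i _ => ?_
  rw [← add_mul, Polynomial.coeff_add]
  exact mul_le_mul_of_nonneg_right (norm_add_le _ _) (pow_nonneg hr i)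

private theorem c1_neg (r : ℝ) (P : ℂ[X]) : nu r (-P) = nu r P := by
  have h1 : P.natDegree < P.natDegree + 1 := by omega
  have h2 : (-P).natDegree < P.natDegree + 1 := by
    rw [Polynomial.natDegree_neg]
    omega
  rw [nu_eq_sum r P _ h1, nu_eq_sum r (-P) _ h2]
  refine Finset.sum_congr rfl fun i _ => ?_
  rw [Polynomial.coeff_neg, norm_neg]

theorem nu_sub (r : ℝ) (hr : 0 ≤ r) (P Q : ℂ[X]) : nu r (P - Q) ≤ nu r P + nu r Q := by
  rw [sub_eq_add_neg, ← c1_neg r Q]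
  exact nu_add r hr P (-Q)

theorem nu_sum {ι : Type*} (F : Finset ι) (r : ℝ) (hr : 0 ≤ r) (P : ι → ℂ[X]) :
    nu r (∑ i ∈ F, P i) ≤ ∑ i ∈ F, nu r (P i) := by
  classical
  induction F using Finset.induction_on with
  | empty =>
    rw [Finset.sum_empty, Finset.sum_empty, c1_zero]
  | insert a F ha ih =>
    rw [Finset.sum_insert ha, Finset.sum_insert ha]
    exact (nu_add r hr _ _).trans (by linarith)

theorem c2_nu_monomial (r : ℝ) (n : ℕ) (a : ℂ) : nu r (monomial n a) = ‖a‖ * r ^ n := by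
  unfold nu
  rw [sum_monomial_index]
  simp

theorem nu_mul (r : ℝ) (hr : 0 ≤ r) (P Q : ℂ[X]) : nu r (P * Q) ≤ nu r P * nu r Q := by
  rw [mul_eq_sum_sum]
  refine (nu_sum _ r hr _).trans ?_
  have h1 : nu r P * nu r Q = ∑ i ∈ P.support, ‖P.coeff i‖ * r ^ i * nu r Q := by
    rw [← Finset.sum_mul]
    rfl
  rw [h1]
  refine Finset.sum_le_sum fun i _ => ?_
  rw [sum_def]
  refine (nu_sum _ r hr _).trans (le_of_eq ?_)
  have h2 : nu r Q = ∑ j ∈ Q.support, ‖Q.coeff j‖ * r ^ j := rfl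
  rw [h2, Finset.mul_sum]
  refine Finset.sum_congr rfl fun j _ => ?_
  rw [c2_nu_monomial, norm_mul, pow_add]
  ring

theorem nu_pow (r : ℝ) (hr : 0 ≤ r) (P : ℂ[X]) (n : ℕ) : nu r (P ^ n) ≤ nu r P ^ n := by
  induction n with
  | zero =>
    rw [pow_zero, pow_zero, ← C_1, nu_C]
    simp
  | succ n ih =>
    rw [pow_succ, pow_succ]
    exact (nu_mul r hr _ _).trans (mul_le_mul_of_nonneg_right ih (nu_nonneg r hr P))

theorem nu_mono (r s : ℝ) (hr : 0 ≤ r) (hrs : r ≤ s) (P : ℂ[X]) : nu r P ≤ nu s P := by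
  unfold nu
  rw [Polynomial.sum_def, Polynomial.sum_def]
  exact Finset.sum_le_sum fun i _ =>
    mul_le_mul_of_nonneg_left (pow_le_pow_left₀ hr hrs i) (norm_nonneg _)

theorem nu_taylor (r : ℝ) (hr : 0 ≤ r) (c : ℂ) (P : ℂ[X]) :
    nu r (taylor c P) ≤ nu (‖c‖ + r) P := by
  have hX : nu r (X + C c) ≤ ‖c‖ + r := by
    refine (nu_add r hr _ _).trans ?_
    rw [nu_C, ← monomial_one_one_eq_X, c2_nu_monomial]
    simp [add_comm]
  have h0 : 0 ≤ nu r (X + C c) := nu_nonneg r hr _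
  rw [taylor_apply, comp_eq_sum_left, sum_def]
  refine (nu_sum _ r hr _).trans ?_
  have h1 : nu (‖c‖ + r) P = ∑ i ∈ P.support, ‖P.coeff i‖ * (‖c‖ + r) ^ i := rfl
  rw [h1]
  refine Finset.sum_le_sum fun i _ => ?_
  refine (nu_mul r hr _ _).trans ?_
  rw [nu_C]
  refine mul_le_mul_of_nonneg_left ?_ (norm_nonneg _)
  exact (nu_pow r hr _ _).trans (pow_le_pow_left₀ h0 hX i)

theorem nu_scale (r : ℝ) (a : ℂ) (P : ℂ[X]) : nu r (P.comp (C a * X)) = nu (‖a‖ * r) P := by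
  have hd : (P.comp (C a * X)).natDegree < P.natDegree + 1 := by
    refine Nat.lt_succ_of_le (natDegree_comp_le.trans ?_)
    calc P.natDegree * (C a * X).natDegree ≤ P.natDegree * 1 :=
          Nat.mul_le_mul_left _ ((natDegree_C_mul_le a X).trans natDegree_X_le)
      _ = P.natDegree := mul_one _
  rw [nu_eq_sum r _ (P.natDegree + 1) hd, nu_eq_sum (‖a‖ * r) P (P.natDegree + 1) (Nat.lt_succ_self _)]
  refine Finset.sum_congr rfl fun i _ => ?_
  rw [comp_C_mul_X_coeff, norm_mul, norm_pow, mul_pow]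
  ring

end Pool.Agent.Lib.MP_bb8441_an.Ch
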