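import Pool.Agent.Lib.MP_bb8441_an.Ch.StepPoly

/-! The slow polynomials. The window number `k` is `[N k, (1 + 1 / 128) N k]`, `N k = 2 ^ (28 k)`. -/

set_option autoImplicit false

namespace Pool.Agent.Lib.MP_bb8441_an.Ch

open Polynomial

/-- The recursion. -/
private noncomputable def c6_F (E : ℕ → ℂ[X]) (θ : ℕ → ℂ) : ℕ → ℂ[X]
  | 0 => 0
  | k + 1 => c6_F E θ k + E k * (C (θ k) - c6_F E θ k)

private theorem c6_nu_zero (r : ℝ) : nu r (0 : ℂ[X]) = 0 := by
  have := nu_C r 0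
  simpa using this

/-- The bound for `θ - F`. -/
private theorem c6_sub {r : ℝ} (hr : 0 ≤ r) {t : ℂ} (ht : ‖t‖ ≤ 1) (P : ℂ[X]) :
    nu r (C t - P) ≤ 1 + nu r P := by
  refine (nu_sub r hr _ _).trans ?_
  rw [nu_C]
  linarith

private theorem c6_arith (a : ℕ) (x : ℝ) (hx : 1 ≤ x) :
    (2 ^ 28 * (2 ^ 28 * x)) ^ a * (6 * (2 ^ 28 * x)) ^ (64 * a) ≤ (2 ^ 28 * x) ^ (128 * a) := by
  rw [pow_mul, pow_mul, ← mul_pow]
  refine pow_le_pow_left₀ (by positivity) ?_ a
  have h1 : (2 ^ 28 * (2 ^ 28 * x)) * (6 * (2 ^ 28 * x)) ^ 64 =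
      (2 ^ 56 * 6 ^ 64 * (2 ^ 28) ^ 64) * x ^ 65 := by ring
  have h2 : (2 ^ 28 * x) ^ 128 = (2 ^ 28) ^ 128 * x ^ 128 := by ring
  rw [h1, h2]
  have h3 : x ^ 65 ≤ x ^ 128 := pow_le_pow_right₀ hx (by norm_num)
  have h4 : (2 ^ 56 * 6 ^ 64 * (2 ^ 28) ^ 64 : ℝ) ≤ (2 ^ 28) ^ 128 := by norm_num
  exact mul_le_mul h4 h3 (by positivity) (by positivity)

/-- The polynomials `F k`: `F (k + 1) = F k + E k * (θ k - F k)`, where `E k` is the step polynomial
with `m = 32 * 128 ^ k` at the scale `2 ^ (28 k)`. -/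
theorem exists_F (θ : ℕ → ℂ) (hθ : ∀ k, ‖θ k‖ ≤ 1) :
    ∃ F : ℕ → ℂ[X], (∀ n, (∀ k < n, θ k = 0) → F n = 0) ∧
      (∀ n, (F n).natDegree ≤ 128 ^ n) ∧
      (∀ k (r : ℝ), (2 : ℝ) ^ (28 * k) ≤ r → 1 + nu r (F k) ≤ (2 ^ 28 * r / 2 ^ (28 * k)) ^ (128 ^ k)) ∧
      (∀ k, nu (2 ^ (28 * k) / 64) (taylor ((2 : ℂ) ^ (28 * k)) (F (k + 1) - C (θ k))) ≤
        (1 / 2) ^ (128 ^ k)) ∧
      (∀ n, nu (2 * 2 ^ (28 * n) / 2 ^ 28) (F (n + 1) - F n) ≤ (1 / 2) ^ (128 ^ n)) := by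
  choose E hE1 hE2 hE3 hE4 using fun k : ℕ => exists_step (32 * 128 ^ k)
    (by have : 0 < 128 ^ k := by positivity
        omega) ((2 : ℝ) ^ (28 * k)) (by positivity)
  have hF0 : c6_F E θ 0 = 0 := rfl
  have hFs : ∀ k, c6_F E θ (k + 1) = c6_F E θ k + E k * (C (θ k) - c6_F E θ k) := fun k => rfl
  have hgrow : ∀ k (r : ℝ), (2 : ℝ) ^ (28 * k) ≤ r →
      1 + nu r (c6_F E θ k) ≤ (2 ^ 28 * r / 2 ^ (28 * k)) ^ (128 ^ k) := by
    intro k
    induction k with
    | zero =>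
      intro r hr
      rw [hF0, c6_nu_zero]
      simp only [mul_zero, pow_zero, div_one, pow_one, add_zero] at hr ⊢
      nlinarith
    | succ k ih =>
      intro r hr
      set N : ℝ := (2 : ℝ) ^ (28 * k) with hN
      have hNp : 0 < N := by positivity
      have hN1 : (2 : ℝ) ^ (28 * (k + 1)) = 2 ^ 28 * N := by
        rw [hN, mul_add, pow_add, mul_one, mul_comm]
      rw [hN1] at hr ⊢
      have hr0 : 0 < r := lt_of_lt_of_le (by positivity) hr
      have hNr : N ≤ r := by nlinarith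
      set a : ℕ := 128 ^ k with ha
      have ha1 : 1 ≤ a := Nat.one_le_pow _ _ (by norm_num)
      have hF := ih r hNr
      have hFn : 0 ≤ nu r (c6_F E θ k) := nu_nonneg r hr0.le _
      have hEn : 0 ≤ nu r (E k) := nu_nonneg r hr0.le _
      have hEb := hE3 k r hNr
      have h1 : 1 + nu r (c6_F E θ (k + 1)) ≤ (1 + nu r (c6_F E θ k)) * (1 + nu r (E k)) := by
        have h2 : nu r (c6_F E θ (k + 1)) ≤
            nu r (c6_F E θ k) + nu r (E k) * (1 + nu r (c6_F E θ k)) := by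
          rw [hFs]
          refine (nu_add r hr0.le _ _).trans ?_
          refine add_le_add le_rfl ((nu_mul r hr0.le _ _).trans ?_)
          exact mul_le_mul_of_nonneg_left (c6_sub hr0.le (hθ k) _) hEn
        nlinarith
      set x : ℝ := r / (2 ^ 28 * N) with hx
      have hx1 : 1 ≤ x := by
        rw [hx, le_div_iff₀ (by positivity), one_mul]; exact hr
      have hrN : r / N = 2 ^ 28 * x := by
        rw [hx]; field_simp
      have hrx : 2 ^ 28 * r / (2 ^ 28 * N) = 2 ^ 28 * x := by rw [hx, mul_div_assoc]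
      have hrF : 2 ^ 28 * r / N = 2 ^ 28 * (2 ^ 28 * x) := by rw [mul_div_assoc, hrN]
      rw [hrF] at hF
      rw [hrN] at hEb
      have h3 : 1 + nu r (E k) ≤ (6 * (2 ^ 28 * x)) ^ (64 * a) := by
        have h4 : (1 : ℝ) ≤ 3 * (2 ^ 28 * x) := by nlinarith
        have h5 : (1 : ℝ) ≤ (3 * (2 ^ 28 * x)) ^ (64 * a) := one_le_pow₀ h4
        have h6 : (3 * (2 ^ 28 * x)) ^ (2 * (32 * a)) = (3 * (2 ^ 28 * x)) ^ (64 * a) := by
          congr 1; ring
        rw [h6] at hEb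
        have h7 : (6 * (2 ^ 28 * x)) ^ (64 * a) = 2 ^ (64 * a) * (3 * (2 ^ 28 * x)) ^ (64 * a) := by
          rw [← mul_pow]; congr 1; ring
        have h8 : (2 : ℝ) ≤ 2 ^ (64 * a) := by
          calc (2 : ℝ) = 2 ^ 1 := by norm_num
            _ ≤ 2 ^ (64 * a) := pow_le_pow_right₀ (by norm_num) (by omega)
        rw [h7]
        nlinarith
      calc 1 + nu r (c6_F E θ (k + 1)) ≤ (1 + nu r (c6_F E θ k)) * (1 + nu r (E k)) := h1
        _ ≤ (2 ^ 28 * (2 ^ 28 * x)) ^ a * (6 * (2 ^ 28 * x)) ^ (64 * a) :=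
            mul_le_mul hF h3 (by positivity) (by positivity)
        _ ≤ (2 ^ 28 * x) ^ (128 * a) := c6_arith a x hx1
        _ = (2 ^ 28 * r / (2 ^ 28 * N)) ^ 128 ^ (k + 1) := by
            rw [hrx, ha]; congr 1; rw [pow_succ]; ring
  refine ⟨c6_F E θ, ?_, ?_, hgrow, ?_, ?_⟩
  · intro n
    induction n with
    | zero => intro _; rfl
    | succ n ih =>
      intro h
      rw [hFs, ih fun k hk => h k (by omega), h n (by omega)]
      simp
  · intro n
    induction n with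
    | zero => rw [hF0]; simp
    | succ n ih =>
      rw [hFs]
      have h1 : (C (θ n) - c6_F E θ n).natDegree ≤ 128 ^ n :=
        (natDegree_sub_le _ _).trans (max_le (by rw [natDegree_C]; positivity) ih)
      have h2 : (E n * (C (θ n) - c6_F E θ n)).natDegree ≤ 2 * (32 * 128 ^ n) + 128 ^ n :=
        natDegree_mul_le.trans (add_le_add (hE1 n) h1)
      refine (natDegree_add_le _ _).trans (max_le ?_ ?_)
      · exact ih.trans (Nat.pow_le_pow_right (by norm_num) (by omega))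
      · refine h2.trans ?_
        rw [pow_succ]
        omega
  · intro k
    set N : ℝ := (2 : ℝ) ^ (28 * k) with hN
    have hNp : 0 < N := by positivity
    have hNc : (2 : ℂ) ^ (28 * k) = ((N : ℝ) : ℂ) := by rw [hN]; push_cast; rfl
    set a : ℕ := 128 ^ k with ha
    have hfac : c6_F E θ (k + 1) - C (θ k) = (c6_F E θ k - C (θ k)) * (1 - E k) := by
      rw [hFs]; ring
    rw [hfac, taylor_mul, hNc]
    have hr : (0 : ℝ) ≤ N / 64 := by positivity
    have h1 : nu (N / 64) (taylor (N : ℂ) (1 - E k)) ≤ (1 / 8) ^ (32 * a) := by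
      have := hE4 k (N / 64) hr (by linarith)
      have h2 : 8 * (N / 64 / N) = (1 / 8 : ℝ) := by field_simp; norm_num
      rwa [h2] at this
    have h2 : nu (N / 64) (taylor (N : ℂ) (c6_F E θ k - C (θ k))) ≤ (2 ^ 29) ^ a := by
      refine (nu_taylor _ hr _ _).trans ?_
      have hn : ‖(N : ℂ)‖ = N := by rw [Complex.norm_real, Real.norm_of_nonneg hNp.le]
      rw [hn]
      have h3 : nu (N + N / 64) (c6_F E θ k - C (θ k)) ≤ 1 + nu (N + N / 64) (c6_F E θ k) := by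
        refine (nu_sub _ (by positivity) _ _).trans ?_
        rw [nu_C]
        linarith [hθ k]
      refine h3.trans ((hgrow k (N + N / 64) (by linarith)).trans ?_)
      refine pow_le_pow_left₀ (by positivity) ?_ a
      have h4 : 2 ^ 28 * (N + N / 64) / N = (2 ^ 28 * (1 + 1 / 64) : ℝ) := by field_simp
      rw [h4]
      norm_num
    calc nu (N / 64) (taylor (N : ℂ) (c6_F E θ k - C (θ k)) * taylor (N : ℂ) (1 - E k))
        ≤ (2 ^ 29) ^ a * (1 / 8) ^ (32 * a) :=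
          (nu_mul _ hr _ _).trans (mul_le_mul h2 h1 (nu_nonneg _ hr _) (by positivity))
      _ = (2 ^ 29 * (1 / 8) ^ 32) ^ a := by rw [pow_mul, ← mul_pow]
      _ ≤ (1 / 2) ^ a := pow_le_pow_left₀ (by positivity) (by norm_num) a
  · intro n
    set N : ℝ := (2 : ℝ) ^ (28 * n) with hN
    have hNp : 0 < N := by positivity
    set a : ℕ := 128 ^ n with ha
    have hfac : c6_F E θ (n + 1) - c6_F E θ n = E n * (C (θ n) - c6_F E θ n) := by
      rw [hFs]; ring
    rw [hfac]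
    have hr : (0 : ℝ) ≤ 2 * N / 2 ^ 28 := by positivity
    have hrN : 2 * N / 2 ^ 28 ≤ N := by
      rw [div_le_iff₀ (by positivity)]
      nlinarith
    have h1 : nu (2 * N / 2 ^ 28) (E n) ≤ (1 / 2 ^ 24) ^ (32 * a) := by
      have := hE2 n _ hr hrN
      have h2 : 8 * (2 * N / 2 ^ 28 / N) = (1 / 2 ^ 24 : ℝ) := by field_simp; norm_num
      rwa [h2] at this
    have h2 : nu (2 * N / 2 ^ 28) (C (θ n) - c6_F E θ n) ≤ (2 ^ 28) ^ a := by
      refine (c6_sub hr (hθ n) _).trans ?_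
      have h3 : nu (2 * N / 2 ^ 28) (c6_F E θ n) ≤ nu N (c6_F E θ n) := nu_mono _ _ hr hrN _
      have h4 := hgrow n N le_rfl
      have h5 : 2 ^ 28 * N / N = (2 ^ 28 : ℝ) := by field_simp
      rw [← hN, h5, ← ha] at h4
      exact (add_le_add le_rfl h3).trans h4
    calc nu (2 * N / 2 ^ 28) (E n * (C (θ n) - c6_F E θ n))
        ≤ (1 / 2 ^ 24) ^ (32 * a) * (2 ^ 28) ^ a :=
          (nu_mul _ hr _ _).trans (mul_le_mul h1 h2 (nu_nonneg _ hr _) (by positivity))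
      _ = ((1 / 2 ^ 24) ^ 32 * 2 ^ 28) ^ a := by rw [pow_mul, ← mul_pow]
      _ ≤ (1 / 2) ^ a := pow_le_pow_left₀ (by positivity) (by norm_num) a

/-- The smallness of the constants. -/
theorem c7_small (C₀ ε : ℝ) (hC : 0 ≤ C₀) (k₀ : ℕ) (hk : 1 ≤ k₀) (h : C₀ ≤ ε * 2 ^ k₀)
    (m : ℕ) (hm : k₀ ≤ m) : C₀ * (1 / 2 : ℝ) ^ (128 ^ m) ≤ ε / 2 ^ (m + 1) := by
  have h0 : (0 : ℝ) < 2 ^ (m + 1) := by positivity
  have hε : 0 ≤ ε := by
    by_contra hn
    push Not at hn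
    have h2 : (0 : ℝ) < 2 ^ k₀ := by positivity
    nlinarith
  have hp : 2 * m + 1 ≤ 128 ^ m := by
    have : ∀ m : ℕ, 1 ≤ m → 2 * m + 1 ≤ 128 ^ m := by
      intro m hm
      induction m, hm using Nat.le_induction with
      | base => norm_num
      | succ m hm ih => rw [pow_succ]; omega
    exact this m (hk.trans hm)
  have h1 : C₀ ≤ ε * 2 ^ m := h.trans (mul_le_mul_of_nonneg_left
    (pow_le_pow_right₀ (by norm_num) hm) hε)
  rw [le_div_iff₀ h0]
  have h2 : (1 / 2 : ℝ) ^ (128 ^ m) ≤ (1 / 2) ^ (2 * m + 1) :=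
    pow_le_pow_of_le_one (by norm_num) (by norm_num) hp
  calc C₀ * (1 / 2 : ℝ) ^ (128 ^ m) * 2 ^ (m + 1)
      ≤ (ε * 2 ^ m) * (1 / 2) ^ (2 * m + 1) * 2 ^ (m + 1) := by
        gcongr
    _ = ε * (2 ^ (2 * m + 1) * (1 / 2) ^ (2 * m + 1)) := by
        rw [show 2 * m + 1 = m + (m + 1) by ring, pow_add (2 : ℝ)]
        ring
    _ = ε := by
        rw [← mul_pow]
        norm_num

/-- The degree condition. -/
theorem c7_deg (E₀ : ℝ) (k₀ : ℕ) (h : E₀ * 2 ^ 50 ≤ 2 ^ (7 * k₀)) (m : ℕ) (hm : k₀ ≤ m) :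
    E₀ * ((128 : ℝ) ^ (m + 1)) ^ 3 ≤ 2 ^ (28 * m) / 2 ^ 29 := by
  have h1 : E₀ * 2 ^ 50 ≤ 2 ^ (7 * m) := h.trans
    (pow_le_pow_right₀ (by norm_num) (by omega))
  rw [le_div_iff₀ (by positivity)]
  have h2 : (128 : ℝ) ^ (m + 1) = 2 ^ (7 * m + 7) := by
    rw [show 7 * m + 7 = 7 * (m + 1) by ring, pow_mul]
    norm_num
  rw [h2]
  calc E₀ * ((2 : ℝ) ^ (7 * m + 7)) ^ 3 * 2 ^ 29 = (E₀ * 2 ^ 50) * 2 ^ (21 * m) := by
        rw [← pow_mul, show (7 * m + 7) * 3 = 21 * m + 21 by ring, pow_add]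
        ring
    _ ≤ 2 ^ (7 * m) * 2 ^ (21 * m) := by gcongr
    _ = 2 ^ (28 * m) := by
        rw [← pow_add]
        congr 1
        ring

/-- The polynomials `F n` with all estimates needed later, for a subadditive functional `G` with
`G P ≤ C₀ * nu r P` whenever `E₀ * (degree P) ^ 3 ≤ r`. -/
theorem exists_slow (C₀ E₀ : ℝ) (hC : 0 ≤ C₀) (hE : 0 ≤ E₀) (ε : ℝ) (hε : 0 < ε) :
    ∃ k₀ : ℕ, ∀ θ : ℕ → ℂ, (∀ k, θ k = 0 ∨ θ k = 1) → (∀ k < k₀, θ k = 0) →
      ∃ F : ℕ → ℂ[X], F 0 = 0 ∧ ∀ G : ℂ[X] → ℝ, (∀ P Q, G (P + Q) ≤ G P + G Q) →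
        (∀ (P : ℂ[X]) (r : ℝ), 0 ≤ r → E₀ * (P.natDegree : ℝ) ^ 3 ≤ r → G P ≤ C₀ * nu r P) →
        (∀ n, G (F (n + 1) - F n) ≤ ε / 2 ^ (n + 1)) ∧
        (∀ k t n : ℕ, 2 ^ (28 * k) ≤ t → 128 * t ≤ 129 * 2 ^ (28 * k) → k < n →
          G (taylor (t : ℂ) (F n) - C (θ k)) ≤ ε / 2 ^ k) := by
  obtain ⟨a, ha⟩ := pow_unbounded_of_one_lt (C₀ / ε) (by norm_num : (1 : ℝ) < 2)
  obtain ⟨b, hb⟩ := pow_unbounded_of_one_lt (E₀ * 2 ^ 50) (by norm_num : (1 : ℝ) < 2)
  refine ⟨a + b + 1, fun θ hθ hθ0 => ?_⟩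
  have hk1 : C₀ ≤ ε * 2 ^ (a + b + 1) := by
    rw [div_lt_iff₀ hε] at ha
    calc C₀ ≤ 2 ^ a * ε := ha.le
      _ = ε * 2 ^ a := mul_comm _ _
      _ ≤ ε * 2 ^ (a + b + 1) := by
        refine mul_le_mul_of_nonneg_left (pow_le_pow_right₀ (by norm_num) (by omega)) hε.le
  have hk2 : E₀ * 2 ^ 50 ≤ 2 ^ (7 * (a + b + 1)) :=
    hb.le.trans (pow_le_pow_right₀ (by norm_num) (by omega))
  generalize hk0 : a + b + 1 = k₀ at *
  have hk3 : 1 ≤ k₀ := by omega
  have hn : ∀ k, ‖θ k‖ ≤ 1 := by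
    intro k
    rcases hθ k with h | h <;> rw [h] <;> simp
  obtain ⟨F, h0, hdeg, -, hwin, hstep⟩ := exists_F θ hn
  refine ⟨F, h0 0 (fun k hk => absurd hk (Nat.not_lt_zero k)), fun G hadd hG => ?_⟩
  have hzero : ∀ n, n ≤ k₀ → F n = 0 := fun n hn =>
    h0 n (fun k hk => hθ0 k (lt_of_lt_of_le hk hn))
  have hG0 : G 0 ≤ 0 := by
    have := hG 0 0 le_rfl (by simp)
    have h1 : nu 0 (0 : ℂ[X]) = 0 := by
      have := nu_C 0 (0 : ℂ)
      simpa using this
    rw [h1, mul_zero] at this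
    exact this
  -- the bound for the pieces
  have hpiece : ∀ m, k₀ ≤ m → ∀ (P : ℂ[X]) (r : ℝ), P.natDegree ≤ 128 ^ (m + 1) →
      (2 : ℝ) ^ (28 * m) / 2 ^ 29 ≤ r → nu r P ≤ (1 / 2) ^ (128 ^ m) → G P ≤ ε / 2 ^ (m + 1) := by
    intro m hm P r hP hr hnu
    have hr0 : 0 ≤ r := le_trans (by positivity) hr
    have h1 : E₀ * (P.natDegree : ℝ) ^ 3 ≤ r := by
      refine le_trans ?_ ((c7_deg E₀ k₀ hk2 m hm).trans hr)
      have : (P.natDegree : ℝ) ≤ (128 : ℝ) ^ (m + 1) := by exact_mod_cast hP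
      gcongr
    refine (hG P r hr0 h1).trans ?_
    exact (mul_le_mul_of_nonneg_left hnu hC).trans (c7_small C₀ ε hC k₀ hk3 hk1 m hm)
  have hdiff : ∀ n, (F (n + 1) - F n).natDegree ≤ 128 ^ (n + 1) := by
    intro n
    refine (natDegree_sub_le _ _).trans (max_le (hdeg _) ((hdeg n).trans ?_))
    exact Nat.pow_le_pow_right (by norm_num) (Nat.le_succ n)
  refine ⟨fun n => ?_, fun k t n h1 h2 hkn => ?_⟩
  · rcases lt_or_ge n k₀ with hn | hn
    · rw [hzero n hn.le, hzero (n + 1) hn, sub_zero]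
      exact hG0.trans (by positivity)
    · refine hpiece n hn _ (2 * 2 ^ (28 * n) / 2 ^ 28) (hdiff n) ?_ (hstep n)
      have : (0 : ℝ) < 2 ^ (28 * n) := by positivity
      linarith
  · have h1' : (2 : ℝ) ^ (28 * k) ≤ t := by exact_mod_cast h1
    have h2' : (128 : ℝ) * t ≤ 129 * 2 ^ (28 * k) := by exact_mod_cast h2
    -- the first piece
    have hA : G (taylor (t : ℂ) (F (k + 1) - C (θ k))) ≤ ε / 2 ^ (k + 1) := by
      rcases lt_or_ge k k₀ with hk | hk
      · rw [hzero (k + 1) hk, hθ0 k hk]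
        simp only [map_zero, sub_zero]
        exact hG0.trans (by positivity)
      · refine hpiece k hk _ (2 ^ (28 * k) / 128) ?_ ?_ ?_
        · rw [natDegree_taylor]
          refine (natDegree_sub_le _ _).trans (max_le (hdeg _) ?_)
          rw [natDegree_C]
          exact Nat.zero_le _
        · have : (0 : ℝ) < 2 ^ (28 * k) := by positivity
          linarith
        · have e1 : taylor (t : ℂ) (F (k + 1) - C (θ k)) =
              taylor ((t : ℂ) - 2 ^ (28 * k))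
                (taylor ((2 : ℂ) ^ (28 * k)) (F (k + 1) - C (θ k))) := by
            rw [taylor_taylor]
            congr 2
            ring
          rw [e1]
          refine (nu_taylor _ (by positivity) _ _).trans ((nu_mono _ _ (by positivity) ?_ _).trans
            (hwin k))
          have e2 : ‖(t : ℂ) - 2 ^ (28 * k)‖ = t - 2 ^ (28 * k) := by
            have : (t : ℂ) - 2 ^ (28 * k) = (((t : ℝ) - 2 ^ (28 * k) : ℝ) : ℂ) := by
              push_cast
              ring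
            rw [this, Complex.norm_real, Real.norm_eq_abs, abs_of_nonneg (by linarith)]
          rw [e2]
          linarith
    have hB : ∀ m, k + 1 ≤ m → G (taylor (t : ℂ) (F (m + 1) - F m)) ≤ ε / 2 ^ (m + 1) := by
      intro m hm
      rcases lt_or_ge m k₀ with hk | hk
      · rw [hzero m hk.le, hzero (m + 1) hk]
        simp only [sub_zero, map_zero]
        exact hG0.trans (by positivity)
      · refine hpiece m hk _ (2 ^ (28 * m) / 2 ^ 29) ?_ le_rfl ?_
        · rw [natDegree_taylor]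
          exact hdiff m
        · refine (nu_taylor _ (by positivity) _ _).trans ((nu_mono _ _ (by positivity) ?_ _).trans
            (hstep m))
          have e2 : ‖(t : ℂ)‖ = t := by simp
          rw [e2]
          have e3 : (2 : ℝ) ^ (28 * k) ≤ 2 ^ (28 * m) / 2 ^ 28 := by
            rw [le_div_iff₀ (by positivity), ← pow_add]
            exact pow_le_pow_right₀ (by norm_num) (by omega)
          have e4 : (0 : ℝ) < 2 ^ (28 * m) := by positivity
          linarith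
    -- induction on `n`
    have key : ∀ n, k + 1 ≤ n → G (taylor (t : ℂ) (F n) - C (θ k)) ≤ ε / 2 ^ k - ε / 2 ^ n := by
      intro n hn
      induction n, hn using Nat.le_induction with
      | base =>
        have e : taylor (t : ℂ) (F (k + 1)) - C (θ k) = taylor (t : ℂ) (F (k + 1) - C (θ k)) := by
          rw [map_sub, taylor_C]
        rw [e]
        refine hA.trans (le_of_eq ?_)
        rw [pow_succ]
        field_simp
        ring
      | succ n hn ih =>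
        have e : taylor (t : ℂ) (F (n + 1)) - C (θ k) =
            (taylor (t : ℂ) (F n) - C (θ k)) + taylor (t : ℂ) (F (n + 1) - F n) := by
          rw [map_sub]
          ring
        rw [e]
        refine (hadd _ _).trans ((add_le_add ih (hB n hn)).trans (le_of_eq ?_))
        rw [pow_succ (2 : ℝ) n]
        field_simp
        ring
    refine (key n hkn).trans ?_
    have : 0 ≤ ε / 2 ^ n := by positivity
    linarith

end Pool.Agent.Lib.MP_bb8441_an.Ch
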