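import Pool.Agent.Lib.MP_bb8441_an.Ch.Step

/-! The sequence of the stages. -/

set_option autoImplicit false

namespace Pool.Agent.Lib.MP_bb8441_an.Ch

variable {X : Type*} [NormedAddCommGroup X] [NormedSpace ℂ X]

/-- the first state -/
private def c29_first (T : X →L[ℂ] X) : CState X where
  S := T
  u := fun _ _ => 0
  A := ∅
  L := fun _ => 0

private theorem c29_first_inv {J : X → X} {σ : ℂ → ℂ} {T : X →L[ℂ] X} {Λ : Set ℂ} {κ w : ℂ → ℝ}
    {w₀ : ℝ} (h : Ctx J σ T Λ κ w w₀) : (c29_first T).Inv J σ T Λ where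
  A_mem := fun c hc => by simp [c29_first] at hc
  eig := fun c hc => by simp [c29_first] at hc
  range := fun x => by simp [c29_first]
  SJ := h.TJ
  A_σ := fun c hc => by simp [c29_first] at hc
  L_σ := fun c hc => by simp [c29_first] at hc
  u_σ := fun c hc => by simp [c29_first] at hc

private theorem c29_first_err (T : X →L[ℂ] X) (η : ℝ) : (c29_first T).Err η :=
  fun c hc => by simp [c29_first] at hc

private theorem c29_first_ready {J : X → X} {σ : ℂ → ℂ} {T : X →L[ℂ] X} {Λ : Set ℂ} {κ w : ℂ → ℝ}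
    {w₀ : ℝ} (h : Ctx J σ T Λ κ w w₀) {ε : ℝ} (hε : 0 < ε) :
    (c29_first T).Ready J σ T Λ ε := by
  intro η _
  refine ⟨c29_first T, c29_first_inv h, ⟨subset_rfl, fun _ _ => rfl, fun c hc hc' => absurd hc hc'⟩,
    ?_, fun _ _ => rfl, ?_, c29_first_err T η⟩
  · simpa using hε.le
  · intro c hc
    simp [c29_first] at hc

theorem stages {J : X → X} {σ : ℂ → ℂ} {T : X →L[ℂ] X} {Λ : Set ℂ} {κ w : ℂ → ℝ} {w₀ : ℝ}
    (h : Ctx J σ T Λ κ w w₀) (x : ℕ → X) (ε : ℕ → ℝ) (hε : ∀ k, 0 < ε k) :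
    ∃ s : ℕ → CState X, (s 0).S = T ∧ (s 0).A = ∅ ∧ (∀ k, (s k).Inv J σ T Λ) ∧
      (∀ k, Next κ w (ε k) (x k) (s k) (s (k + 1))) ∧ ∀ k, (s k).Err (ε k) := by
  classical
  have hstep : ∀ (k : ℕ) (s : {s : CState X // s.Inv J σ T Λ ∧ s.Ready J σ T Λ (ε k) ∧
      s.Err (ε k)}), ∃ s' : {s : CState X // s.Inv J σ T Λ ∧ s.Ready J σ T Λ (ε (k + 1)) ∧
      s.Err (ε (k + 1))}, Next κ w (ε k) (x k) s.1 s'.1 := by
    rintro k ⟨s, hI, hR, -⟩
    obtain ⟨s', h1, h2, h3, h4⟩ := step h s hI (ε k) (hε k) hR (x k) (ε (k + 1)) (hε (k + 1))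
    exact ⟨⟨s', h1, h4, h3⟩, h2⟩
  choose F hF using hstep
  let g : ∀ k, {s : CState X // s.Inv J σ T Λ ∧ s.Ready J σ T Λ (ε k) ∧ s.Err (ε k)} :=
    fun k => Nat.rec ⟨c29_first T, c29_first_inv h, c29_first_ready h (hε 0), c29_first_err T _⟩
      (fun k s => F k s) k
  exact ⟨fun k => (g k).1, rfl, rfl, fun k => (g k).2.1, fun k => hF k (g k), fun k => (g k).2.2.2⟩

end Pool.Agent.Lib.MP_bb8441_an.Ch
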