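import Pool.Agent.Lib.MP_bb8441_an.Ch.CorrectAll
import Pool.Agent.Lib.MP_bb8441_an.Ch.ExtendAll

/-! One stage of the construction. -/

set_option autoImplicit false

namespace Pool.Agent.Lib.MP_bb8441_an.Ch

variable {X : Type*} [NormedAddCommGroup X] [NormedSpace ℂ X]

/-- `s'` is obtained from `s` by one stage: the errors are corrected, a target `x` is approximated,
and all chains get one more vector. -/
structure Next (κ w : ℂ → ℝ) (ε : ℝ) (x : X) (s s' : CState X) : Prop where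
  A_sub : s.A ⊆ s'.A
  L_eq : ∀ c ∈ s.A, s'.L c = s.L c + 1
  L_new : ∀ c ∈ s'.A, c ∉ s.A → s'.L c = 0
  u_zero : ∀ c ∈ s.A, s'.u c 0 = s.u c 0
  u_near : ∀ c ∈ s.A, ∀ l, l ≤ s.L c → ‖s'.u c l - s.u c l‖ ≤ ε
  u_new : ∀ c ∈ s.A, ‖s'.u c (s.L c + 1)‖ ≤
    κ c * (‖s.u c (s.L c)‖ + ε + 1) * ((s.L c : ℝ) + 1) ^ 2 / w c
  S_near : ‖s'.S - s.S‖ ≤ ε + ∑ c ∈ s.A, w c / ((s.L c : ℝ) + 1) ^ 2
  approx : ∃ y ∈ s'.V, ‖x - y‖ < ε

theorem step {J : X → X} {σ : ℂ → ℂ} {T : X →L[ℂ] X} {Λ : Set ℂ} {κ w : ℂ → ℝ} {w₀ : ℝ}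
    (h : Ctx J σ T Λ κ w w₀) (s : CState X) (hs : s.Inv J σ T Λ) (ε : ℝ) (hε : 0 < ε)
    (hR : s.Ready J σ T Λ ε) (x : X) (ε' : ℝ) (hε' : 0 < ε') :
    ∃ s' : CState X, s'.Inv J σ T Λ ∧ Next κ w ε x s s' ∧ s'.Err ε' ∧ s'.Ready J σ T Λ ε' := by
  obtain ⟨η₁, hη₁, hready⟩ := ready_of_small h (fun c => s.L c + 1) s.A hs.A_mem ε' hε'
  have hη₂ : 0 < min η₁ ε' := lt_min hη₁ hε'
  obtain ⟨s₁, hs₁, hsub₁, hS₁, hu₁, hn₁, herr₁⟩ := hR (min η₁ ε') hη₂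
  obtain ⟨s₂, hs₂, hsub₂, hS₂, hu₂, y, hy, hxy⟩ := add_nodes h s₁ hs₁ x ε hε
  have hA₂ : s.A ⊆ s₂.A := hsub₁.A_sub.trans hsub₂.A_sub
  have hL₂ : ∀ c ∈ s.A, s₂.L c = s.L c := fun c hc => by
    rw [hsub₂.L_eq c (hsub₁.A_sub hc), hsub₁.L_eq c hc]
  obtain ⟨s₃, hs₃, hA₃, hLB, hLs, hLn, hu₃, hS₃, hnew⟩ :=
    extend_all h s₂ hs₂ s.A hA₂ hs.A_σ (min η₁ ε') hη₂
  have hL₃ : ∀ c ∈ s.A, s₃.L c = s.L c + 1 := fun c hc => by
    rw [hLs c hc, hL₂ c hc]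
  have hL₃n : ∀ c ∈ s₃.A, c ∉ s.A → s₃.L c = 0 := by
    intro c hc hcs
    by_cases h2 : c ∈ s₂.A
    · rw [hLB c h2 hcs]
      by_cases h1 : c ∈ s₁.A
      · rw [hsub₂.L_eq c h1]
        exact hsub₁.L_new c h1 hcs
      · exact hsub₂.L_new c h2 h1
    · exact hLn c hc h2
  have hu₃' : ∀ c ∈ s.A, ∀ l, l ≤ s.L c → s₃.u c l = s₁.u c l := by
    intro c hc l hl
    rw [(hu₃ c (hA₂ hc) l (by rw [hL₂ c hc]; exact hl)).1, hu₂ c (hsub₁.A_sub hc)]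
  have herr₃ : s₃.Err (min η₁ ε') := by
    intro c hc l hl
    by_cases hcs : c ∈ s.A
    · rw [hL₃ c hcs] at hl
      rcases Nat.lt_succ_iff_lt_or_eq.mp hl with hl' | hl'
      · have e1 : s₃.res c l = s₁.res c l := by
          unfold CState.res
          rw [(hu₃ c (hA₂ hcs) (l + 1) (by rw [hL₂ c hcs]; omega)).2,
            hu₃' c hcs (l + 1) (by omega), hu₃' c hcs l (by omega), hu₂ c (hsub₁.A_sub hcs), hS₂]
        rw [e1]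
        exact herr₁ c (hsub₁.A_sub hcs) l (by rw [hsub₁.L_eq c hcs]; exact hl')
      · rw [hl', ← hL₂ c hcs]
        exact (hnew c hcs).2
    · rw [hL₃n c hc hcs] at hl
      exact absurd hl (Nat.not_lt_zero l)
  refine ⟨s₃, hs₃, ⟨hA₂.trans hA₃, hL₃, hL₃n, ?_, ?_, ?_, ?_, ?_⟩, ?_, ?_⟩
  · intro c hc
    rw [hu₃' c hc 0 (Nat.zero_le _), hu₁ c hc]
  · intro c hc l hl
    rw [hu₃' c hc l hl]
    exact hn₁ c hc l hl
  · intro c hc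
    have hκ := h.κ_pos c (hs.A_mem c hc)
    have hw := h.w_pos c (hs.A_mem c hc)
    have h1 := (hnew c hc).1
    rw [hL₂ c hc] at h1
    refine h1.trans ?_
    have h2 : ‖s₂.u c (s.L c)‖ ≤ ‖s.u c (s.L c)‖ + ε := by
      rw [hu₂ c (hsub₁.A_sub hc)]
      have h3 := hn₁ c hc (s.L c) le_rfl
      have h4 : s₁.u c (s.L c) = s.u c (s.L c) + (s₁.u c (s.L c) - s.u c (s.L c)) := by abel
      rw [h4]
      exact (norm_add_le _ _).trans (by linarith)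
    gcongr
  · have h1 : s₃.S - s.S = (s₁.S - s.S) + (s₃.S - s₂.S) := by rw [hS₂]; abel
    have h2 : ∑ c ∈ s.A, w c / ((s₂.L c : ℝ) + 1) ^ 2 = ∑ c ∈ s.A, w c / ((s.L c : ℝ) + 1) ^ 2 :=
      Finset.sum_congr rfl fun c hc => by rw [hL₂ c hc]
    rw [h1, ← h2]
    exact (norm_add_le _ _).trans (add_le_add hS₁ hS₃)
  · refine ⟨y, V_mono s₂ s₃ hA₃ ?_ hy, hxy⟩
    intro c hc
    exact (hu₃ c hc 0 (Nat.zero_le _)).1
  · intro c hc l hl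
    exact (herr₃ c hc l hl).trans_le (min_le_right _ _)
  · exact hready s₃ hs₃ (hA₂.trans hA₃) hL₃ hL₃n fun c hc l hl =>
      (herr₃ c hc l hl).trans_le (min_le_left _ _)

end Pool.Agent.Lib.MP_bb8441_an.Ch
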