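import Pool.Agent.Lib.MP_bb8441_an.Ch.Poly

/-! The step polynomial. -/

set_option autoImplicit false

namespace Pool.Agent.Lib.MP_bb8441_an.Ch

open Polynomial

/-- The Bernstein step polynomial: `O (x ^ m)` at `0`, and `1 - O ((1 - x) ^ m)` at `1`. -/
noncomputable def eta (m : ℕ) : ℂ[X] :=
  ∑ j ∈ Finset.Ico m (2 * m), C (((2 * m - 1).choose j : ℕ) : ℂ) * X ^ j * (1 - X) ^ (2 * m - 1 - j)

theorem one_sub_eta (m : ℕ) (hm : 1 ≤ m) : 1 - eta m =
    ∑ j ∈ Finset.range m, C (((2 * m - 1).choose j : ℕ) : ℂ) * X ^ j *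
      (1 - X) ^ (2 * m - 1 - j) := by
  have h1 : ∑ j ∈ Finset.range (2 * m),
      C (((2 * m - 1).choose j : ℕ) : ℂ) * X ^ j * (1 - X) ^ (2 * m - 1 - j) = (1 : ℂ[X]) := by
    have h5 : (X : ℂ[X]) + (1 - X) = 1 := by ring
    have h2 := add_pow (X : ℂ[X]) (1 - X) (2 * m - 1)
    have h3 : 2 * m - 1 + 1 = 2 * m := by omega
    rw [h3, h5, one_pow] at h2
    refine Eq.trans (Finset.sum_congr rfl fun j _ => ?_) h2.symm
    rw [C_eq_natCast]
    ring
  have h4 : ∑ j ∈ Finset.range m, C (((2 * m - 1).choose j : ℕ) : ℂ) * X ^ j *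
      (1 - X) ^ (2 * m - 1 - j) + eta m = 1 := by
    refine Eq.trans ?_ h1
    rw [eta]
    exact Finset.sum_range_add_sum_Ico _ (by omega)
  exact (eq_sub_of_add_eq h4).symm

theorem eta_degree (m : ℕ) : (eta m).natDegree ≤ 2 * m := by
  unfold eta
  refine natDegree_sum_le_of_forall_le _ _ fun j hj => ?_
  rw [Finset.mem_Ico] at hj
  have h1 : (X ^ j : ℂ[X]).natDegree ≤ j := natDegree_X_pow_le j
  have h2 : ((1 - X : ℂ[X]) ^ (2 * m - 1 - j)).natDegree ≤ 2 * m - 1 - j := by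
    refine natDegree_pow_le.trans ?_
    have h3 : (1 - X : ℂ[X]).natDegree ≤ 1 := by
      refine (natDegree_sub_le _ _).trans ?_
      simp
    calc (2 * m - 1 - j) * (1 - X : ℂ[X]).natDegree ≤ (2 * m - 1 - j) * 1 :=
          Nat.mul_le_mul_left _ h3
      _ = _ := mul_one _
  have h5 : (C (((2 * m - 1).choose j : ℕ) : ℂ) * X ^ j : ℂ[X]).natDegree ≤ j :=
    (natDegree_C_mul_le _ _).trans h1
  have h6 := natDegree_mul_le (p := (C (((2 * m - 1).choose j : ℕ) : ℂ) * X ^ j : ℂ[X]))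
    (q := (1 - X) ^ (2 * m - 1 - j))
  omega

lemma c4_nu_X (r : ℝ) : nu r (X : ℂ[X]) = r := by
  rw [nu_eq_sum r X 2 (by rw [natDegree_X]; norm_num)]
  simp [Finset.sum_range_succ, coeff_X]

lemma c4_nu_one (r : ℝ) : nu r (1 : ℂ[X]) = 1 := by
  rw [← C_1, nu_C]
  simp

lemma c4_mul3 (r : ℝ) (hr : 0 ≤ r) (a : ℂ) (P Q : ℂ[X]) (p q : ℝ) (hP : nu r P ≤ p)
    (hQ : nu r Q ≤ q) (i j : ℕ) :
    nu r (C a * P ^ i * Q ^ j) ≤ ‖a‖ * p ^ i * q ^ j := by
  have hP0 := nu_nonneg r hr P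
  have hQ0 := nu_nonneg r hr Q
  have hp0 : 0 ≤ p := hP0.trans hP
  calc nu r (C a * P ^ i * Q ^ j) ≤ nu r (C a * P ^ i) * nu r (Q ^ j) := nu_mul r hr _ _
    _ ≤ (nu r (C a) * nu r (P ^ i)) * nu r (Q ^ j) :=
        mul_le_mul_of_nonneg_right (nu_mul r hr _ _) (nu_nonneg r hr _)
    _ ≤ (‖a‖ * p ^ i) * q ^ j := by
        rw [nu_C]
        apply mul_le_mul _ ((nu_pow r hr Q j).trans (pow_le_pow_left₀ hQ0 hQ j))
          (nu_nonneg r hr _) (by positivity)
        exact mul_le_mul_of_nonneg_left ((nu_pow r hr P i).trans (pow_le_pow_left₀ hP0 hP i))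
          (norm_nonneg _)

lemma c4_nu_one_sub (r : ℝ) (hr : 0 ≤ r) : nu r (1 - X : ℂ[X]) ≤ 1 + r := by
  have h := nu_sub r hr (1 : ℂ[X]) X
  rwa [c4_nu_one, c4_nu_X] at h

lemma c4_choose_sum (m : ℕ) (s : Finset ℕ) (hs : s ⊆ Finset.range (2 * m)) :
    ∑ j ∈ s, (((2 * m - 1).choose j : ℕ) : ℝ) ≤ 4 ^ m := by
  rcases Nat.eq_zero_or_pos m with rfl | hm
  · have : s = ∅ := by
      rw [← Finset.subset_empty]
      simpa using hs
    rw [this]
    simp
  calc ∑ j ∈ s, (((2 * m - 1).choose j : ℕ) : ℝ)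
      ≤ ∑ j ∈ Finset.range (2 * m), (((2 * m - 1).choose j : ℕ) : ℝ) :=
        Finset.sum_le_sum_of_subset_of_nonneg hs fun _ _ _ => by positivity
    _ = ((∑ j ∈ Finset.range (2 * m - 1 + 1), (2 * m - 1).choose j : ℕ) : ℝ) := by
        rw [show 2 * m - 1 + 1 = 2 * m by omega]
        push_cast
        rfl
    _ = 2 ^ (2 * m - 1) := by
        rw [Nat.sum_range_choose]
        push_cast
        rfl
    _ ≤ 2 ^ (2 * m) := pow_le_pow_right₀ (by norm_num) (by omega)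
    _ = 4 ^ m := by
        rw [pow_mul]
        norm_num

theorem nu_eta_small (m : ℕ) (hm : 1 ≤ m) (r : ℝ) (hr : 0 ≤ r) (hr1 : r ≤ 1) :
    nu r (eta m) ≤ (8 * r) ^ m := by
  unfold eta
  calc nu r (∑ j ∈ Finset.Ico m (2 * m), C (((2 * m - 1).choose j : ℕ) : ℂ) * X ^ j *
        (1 - X) ^ (2 * m - 1 - j))
      ≤ ∑ j ∈ Finset.Ico m (2 * m), nu r (C (((2 * m - 1).choose j : ℕ) : ℂ) * X ^ j *
        (1 - X) ^ (2 * m - 1 - j)) := nu_sum _ r hr _
    _ ≤ ∑ j ∈ Finset.Ico m (2 * m), (((2 * m - 1).choose j : ℕ) : ℝ) * (r ^ m * 2 ^ m) := by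
        apply Finset.sum_le_sum
        intro j hj
        rw [Finset.mem_Ico] at hj
        refine (c4_mul3 r hr _ X (1 - X) r (1 + r) (c4_nu_X r).le (c4_nu_one_sub r hr) j
          (2 * m - 1 - j)).trans ?_
        rw [Complex.norm_natCast, mul_assoc]
        apply mul_le_mul_of_nonneg_left _ (Nat.cast_nonneg _)
        apply mul_le_mul (pow_le_pow_of_le_one hr hr1 hj.1) _ (by positivity) (by positivity)
        calc (1 + r) ^ (2 * m - 1 - j) ≤ 2 ^ (2 * m - 1 - j) :=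
              pow_le_pow_left₀ (by positivity) (by linarith) _
          _ ≤ 2 ^ m := pow_le_pow_right₀ (by norm_num) (by omega)
    _ = (∑ j ∈ Finset.Ico m (2 * m), (((2 * m - 1).choose j : ℕ) : ℝ)) * (r ^ m * 2 ^ m) := by
        rw [Finset.sum_mul]
    _ ≤ 4 ^ m * (r ^ m * 2 ^ m) := by
        apply mul_le_mul_of_nonneg_right _ (by positivity)
        apply c4_choose_sum
        intro j hj
        rw [Finset.mem_Ico] at hj
        exact Finset.mem_range.2 hj.2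
    _ = (8 * r) ^ m := by
        rw [mul_pow, show (8 : ℝ) = 4 * 2 by norm_num, mul_pow]
        ring

theorem nu_eta_large (m : ℕ) (hm : 1 ≤ m) (r : ℝ) (hr1 : 1 ≤ r) :
    nu r (eta m) ≤ (3 * r) ^ (2 * m) := by
  have hr : 0 ≤ r := by linarith
  unfold eta
  calc nu r (∑ j ∈ Finset.Ico m (2 * m), C (((2 * m - 1).choose j : ℕ) : ℂ) * X ^ j *
        (1 - X) ^ (2 * m - 1 - j))
      ≤ ∑ j ∈ Finset.Ico m (2 * m), nu r (C (((2 * m - 1).choose j : ℕ) : ℂ) * X ^ j *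
        (1 - X) ^ (2 * m - 1 - j)) := nu_sum _ r hr _
    _ ≤ ∑ j ∈ Finset.Ico m (2 * m),
        r ^ j * (1 + r) ^ (2 * m - 1 - j) * (((2 * m - 1).choose j : ℕ) : ℝ) := by
        apply Finset.sum_le_sum
        intro j _
        refine (c4_mul3 r hr _ X (1 - X) r (1 + r) (c4_nu_X r).le (c4_nu_one_sub r hr) j
          (2 * m - 1 - j)).trans ?_
        rw [Complex.norm_natCast]
        apply le_of_eq
        ring
    _ ≤ ∑ j ∈ Finset.range (2 * m - 1 + 1),
        r ^ j * (1 + r) ^ (2 * m - 1 - j) * (((2 * m - 1).choose j : ℕ) : ℝ) := by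
        apply Finset.sum_le_sum_of_subset_of_nonneg
        · intro j hj
          rw [Finset.mem_Ico] at hj
          exact Finset.mem_range.2 (by omega)
        · intro j _ _
          positivity
    _ = (r + (1 + r)) ^ (2 * m - 1) := (add_pow r (1 + r) (2 * m - 1)).symm
    _ ≤ (3 * r) ^ (2 * m - 1) := pow_le_pow_left₀ (by positivity) (by linarith) _
    _ ≤ (3 * r) ^ (2 * m) := pow_le_pow_right₀ (by linarith) (by omega)

theorem nu_one_sub_eta (m : ℕ) (hm : 1 ≤ m) (r : ℝ) (hr : 0 ≤ r) (hr1 : r ≤ 1) :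
    nu r (taylor 1 (1 - eta m)) ≤ (8 * r) ^ m := by
  have hT : taylor 1 (1 - eta m) = ∑ j ∈ Finset.range m, C (((2 * m - 1).choose j : ℕ) : ℂ) *
      (X + 1) ^ j * (0 - X) ^ (2 * m - 1 - j) := by
    rw [one_sub_eta m hm, map_sum]
    apply Finset.sum_congr rfl
    intro j _
    rw [taylor_mul, taylor_mul, taylor_pow, taylor_pow, map_sub, taylor_C, taylor_X, taylor_one,
      C_1]
    congr 2
    ring
  rw [hT]
  have h1 : nu r (X + 1 : ℂ[X]) ≤ 1 + r := by
    have h := nu_add r hr (X : ℂ[X]) 1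
    rw [c4_nu_one, c4_nu_X] at h
    linarith
  have h2 : nu r (0 - X : ℂ[X]) ≤ r := by
    have h := nu_sub r hr (0 : ℂ[X]) X
    have h0 : nu r (0 : ℂ[X]) = 0 := by
      rw [← C_0, nu_C]
      simp
    rw [h0, c4_nu_X] at h
    linarith
  calc nu r (∑ j ∈ Finset.range m, C (((2 * m - 1).choose j : ℕ) : ℂ) * (X + 1) ^ j *
        (0 - X) ^ (2 * m - 1 - j))
      ≤ ∑ j ∈ Finset.range m, nu r (C (((2 * m - 1).choose j : ℕ) : ℂ) * (X + 1) ^ j *
        (0 - X) ^ (2 * m - 1 - j)) := nu_sum _ r hr _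
    _ ≤ ∑ j ∈ Finset.range m, (((2 * m - 1).choose j : ℕ) : ℝ) * (2 ^ m * r ^ m) := by
        apply Finset.sum_le_sum
        intro j hj
        rw [Finset.mem_range] at hj
        refine (c4_mul3 r hr _ (X + 1) (0 - X) (1 + r) r h1 h2 j (2 * m - 1 - j)).trans ?_
        rw [Complex.norm_natCast, mul_assoc]
        apply mul_le_mul_of_nonneg_left _ (Nat.cast_nonneg _)
        apply mul_le_mul _ (pow_le_pow_of_le_one hr hr1 (by omega)) (by positivity) (by positivity)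
        calc (1 + r) ^ j ≤ 2 ^ j := pow_le_pow_left₀ (by positivity) (by linarith) _
          _ ≤ 2 ^ m := pow_le_pow_right₀ (by norm_num) (by omega)
    _ = (∑ j ∈ Finset.range m, (((2 * m - 1).choose j : ℕ) : ℝ)) * (2 ^ m * r ^ m) := by
        rw [Finset.sum_mul]
    _ ≤ 4 ^ m * (2 ^ m * r ^ m) := by
        apply mul_le_mul_of_nonneg_right _ (by positivity)
        apply c4_choose_sum
        intro j hj
        rw [Finset.mem_range] at hj ⊢
        omega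
    _ = (8 * r) ^ m := by
        rw [mul_pow, show (8 : ℝ) = 4 * 2 by norm_num, mul_pow]
        ring

/-- The step polynomial at the scale `N`. -/
theorem exists_step (m : ℕ) (hm : 1 ≤ m) (N : ℝ) (hN : 0 < N) :
    ∃ E : ℂ[X], E.natDegree ≤ 2 * m ∧ (∀ r : ℝ, 0 ≤ r → r ≤ N → nu r E ≤ (8 * (r / N)) ^ m) ∧
      (∀ r : ℝ, N ≤ r → nu r E ≤ (3 * (r / N)) ^ (2 * m)) ∧
      ∀ r : ℝ, 0 ≤ r → r ≤ N → nu r (taylor (N : ℂ) (1 - E)) ≤ (8 * (r / N)) ^ m := by
  have hNC : (N : ℂ) ≠ 0 := by exact_mod_cast hN.ne'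
  have hnorm : ‖((1 / N : ℝ) : ℂ)‖ = 1 / N := by
    rw [Complex.norm_real, Real.norm_of_nonneg (by positivity)]
  have key : ∀ r : ℝ, ‖((1 / N : ℝ) : ℂ)‖ * r = r / N := by
    intro r
    rw [hnorm]
    ring
  refine ⟨(eta m).comp (C ((1 / N : ℝ) : ℂ) * X), ?_, ?_, ?_, ?_⟩
  · have h1 : (C ((1 / N : ℝ) : ℂ) * X).natDegree ≤ 1 := by
      refine (natDegree_C_mul_le _ _).trans ?_
      exact natDegree_X_le
    calc ((eta m).comp (C ((1 / N : ℝ) : ℂ) * X)).natDegree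
        ≤ (eta m).natDegree * (C ((1 / N : ℝ) : ℂ) * X).natDegree := natDegree_comp_le
      _ ≤ (eta m).natDegree * 1 := Nat.mul_le_mul_left _ h1
      _ = (eta m).natDegree := by ring
      _ ≤ 2 * m := eta_degree m
  · intro r hr hrN
    rw [nu_scale, key]
    exact nu_eta_small m hm _ (by positivity) ((div_le_one hN).2 hrN)
  · intro r hr
    rw [nu_scale, key]
    exact nu_eta_large m hm _ ((one_le_div hN).2 hr)
  · intro r hr hrN
    have h1 : taylor (N : ℂ) (1 - (eta m).comp (C ((1 / N : ℝ) : ℂ) * X)) =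
        (taylor 1 (1 - eta m)).comp (C ((1 / N : ℝ) : ℂ) * X) := by
      rw [taylor_apply, taylor_apply]
      simp only [sub_comp, one_comp, comp_assoc, mul_comp, C_comp, X_comp, add_comp]
      have h2 : C ((1 / N : ℝ) : ℂ) * (X + C (N : ℂ)) = C ((1 / N : ℝ) : ℂ) * X + C 1 := by
        rw [mul_add, ← C_mul]
        congr 2
        push_cast
        field_simp
      rw [h2]
    rw [h1, nu_scale, key]
    exact nu_one_sub_eta m hm _ (by positivity) ((div_le_one hN).2 hrN)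

end Pool.Agent.Lib.MP_bb8441_an.Ch
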