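import Pool.Agent.Lib.MP_bb8441_an.Ch.Slow
import Pool.Agent.Lib.MP_bb8441_an.Ch.JMap

/-! Small vectors whose orbit is close to a given target on prescribed windows, and close to zero on
the other windows. -/

set_option autoImplicit false

namespace Pool.Agent.Lib.MP_bb8441_an.Ch

open Polynomial

variable {X : Type*} [NormedAddCommGroup X] [NormedSpace ℂ X]

/-- `q` is a good target: for every `ε` there is `k₀` such that for each choice `θ` of windows (from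
`k₀` on) there is a vector `z` of norm at most `ε`, whose orbit is `ε / 2 ^ k`-close to `θ k • q` on
the window number `k`; if `θ k = 1` this is required only for the multiples `t` of the period `p`. -/
def Target (S : X →L[ℂ] X) (q : X) : Prop :=
  ∃ p : ℕ, 1 ≤ p ∧ ∀ ε : ℝ, 0 < ε → ∃ k₀ : ℕ, ∀ θ : ℕ → ℂ, (∀ k, θ k = 0 ∨ θ k = 1) →
    (∀ k < k₀, θ k = 0) → ∃ z : X, ‖z‖ ≤ ε ∧ ∀ k t : ℕ, 2 ^ (28 * k) ≤ t →
      128 * t ≤ 129 * 2 ^ (28 * k) → (θ k = 0 ∨ p ∣ t) → ‖(S ^ t) z - θ k • q‖ ≤ ε / 2 ^ k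

omit [NormedSpace ℂ X] in
theorem c10_sum (ε : ℝ) (hε : 0 < ε) (v : ℕ → X) (h0 : v 0 = 0)
    (h : ∀ n, ‖v (n + 1) - v n‖ ≤ ε / 2 ^ (n + 1)) (n : ℕ) : ‖v n‖ ≤ ε * (1 - (1 / 2) ^ n) := by
  induction n with
  | zero => simp [h0]
  | succ n ih =>
    have h1 : ‖v (n + 1)‖ ≤ ‖v (n + 1) - v n‖ + ‖v n‖ := by
      have := norm_add_le (v (n + 1) - v n) (v n)
      simpa using this
    have h2 : ε / 2 ^ (n + 1) = ε * ((1 / 2) ^ n - (1 / 2) ^ (n + 1)) := by
      rw [one_div, inv_pow, inv_pow, pow_succ]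
      field_simp
      ring
    have h3 := h n
    rw [h2] at h3
    calc ‖v (n + 1)‖ ≤ ‖v (n + 1) - v n‖ + ‖v n‖ := h1
      _ ≤ ε * ((1 / 2) ^ n - (1 / 2) ^ (n + 1)) + ε * (1 - (1 / 2) ^ n) := add_le_add h3 ih
      _ = ε * (1 - (1 / 2) ^ (n + 1)) := by ring

theorem target_chain [CompleteSpace X] (S : X →L[ℂ] X) (c : ℂ) (hc : ∃ m : ℕ, 1 ≤ m ∧ c ^ m = 1)
    (u : ℕ → X) (h0 : S (u 0) = c • u 0) (h1 : ∀ l, S (u (l + 1)) = c • (u (l + 1) + u l))
    (hb : ∃ C₁ D : ℝ, 0 ≤ C₁ ∧ 0 ≤ D ∧ ∀ l, ‖u l‖ ≤ C₁ * D ^ l * ((l.factorial : ℝ)) ^ 2) :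
    Target S (u 0) := by
  obtain ⟨m, hm, hcm⟩ := hc
  obtain ⟨C₁, D, hC, hD, hu⟩ := hb
  obtain ⟨J, hJ1, hJS, hJn⟩ := exists_map S c u h0 h1 C₁ D hC hD hu
  have hcn : ‖c‖ = 1 := by
    have h2 : ‖c‖ ^ m = 1 := by rw [← norm_pow, hcm, norm_one]
    exact (pow_eq_one_iff_of_nonneg (norm_nonneg c) (by omega)).1 h2
  refine ⟨m, hm, fun ε hε => ?_⟩
  obtain ⟨k₀, hk₀⟩ := exists_slow C₁ (8 * (D + 1)) hC (by linarith) ε hε
  refine ⟨k₀, fun θ hθ hθ0 => ?_⟩
  obtain ⟨F, hF0, hF⟩ := hk₀ θ hθ hθ0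
  obtain ⟨hstep, hwin⟩ := hF (fun P => ‖J P‖) (fun P Q => by
    simp only [map_add]; exact norm_add_le _ _) hJn
  have hcauchy : CauchySeq (fun n => J (F n)) := by
    apply cauchySeq_of_le_geometric (1 / 2) (ε / 2) (by norm_num)
    intro n
    rw [dist_comm, dist_eq_norm, ← map_sub]
    refine (hstep n).trans (le_of_eq ?_)
    rw [pow_succ, one_div, inv_pow]
    field_simp
  obtain ⟨z, hz⟩ := cauchySeq_tendsto_of_complete hcauchy
  refine ⟨z, ?_, ?_⟩
  · have hle : ∀ n, ‖J (F n)‖ ≤ ε := by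
      intro n
      have h2 := c10_sum ε hε (fun n => J (F n)) (by simp [hF0])
        (fun n => by rw [← map_sub]; exact hstep n) n
      refine h2.trans ?_
      have h3 : (0 : ℝ) ≤ (1 / 2) ^ n := by positivity
      nlinarith
    exact le_of_tendsto hz.norm (Filter.Eventually.of_forall hle)
  · intro k t ht1 ht2 hor
    have hlim : Filter.Tendsto (fun n => ‖(S ^ t) (J (F n)) - θ k • u 0‖) Filter.atTop
        (nhds ‖(S ^ t) z - θ k • u 0‖) :=
      ((((S ^ t).continuous.tendsto z).comp hz).sub_const _).norm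
    refine le_of_tendsto hlim ?_
    filter_upwards [Filter.eventually_gt_atTop k] with n hn
    have hw := hwin k t n ht1 ht2 hn
    rw [orbit_map S c J hJS]
    have hJC : J (C (θ k)) = θ k • u 0 := by
      rw [← hJ1, ← map_smul, Polynomial.smul_eq_C_mul, mul_one]
    have hkey : c ^ t • (θ k • u 0) = θ k • u 0 := by
      rcases hor with h | ⟨s, rfl⟩
      · simp [h]
      · rw [pow_mul, hcm, one_pow, one_smul]
    have heq : c ^ t • J (taylor (t : ℂ) (F n)) - θ k • u 0 =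
        c ^ t • J (taylor (t : ℂ) (F n) - C (θ k)) := by
      rw [map_sub, smul_sub, hJC, hkey]
    rw [heq, norm_smul, norm_pow, hcn, one_pow, one_mul]
    exact hw

theorem target_smul (S : X →L[ℂ] X) (q : X) (h : Target S q) (b : ℂ) : Target S (b • q) := by
  obtain ⟨p, hp, hT⟩ := h
  refine ⟨p, hp, fun ε hε => ?_⟩
  have hb : 0 < ‖b‖ + 1 := by positivity
  obtain ⟨k₀, hk₀⟩ := hT (ε / (‖b‖ + 1)) (div_pos hε hb)
  refine ⟨k₀, fun θ hθ hθ0 => ?_⟩
  obtain ⟨z, hz, hz'⟩ := hk₀ θ hθ hθ0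
  have hle : ‖b‖ * (ε / (‖b‖ + 1)) ≤ ε := by
    rw [← mul_div_assoc, div_le_iff₀ hb]
    nlinarith [norm_nonneg b]
  refine ⟨b • z, ?_, fun k t h1 h2 h3 => ?_⟩
  · rw [norm_smul]
    exact (mul_le_mul_of_nonneg_left hz (norm_nonneg b)).trans hle
  · have h4 : (S ^ t) (b • z) - θ k • b • q = b • ((S ^ t) z - θ k • q) := by
      rw [map_smul, smul_sub, smul_comm (θ k) b q]
    rw [h4, norm_smul]
    refine (mul_le_mul_of_nonneg_left (hz' k t h1 h2 h3) (norm_nonneg b)).trans ?_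
    rw [← mul_div_assoc]
    exact div_le_div_of_nonneg_right hle (by positivity)

theorem target_add (S : X →L[ℂ] X) (q q' : X) (h : Target S q) (h' : Target S q') :
    Target S (q + q') := by
  obtain ⟨p, hp, hT⟩ := h
  obtain ⟨p', hp', hT'⟩ := h'
  refine ⟨p * p', Nat.mul_pos hp hp', fun ε hε => ?_⟩
  obtain ⟨k₀, hk₀⟩ := hT (ε / 2) (half_pos hε)
  obtain ⟨k₁, hk₁⟩ := hT' (ε / 2) (half_pos hε)
  refine ⟨max k₀ k₁, fun θ hθ hθ0 => ?_⟩
  obtain ⟨z, hz, hz2⟩ := hk₀ θ hθ fun k hk => hθ0 k (lt_of_lt_of_le hk (le_max_left _ _))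
  obtain ⟨z', hz', hz2'⟩ := hk₁ θ hθ fun k hk => hθ0 k (lt_of_lt_of_le hk (le_max_right _ _))
  refine ⟨z + z', ?_, fun k t h1 h2 h3 => ?_⟩
  · exact (norm_add_le _ _).trans (by linarith)
  · have h4 := hz2 k t h1 h2 (h3.imp_right fun h => (Dvd.intro _ rfl).trans h)
    have h5 := hz2' k t h1 h2 (h3.imp_right fun h => (Dvd.intro_left _ rfl).trans h)
    have h6 : (S ^ t) (z + z') - θ k • (q + q') =
        ((S ^ t) z - θ k • q) + ((S ^ t) z' - θ k • q') := by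
      rw [map_add, smul_add]
      abel
    rw [h6]
    refine (norm_add_le _ _).trans ((add_le_add h4 h5).trans (le_of_eq ?_))
    rw [← add_div, add_halves]

theorem target_zero (S : X →L[ℂ] X) : Target S 0 := by
  refine ⟨1, le_rfl, fun ε hε => ⟨0, fun θ _ _ => ⟨0, by rw [norm_zero]; exact hε.le, ?_⟩⟩⟩
  intro k t _ _ _
  rw [map_zero, smul_zero, sub_zero, norm_zero]
  positivity

theorem target_span (S : X →L[ℂ] X) (E : Set X) (hE : ∀ q ∈ E, Target S q) (q : X)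
    (hq : q ∈ Submodule.span ℂ E) : Target S q := by
  induction hq using Submodule.span_induction with
  | mem x hx => exact hE x hx
  | zero => exact target_zero S
  | add x y _ _ hx hy => exact target_add S x y hx hy
  | smul a x _ hx => exact target_smul S x hx a

end Pool.Agent.Lib.MP_bb8441_an.Ch
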